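import Mathlib
set_option autoImplicit false
open Finset

namespace Pool.Agent.H169R3.KR

open scoped Pointwise in
/-- subset sums -/
def a1SS {p : ℕ} {ι : Type*} [DecidableEq ι] (y : ι → ZMod p) (S : Finset ι) : Finset (ZMod p) :=
  S.powerset.image (fun I => ∑ i ∈ I, y i)

theorem a1_mem {p : ℕ} {ι : Type*} [DecidableEq ι] (y : ι → ZMod p) (S : Finset ι) (z : ZMod p) :
    z ∈ a1SS y S ↔ ∃ I ⊆ S, ∑ i ∈ I, y i = z := by
  unfold a1SS
  simp only [mem_image, mem_powerset]

theorem a1_ne {p : ℕ} {ι : Type*} [DecidableEq ι] (y : ι → ZMod p) (S : Finset ι) :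
    (a1SS y S).Nonempty := ⟨0, (a1_mem y S 0).2 ⟨∅, empty_subset _, by simp⟩⟩

open scoped Pointwise in
theorem a1_step1 (p : ℕ) [hp : Fact p.Prime] {ι : Type*} [DecidableEq ι] (y : ι → ZMod p)
    (S : Finset ι) (i : ι) (hi : i ∉ S) (hyi : y i ≠ 0) :
    min p ((a1SS y S).card + 1) ≤ (a1SS y (insert i S)).card := by
  have hsub : a1SS y S + ({0, y i} : Finset (ZMod p)) ⊆ a1SS y (insert i S) := by
    intro z hz
    rw [Finset.mem_add] at hz
    obtain ⟨a, ha, b, hb, rfl⟩ := hz
    rw [a1_mem] at ha ⊢
    obtain ⟨I, hI, rfl⟩ := ha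
    simp only [mem_insert, mem_singleton] at hb
    rcases hb with rfl | rfl
    · exact ⟨I, hI.trans (subset_insert _ _), by rw [add_zero]⟩
    · refine ⟨insert i I, insert_subset_insert _ hI, ?_⟩
      rw [sum_insert (fun h => hi (hI h)), add_comm]
  have h2 : ({0, y i} : Finset (ZMod p)).card = 2 := by
    rw [card_insert_of_notMem, card_singleton]
    simpa using fun h : (0 : ZMod p) = y i => hyi h.symm
  have h3 := ZMod.cauchy_davenport hp.out (a1_ne y S) (t := ({0, y i} : Finset (ZMod p)))
    ⟨0, by simp⟩
  rw [h2] at h3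
  have h4 := card_le_card hsub
  have h5 : (a1SS y S).card + 2 - 1 = (a1SS y S).card + 1 := by omega
  rw [h5] at h3
  exact h3.trans h4

open scoped Pointwise in
theorem a1_step2 (p : ℕ) [hp : Fact p.Prime] {ι : Type*} [DecidableEq ι] (y : ι → ZMod p)
    (S : Finset ι) (i j : ι) (hi : i ∉ S) (hj : j ∉ S) (hij : i ≠ j) (hyi : y i ≠ 0) (hyj : y j ≠ 0)
    (hyij : y i ≠ y j) (hs : y i + y j ≠ 0) :
    min p ((a1SS y S).card + 3) ≤ (a1SS y (insert i (insert j S))).card := by
  have hsub : a1SS y S + ({0, y i, y j, y i + y j} : Finset (ZMod p)) ⊆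
      a1SS y (insert i (insert j S)) := by
    intro z hz
    rw [Finset.mem_add] at hz
    obtain ⟨a, ha, b, hb, rfl⟩ := hz
    rw [a1_mem] at ha ⊢
    obtain ⟨I, hI, rfl⟩ := ha
    have hiI : i ∉ I := fun h => hi (hI h)
    have hjI : j ∉ I := fun h => hj (hI h)
    simp only [mem_insert, mem_singleton] at hb
    rcases hb with rfl | rfl | rfl | rfl
    · exact ⟨I, hI.trans ((subset_insert _ _).trans (subset_insert _ _)), by rw [add_zero]⟩
    · refine ⟨insert i I, insert_subset_insert _ (hI.trans (subset_insert _ _)), ?_⟩
      rw [sum_insert hiI, add_comm]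
    · refine ⟨insert j I, (insert_subset_insert _ hI).trans (subset_insert _ _), ?_⟩
      rw [sum_insert hjI, add_comm]
    · refine ⟨insert i (insert j I), insert_subset_insert _ (insert_subset_insert _ hI), ?_⟩
      rw [sum_insert (by simp [hij, hiI]), sum_insert hjI]
      ring
  have h2 : ({0, y i, y j, y i + y j} : Finset (ZMod p)).card = 4 := by
    rw [card_insert_of_notMem, card_insert_of_notMem, card_insert_of_notMem, card_singleton]
    · simpa using hyi
    · simp only [mem_insert, mem_singleton, not_or]
      exact ⟨hyij, by simpa using hyj⟩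
    · simp only [mem_insert, mem_singleton, not_or]
      exact ⟨fun h => hyi h.symm, fun h => hyj h.symm, fun h => hs h.symm⟩
  have h3 := ZMod.cauchy_davenport hp.out (a1_ne y S)
    (t := ({0, y i, y j, y i + y j} : Finset (ZMod p))) ⟨0, by simp⟩
  rw [h2] at h3
  have h4 := card_le_card hsub
  have h5 : (a1SS y S).card + 4 - 1 = (a1SS y S).card + 3 := by omega
  rw [h5] at h3
  exact h3.trans h4

theorem a1_chain (p : ℕ) [hp : Fact p.Prime] {ι : Type*} [DecidableEq ι] (y : ι → ZMod p)
    (S : Finset ι) (hS : ∀ i ∈ S, y i ≠ 0) : min p (1 + S.card) ≤ (a1SS y S).card := by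
  induction S using Finset.induction_on with
  | empty =>
    have := (a1_ne y (∅ : Finset ι)).card_pos
    simp only [card_empty]
    exact (min_le_right _ _).trans (by omega)
  | insert i S hi ih =>
    have h1 := ih (fun j hj => hS j (mem_insert_of_mem hj))
    have h2 := a1_step1 p y S i hi (hS i (mem_insert_self _ _))
    rw [card_insert_of_notMem hi]
    rcases le_total p ((a1SS y S).card + 1) with h | h
    · rw [min_eq_left h] at h2
      exact (min_le_left _ _).trans h2
    · rw [min_eq_right h] at h2
      rcases le_total p (1 + S.card) with h' | h'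
      · rw [min_eq_left h'] at h1
        omega
      · rw [min_eq_right h'] at h1
        exact (min_le_right _ _).trans (by omega)

theorem a1_claim (p : ℕ) [hp : Fact p.Prime] {ι : Type*} [DecidableEq ι] (y : ι → ZMod p) (q : ℕ) :
    ∀ S : Finset ι, (∀ I ⊆ S, I.Nonempty → ∑ i ∈ I, y i ≠ 0) →
    min p (1 + S.card + q) ≤ (a1SS y S).card ∨ ∃ h, (S.filter fun i => y i ≠ h).card + 1 ≤ 2 * q := by
  induction q with
  | zero =>
    intro S hS
    left
    refine a1_chain p y S ?_
    intro i hi
    have := hS {i} (by simpa using hi) ⟨i, by simp⟩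
    simpa using this
  | succ q ih =>
    intro S hS
    by_cases hc : ∃ h, ∀ i ∈ S, y i = h
    · right
      obtain ⟨h, hh⟩ := hc
      refine ⟨h, ?_⟩
      rw [filter_false_of_mem (fun i hi => by simpa using hh i hi), card_empty]
      omega
    · -- two different values
      have : ∃ i ∈ S, ∃ j ∈ S, y i ≠ y j := by
        by_contra hcon
        push Not at hcon
        apply hc
        rcases S.eq_empty_or_nonempty with rfl | ⟨i, hi⟩
        · exact ⟨0, by simp⟩
        · exact ⟨y i, fun j hj => hcon j hj i hi⟩
      obtain ⟨i, hi, j, hj, hij⟩ := this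
      have hne : i ≠ j := fun h => hij (by rw [h])
      set S' := (S.erase i).erase j with hS'
      have hiS' : i ∉ S' := by simp [hS']
      have hjS' : j ∉ S' := by simp [hS']
      have hSS : insert i (insert j S') = S := by
        rw [hS', insert_erase (by simp [hj, hne.symm]), insert_erase hi]
      have hcard : S'.card + 2 = S.card := by
        have h1 : (insert i (insert j S')).card = S'.card + 2 := by
          rw [card_insert_of_notMem, card_insert_of_notMem hjS']
          simp [hne, hiS']
        rw [← h1, hSS]
      have hsub : S' ⊆ S := (erase_subset _ _).trans (erase_subset _ _)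
      have hyi : y i ≠ 0 := by
        have := hS {i} (by simpa using hi) ⟨i, by simp⟩
        simpa using this
      have hyj : y j ≠ 0 := by
        have := hS {j} (by simpa using hj) ⟨j, by simp⟩
        simpa using this
      have hs : y i + y j ≠ 0 := by
        have := hS {i, j} (by
          intro a ha
          simp only [mem_insert, mem_singleton] at ha
          rcases ha with rfl | rfl
          · exact hi
          · exact hj) ⟨i, by simp⟩
        rwa [sum_pair hne] at this
      rcases ih S' (fun I hI => hS I (hI.trans hsub)) with h | ⟨h, hh⟩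
      · left
        have h2 := a1_step2 p y S' i j hiS' hjS' hne hyi hyj hij hs
        rw [hSS] at h2
        rcases le_total p ((a1SS y S').card + 3) with h3 | h3
        · rw [min_eq_left h3] at h2
          exact (min_le_left _ _).trans h2
        · rw [min_eq_right h3] at h2
          rcases le_total p (1 + S'.card + q) with h4 | h4
          · rw [min_eq_left h4] at h
            omega
          · rw [min_eq_right h4] at h
            exact (min_le_right _ _).trans (by omega)
      · right
        refine ⟨h, ?_⟩
        have h5 : (S.filter fun i => y i ≠ h) ⊆ insert i (insert j (S'.filter fun i => y i ≠ h)) := by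
          intro a ha
          rw [mem_filter] at ha
          have : a ∈ insert i (insert j S') := by rw [hSS]; exact ha.1
          simp only [mem_insert, mem_filter] at this ⊢
          tauto
        have h6 := card_le_card h5
        have h7 : (insert i (insert j (S'.filter fun i => y i ≠ h))).card ≤
            (S'.filter fun i => y i ≠ h).card + 2 := by
          refine (card_insert_le _ _).trans ?_
          have := card_insert_le j (S'.filter fun i => y i ≠ h)
          omega
        omega

/-- A1: structure of long minimal zero-sum families over `ZMod p`. -/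
theorem zp_structure (p c : ℕ) [Fact p.Prime] (hp : 10 * (c + 1) ^ 2 < p)
    {ι : Type*} [Fintype ι] [DecidableEq ι] (y : ι → ZMod p)
    (hn : p ≤ Fintype.card ι + c)
    (h0 : ∑ i, y i = 0)
    (hmin : ∀ I : Finset ι, I.Nonempty → ∑ i ∈ I, y i = 0 → I = Finset.univ) :
    ∃ h : ZMod p, h ≠ 0 ∧ ∑ i, (h⁻¹ * y i).val = p := by
  have hpc : 10 * (c + 1) ≤ 10 * (c + 1) ^ 2 := by nlinarith
  have hcard2 : 2 < Fintype.card ι := by omega
  -- two points
  obtain ⟨i0, i1, hi01⟩ := Fintype.exists_pair_of_one_lt_card (α := ι) (by omega)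
  have hsingle : ∀ i, y i ≠ 0 := by
    intro i hi
    have := hmin {i} ⟨i, by simp⟩ (by simpa using hi)
    have h2 : (Finset.univ : Finset ι).card = 1 := by rw [← this]; simp
    rw [card_univ] at h2
    omega
  set S : Finset ι := (univ.erase i0).erase i1 with hS
  have hi1S : i1 ∉ S := by simp [hS]
  have hi0S : i0 ∉ S := by simp [hS]
  have hScard : S.card + 2 = Fintype.card ι := by
    rw [hS, card_erase_of_mem (by simp [hi01.symm]), card_erase_of_mem (by simp), card_univ]
    omega
  have hSfree : ∀ I ⊆ S, I.Nonempty → ∑ i ∈ I, y i ≠ 0 := by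
    intro I hI hIne hsum
    have := hmin I hIne hsum
    apply hi0S
    apply hI
    rw [this]
    exact mem_univ _
  have hex : ∃ h, (S.filter fun i => y i ≠ h).card + 1 ≤ 2 * (c + 1) := by
    rcases a1_claim p y (c + 1) S hSfree with h | h
    · exfalso
      rw [min_eq_left (by omega)] at h
      have hall : a1SS y S = univ := by
        apply Finset.eq_univ_of_card
        rw [ZMod.card]
        have h2 := card_le_univ (a1SS y S)
        rw [ZMod.card] at h2
        omega
      have hm : -y i1 ∈ a1SS y S := by rw [hall]; exact mem_univ _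
      rw [a1_mem] at hm
      obtain ⟨I, hI, hsum⟩ := hm
      have hins := hmin (insert i1 I) ⟨i1, mem_insert_self _ _⟩ (by
        rw [sum_insert (fun h => hi1S (hI h)), hsum]; ring)
      have : i0 ∈ insert i1 I := by rw [hins]; exact mem_univ _
      rw [mem_insert] at this
      rcases this with h' | h'
      · exact hi01 h'
      · exact hi0S (hI h')
    · exact h
  obtain ⟨h, hh⟩ := hex
  set R : Finset ι := univ.filter fun i => y i ≠ h with hR
  set Nf : Finset ι := univ.filter fun i => y i = h with hNf
  have hRN : R.card + Nf.card = Fintype.card ι := by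
    have := card_filter_add_card_filter_not (s := (univ : Finset ι)) (fun i => y i = h)
    rw [card_univ] at this
    have e1 : R.card = (univ.filter fun i => ¬ y i = h).card := rfl
    have e2 : Nf.card = (univ.filter fun i => y i = h).card := rfl
    rw [e1, e2]
    omega
  have hRcard : R.card ≤ 2 * c + 3 := by
    have h5 : R ⊆ insert i0 (insert i1 (S.filter fun i => y i ≠ h)) := by
      intro a ha
      rw [hR, mem_filter] at ha
      simp only [mem_insert, mem_filter, hS, mem_erase, mem_univ, and_true]
      tauto
    have h6 := card_le_card h5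
    have h7 : (insert i0 (insert i1 (S.filter fun i => y i ≠ h))).card ≤
        (S.filter fun i => y i ≠ h).card + 2 := by
      refine (card_insert_le _ _).trans ?_
      have := card_insert_le i1 (S.filter fun i => y i ≠ h)
      omega
    omega
  have hNpos : 0 < Nf.card := by omega
  have hh0 : h ≠ 0 := by
    obtain ⟨i, hi⟩ := card_pos.1 hNpos
    rw [hNf, mem_filter] at hi
    rw [← hi.2]
    exact hsingle i
  refine ⟨h, hh0, ?_⟩
  set b : ι → ℕ := fun i => (h⁻¹ * y i).val with hb
  have hbval : ∀ i, (b i : ZMod p) = h⁻¹ * y i := fun i => by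
    rw [hb]; exact ZMod.natCast_zmod_val _
  have hby : ∀ i, y i = h * (b i : ZMod p) := by
    intro i
    rw [hbval, ← mul_assoc, mul_inv_cancel₀ hh0, one_mul]
  have hblt : ∀ i, b i < p := fun i => ZMod.val_lt _
  have hbpos : ∀ i, 0 < b i := by
    intro i
    rw [Nat.pos_iff_ne_zero]
    intro hbi
    apply hsingle i
    rw [hby i, hbi]
    simp
  have hp1 : 1 < p := by omega
  have hbone : ∀ i ∈ Nf, b i = 1 := by
    intro i hi
    rw [hNf, mem_filter] at hi
    have : (h⁻¹ * y i) = 1 := by rw [hi.2]; exact inv_mul_cancel₀ hh0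
    show (h⁻¹ * y i).val = 1
    rw [this]
    have : Fact (1 < p) := ⟨hp1⟩
    exact ZMod.val_one p
  have hsplit : ∑ i, b i = ∑ i ∈ R, b i + Nf.card := by
    have h1 := sum_filter_add_sum_filter_not (univ : Finset ι) (fun i => y i = h) b
    have h2 : ∑ i ∈ Nf, b i = Nf.card := by
      rw [sum_congr rfl hbone]; simp
    rw [← h1]
    rw [← hNf, h2]
    rw [add_comm]
  -- general: adding copies of h
  have hcopies : ∀ (I : Finset ι) (k : ℕ), I ⊆ R → k ≤ Nf.card → 0 < k →
      ∑ i ∈ I, b i + k = p → ∑ i, b i = p := by
    intro I k hI hk hk0 hsum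
    obtain ⟨J, hJ, hJc⟩ := exists_subset_card_eq hk
    have hdisj : Disjoint I J := by
      rw [disjoint_left]
      intro a ha ha'
      have h1 := hI ha
      have h2 := hJ ha'
      rw [hR, mem_filter] at h1
      rw [hNf, mem_filter] at h2
      exact h1.2 h2.2
    have hJb : ∑ i ∈ J, b i = k := by
      rw [sum_congr rfl (fun i hi => hbone i (hJ hi))]; simp [hJc]
    have htot : ∑ i ∈ I ∪ J, b i = p := by
      rw [sum_union hdisj, hJb, hsum]
    have hzero : ∑ i ∈ I ∪ J, y i = 0 := by
      rw [sum_congr rfl (fun i _ => hby i), ← mul_sum, ← Nat.cast_sum, htot]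
      simp
    have hne : (I ∪ J).Nonempty := by
      have : J.Nonempty := by rw [← card_pos]; omega
      exact this.mono subset_union_right
    have := hmin _ hne hzero
    rw [← htot, this]
  by_cases hA : ∃ i ∈ R, p ≤ b i + Nf.card
  · obtain ⟨i, hi, hip⟩ := hA
    have := hblt i
    refine hcopies {i} (p - b i) (by simpa using hi) (by omega) (by omega) ?_
    rw [sum_singleton]
    omega
  · push Not at hA
    have hBle : ∑ i ∈ R, b i ≤ R.card * (3 * c + 3) := by
      rw [← smul_eq_mul, ← Finset.sum_const]
      apply sum_le_sum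
      intro i hi
      have := hA i hi
      omega
    have hBlt : ∑ i ∈ R, b i < p := by
      have h1 : R.card * (3 * c + 3) ≤ (2 * c + 3) * (3 * c + 3) := Nat.mul_le_mul_right _ hRcard
      have h2 : (2 * c + 3) * (3 * c + 3) ≤ 10 * (c + 1) ^ 2 := by nlinarith
      omega
    have hdvd : p ∣ ∑ i, b i := by
      rw [← ZMod.natCast_eq_zero_iff, Nat.cast_sum, sum_congr rfl (fun i _ => hbval i), ← mul_sum,
        h0, mul_zero]
    have hge : p ≤ ∑ i, b i := by
      apply Nat.le_of_dvd _ hdvd
      rw [hsplit]; omega
    rw [hsplit] at hge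
    exact hcopies R (p - ∑ i ∈ R, b i) (Subset.refl _) (by omega) (by omega) (by omega)

end Pool.Agent.H169R3.KR
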