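import Mathlib
set_option autoImplicit false
open Finset

namespace Pool.Agent.H169R3.KR

private theorem B1_step {ι : Type*} [Fintype ι] [DecidableEq ι] (v : ι → (Fin 5 → ZMod 2)) :
    ∀ (c m : ℕ) (π : ι → Option (Fin m)),
      (∀ k : Fin m, ∃ i j : ι, i ≠ j ∧ v i = v j ∧ ∀ l : ι, π l = some k ↔ l = i ∨ l = j) →
      (Finset.univ.filter fun i => π i = none).card = c → 1 ≤ c →
      Fintype.card ι = 2 * m + c →
    ∃ (m : ℕ) (π : ι → Option (Fin m)),
      (∀ k : Fin m, ∃ i j : ι, i ≠ j ∧ v i = v j ∧ ∀ l : ι, π l = some k ↔ l = i ∨ l = j) ∧
      (∃ i, π i = none) ∧ (Finset.univ.filter fun i => π i = none).card ≤ 32 ∧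
      Fintype.card ι = 2 * m + (Finset.univ.filter fun i => π i = none).card := by
  intro c
  induction c using Nat.strong_induction_on with
  | _ c ih =>
    intro m π hπ hc hc1 hcard
    by_cases hle : c ≤ 32
    · refine ⟨m, π, hπ, ?_, by omega, by omega⟩
      have hne : (Finset.univ.filter fun i => π i = none).Nonempty := by
        rw [← Finset.card_pos]; omega
      obtain ⟨i, hi⟩ := hne
      exact ⟨i, (Finset.mem_filter.1 hi).2⟩
    · have hlt : (Finset.univ : Finset (Fin 5 → ZMod 2)).card <
          (Finset.univ.filter fun i => π i = none).card := by
        have h32 : (Finset.univ : Finset (Fin 5 → ZMod 2)).card = 32 := by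
          rw [Finset.card_univ, Fintype.card_fun, ZMod.card, Fintype.card_fin]
          norm_num
        omega
      obtain ⟨i, hi, j, hj, hij, hv⟩ :=
        Finset.exists_ne_map_eq_of_card_lt_of_maps_to hlt (f := v)
          (fun a _ => Finset.mem_univ (v a))
      have hi0 : π i = none := (Finset.mem_filter.1 hi).2
      have hj0 : π j = none := (Finset.mem_filter.1 hj).2
      let π' : ι → Option (Fin (m + 1)) := fun l =>
        if l = i ∨ l = j then some (Fin.last m) else (π l).map Fin.castSucc
      have hnone : ∀ l, π' l = none ↔ (π l = none ∧ l ≠ i ∧ l ≠ j) := by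
        intro l
        by_cases h : l = i ∨ l = j
        · have : π' l = some (Fin.last m) := if_pos h
          rw [this]
          constructor
          · intro h'; exact absurd h' (by simp)
          · rintro ⟨-, h1, h2⟩
            rcases h with h | h
            · exact absurd h h1
            · exact absurd h h2
        · have : π' l = (π l).map Fin.castSucc := if_neg h
          rw [this, Option.map_eq_none_iff]
          push Not at h
          exact ⟨fun h' => ⟨h', h⟩, fun h' => h'.1⟩
      have hset : (Finset.univ.filter fun l => π' l = none) =
          ((Finset.univ.filter fun l => π l = none).erase i).erase j := by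
        ext l
        simp only [Finset.mem_filter, Finset.mem_univ, true_and, Finset.mem_erase, hnone]
        tauto
      have hcard' : (Finset.univ.filter fun l => π' l = none).card = c - 2 := by
        rw [hset, Finset.card_erase_of_mem, Finset.card_erase_of_mem hi, hc]
        · omega
        · exact Finset.mem_erase.2 ⟨fun h => hij h.symm, hj⟩
      refine ih (c - 2) (by omega) (m + 1) π' ?_ hcard' (by omega) (by omega)
      intro k
      refine Fin.lastCases ?_ (fun k => ?_) k
      · refine ⟨i, j, hij, hv, fun l => ?_⟩
        by_cases h : l = i ∨ l = j
        · have : π' l = some (Fin.last m) := if_pos h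
          rw [this]
          exact ⟨fun _ => h, fun _ => rfl⟩
        · have : π' l = (π l).map Fin.castSucc := if_neg h
          rw [this]
          constructor
          · intro h'
            rw [Option.map_eq_some_iff] at h'
            obtain ⟨a, -, ha⟩ := h'
            exact absurd ha (Fin.castSucc_ne_last a)
          · intro h'; exact absurd h' h
      · obtain ⟨a, b, hab, hvab, hl⟩ := hπ k
        refine ⟨a, b, hab, hvab, fun l => ?_⟩
        by_cases h : l = i ∨ l = j
        · have : π' l = some (Fin.last m) := if_pos h
          rw [this]
          constructor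
          · intro h'
            exact absurd (Option.some.inj h').symm (Fin.castSucc_ne_last k)
          · intro h'
            have h1 := (hl l).2 h'
            rcases h with h | h
            · rw [h, hi0] at h1; exact absurd h1 (by simp)
            · rw [h, hj0] at h1; exact absurd h1 (by simp)
        · have : π' l = (π l).map Fin.castSucc := if_neg h
          rw [this, ← hl l]
          constructor
          · intro h'
            rw [Option.map_eq_some_iff] at h'
            obtain ⟨a, ha, ha'⟩ := h'
            rw [ha, Fin.castSucc_injective _ ha']
          · intro h'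
            rw [h']
            rfl

/-- B1 -/
theorem pairing {ι : Type*} [Fintype ι] [DecidableEq ι] (v : ι → (Fin 5 → ZMod 2))
    (hn : 33 ≤ Fintype.card ι) :
    ∃ (m : ℕ) (π : ι → Option (Fin m)),
      (∀ k : Fin m, ∃ i j : ι, i ≠ j ∧ v i = v j ∧ ∀ l : ι, π l = some k ↔ l = i ∨ l = j) ∧
      (∃ i, π i = none) ∧ (Finset.univ.filter fun i => π i = none).card ≤ 32 ∧
      Fintype.card ι = 2 * m + (Finset.univ.filter fun i => π i = none).card := by
  refine B1_step v (Fintype.card ι) 0 (fun _ => none) (fun k => k.elim0) ?_ (by omega) (by omega)
  simp

end Pool.Agent.H169R3.KR
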