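import Mathlib
import Pool.Agent.H169R3.KR.A1
set_option autoImplicit false
open Finset

namespace Pool.Agent.H169R3.KR

private theorem B2_val_eq_one {p : ℕ} [Fact p.Prime] (hp : 2000 < p) {h x : ZMod p} (hh : h ≠ 0) :
    (h⁻¹ * x).val = 1 ↔ x = h := by
  have : Fact (1 < p) := ⟨by omega⟩
  constructor
  · intro h1
    have h2 : (h⁻¹ * x).val = (1 : ZMod p).val := by rw [h1, ZMod.val_one]
    have h3 := ZMod.val_injective p h2
    have h4 : h * (h⁻¹ * x) = h * 1 := by rw [h3]
    rwa [← mul_assoc, mul_inv_cancel₀ hh, one_mul, mul_one] at h4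
  · rintro rfl
    rw [inv_mul_cancel₀ hh, ZMod.val_one]

private theorem B2_core (p : ℕ) [Fact p.Prime] (hp : 2000 < p) {ι β : Type*}
    [Fintype ι] [DecidableEq ι] [Fintype β] [DecidableEq β]
    (v : ι → (Fin 5 → ZMod 2)) (y : ι → ZMod p) (hy0 : ∑ i, y i = 0)
    (hmin : ∀ I : Finset ι, I.Nonempty → ∑ i ∈ I, v i = 0 → ∑ i ∈ I, y i = 0 → I = Finset.univ)
    (π : ι → β) (hπ : Function.Surjective π)
    (hv : ∀ b, ∑ i ∈ Finset.univ.filter (fun i => π i = b), v i = 0)
    (hβ : p ≤ Fintype.card β + 13) :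
    ∃ h : ZMod p, h ≠ 0 ∧
      ∑ b : β, (h⁻¹ * ∑ i ∈ Finset.univ.filter (fun i => π i = b), y i).val = p ∧
      (∀ b : β, 1 ≤ (h⁻¹ * ∑ i ∈ Finset.univ.filter (fun i => π i = b), y i).val) ∧
      (Finset.univ.filter fun b : β =>
        ∑ i ∈ Finset.univ.filter (fun i => π i = b), y i ≠ h).card ≤ 13 ∧
      Fintype.card β ≤ p := by
  classical
  set Y : β → ZMod p := fun b => ∑ i ∈ Finset.univ.filter (fun i => π i = b), y i with hY
  have hfib : ∀ {M : Type} [AddCommMonoid M] (I : Finset β) (g : ι → M),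
      ∑ i ∈ Finset.univ.filter (fun i => π i ∈ I), g i =
        ∑ b ∈ I, ∑ i ∈ Finset.univ.filter (fun i => π i = b), g i := by
    intro M _ I g
    rw [← Finset.sum_fiberwise_of_maps_to (s := Finset.univ.filter (fun i => π i ∈ I)) (t := I)
      (g := π) (fun i hi => (Finset.mem_filter.1 hi).2)]
    refine Finset.sum_congr rfl fun b hb => ?_
    refine Finset.sum_congr ?_ fun _ _ => rfl
    ext i
    simp only [Finset.mem_filter, Finset.mem_univ, true_and]
    constructor
    · rintro ⟨_, h⟩; exact h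
    · intro h; exact ⟨h ▸ hb, h⟩
  have hY0 : ∑ b, Y b = 0 := by
    rw [← hy0]
    have := hfib (M := ZMod p) Finset.univ y
    simp only [Finset.mem_univ, Finset.filter_true] at this
    rw [this]
  have hYmin : ∀ I : Finset β, I.Nonempty → ∑ b ∈ I, Y b = 0 → I = Finset.univ := by
    intro I hI h0
    have hJ : Finset.univ.filter (fun i => π i ∈ I) = Finset.univ := by
      apply hmin
      · obtain ⟨b, hb⟩ := hI
        obtain ⟨i, rfl⟩ := hπ b
        exact ⟨i, by simp [hb]⟩
      · rw [hfib]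
        exact Finset.sum_eq_zero fun b _ => hv b
      · rw [hfib]
        exact h0
    ext b
    simp only [Finset.mem_univ, iff_true]
    obtain ⟨i, rfl⟩ := hπ b
    have : i ∈ Finset.univ.filter (fun i => π i ∈ I) := by rw [hJ]; exact Finset.mem_univ i
    exact (Finset.mem_filter.1 this).2
  obtain ⟨h, hh, hsum⟩ := zp_structure p 13 (by norm_num; omega) Y hβ hY0 hYmin
  have hYne : ∀ b, Y b ≠ 0 := by
    intro b hb
    have h1 := hYmin {b} ⟨b, Finset.mem_singleton_self b⟩ (by rw [Finset.sum_singleton, hb])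
    have h2 : Fintype.card β = 1 := by
      rw [← Finset.card_univ, ← h1, Finset.card_singleton]
    omega
  have hval : ∀ b, 1 ≤ (h⁻¹ * Y b).val := by
    intro b
    rw [Nat.one_le_iff_ne_zero]
    intro h0
    rw [ZMod.val_eq_zero] at h0
    exact (mul_ne_zero (inv_ne_zero hh) (hYne b)) h0
  have hcount : Fintype.card β + (Finset.univ.filter fun b : β => Y b ≠ h).card ≤ p := by
    have h1 : ∑ b : β, (1 + if Y b ≠ h then 1 else 0) ≤ ∑ b : β, (h⁻¹ * Y b).val := by
      refine Finset.sum_le_sum fun b _ => ?_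
      have h2 := hval b
      split_ifs with h3
      · have h4 : (h⁻¹ * Y b).val ≠ 1 := fun h5 => h3 ((B2_val_eq_one hp hh).1 h5)
        omega
      · omega
    rw [hsum, Finset.sum_add_distrib, Finset.sum_boole] at h1
    simpa using h1
  have h13 : (Finset.univ.filter fun b : β => Y b ≠ h).card ≤ 13 := by omega
  exact ⟨h, hh, hsum, hval, h13, by omega⟩

/-- B2 -/
theorem swap_good (p : ℕ) [Fact p.Prime] (hp : 2000 < p) {ι β : Type*}
    [Fintype ι] [DecidableEq ι] [Fintype β] [DecidableEq β]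
    (v : ι → (Fin 5 → ZMod 2)) (y : ι → ZMod p)
    (hv0 : ∑ i, v i = 0) (hy0 : ∑ i, y i = 0)
    (hmin : ∀ I : Finset ι, I.Nonempty → ∑ i ∈ I, v i = 0 → ∑ i ∈ I, y i = 0 → I = Finset.univ)
    (π : ι → β) (hπ : Function.Surjective π)
    (hv : ∀ b, ∑ i ∈ Finset.univ.filter (fun i => π i = b), v i = 0)
    (hβ : p ≤ Fintype.card β + 13) :
    Fintype.card β ≤ p ∧
    ∃ h : ZMod p, h ≠ 0 ∧
      (Finset.univ.filter fun b : β =>
        ∑ i ∈ Finset.univ.filter (fun i => π i = b), y i ≠ h).card ≤ 13 ∧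
      ∀ i j : ι, v i = v j → π i ≠ π j →
        ∑ k ∈ Finset.univ.filter (fun k => π k = π i), y k = h →
        ∑ k ∈ Finset.univ.filter (fun k => π k = π j), y k = h → y i = y j := by
  classical
  obtain ⟨h, hh, hsum, hval, hbad, hcard⟩ := B2_core p hp v y hy0 hmin π hπ hv hβ
  refine ⟨hcard, h, hh, hbad, ?_⟩
  intro i j hvij hij hYi hYj
  have hne : i ≠ j := fun e => hij (by rw [e])
  -- the swapped family
  set σ : Equiv.Perm ι := Equiv.swap i j with hσ
  have hvσ : ∀ k, v (σ k) = v k := by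
    intro k
    rw [hσ, Equiv.swap_apply_def]
    split_ifs with h1 h2
    · rw [h1, hvij]
    · rw [h2, hvij]
    · rfl
  set y' : ι → ZMod p := fun k => y (σ k) with hy'
  have hy0' : ∑ i, y' i = 0 := by rw [← hy0]; exact Equiv.sum_comp σ y
  have hmin' : ∀ I : Finset ι, I.Nonempty → ∑ i ∈ I, v i = 0 → ∑ i ∈ I, y' i = 0 →
      I = Finset.univ := by
    intro I hI h1 h2
    have h3 : I.map σ.toEmbedding = Finset.univ := by
      apply hmin
      · exact hI.map
      · rw [Finset.sum_map]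
        simp only [Equiv.coe_toEmbedding, hvσ]
        exact h1
      · rw [Finset.sum_map]
        exact h2
    ext k
    simp only [Finset.mem_univ, iff_true]
    have h4 : σ k ∈ I.map σ.toEmbedding := by rw [h3]; exact Finset.mem_univ _
    rw [Finset.mem_map] at h4
    obtain ⟨a, ha, hak⟩ := h4
    have : a = k := σ.injective hak
    rwa [← this]
  obtain ⟨h', hh', hsum', hval', hbad', -⟩ := B2_core p hp v y' hy0' hmin' π hπ hv hβ
  set Y : β → ZMod p := fun b => ∑ i ∈ Finset.univ.filter (fun i => π i = b), y i with hY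
  set Y' : β → ZMod p := fun b => ∑ i ∈ Finset.univ.filter (fun i => π i = b), y' i with hY'
  have hsame : ∀ b, b ≠ π i → b ≠ π j → Y' b = Y b := by
    intro b h1 h2
    refine Finset.sum_congr rfl fun k hk => ?_
    have hk' : π k = b := (Finset.mem_filter.1 hk).2
    show y (σ k) = y k
    rw [hσ, Equiv.swap_apply_of_ne_of_ne]
    · rintro rfl; exact h1 hk'.symm
    · rintro rfl; exact h2 hk'.symm
  -- `h = h'`
  have heq : h' = h := by
    have h1 : ∃ b, b ∉ (Finset.univ.filter fun b : β => Y b ≠ h) ∪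
        (Finset.univ.filter fun b : β => Y' b ≠ h') ∪ {π i, π j} := by
      by_contra hcon
      push Not at hcon
      have h2 : (Finset.univ : Finset β) ⊆ (Finset.univ.filter fun b : β => Y b ≠ h) ∪
        (Finset.univ.filter fun b : β => Y' b ≠ h') ∪ {π i, π j} := fun b _ => hcon b
      have h3 := Finset.card_le_card h2
      have h4 := Finset.card_union_le ((Finset.univ.filter fun b : β => Y b ≠ h) ∪
        (Finset.univ.filter fun b : β => Y' b ≠ h')) {π i, π j}
      have h5 := Finset.card_union_le (Finset.univ.filter fun b : β => Y b ≠ h)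
        (Finset.univ.filter fun b : β => Y' b ≠ h')
      have h6 : ({π i, π j} : Finset β).card ≤ 2 := Finset.card_le_two
      have h7 : (Finset.univ.filter fun b : β => Y b ≠ h).card ≤ 13 := hbad
      have h8 : (Finset.univ.filter fun b : β => Y' b ≠ h').card ≤ 13 := hbad'
      rw [Finset.card_univ] at h3
      omega
    obtain ⟨b, hb⟩ := h1
    simp only [Finset.mem_union, Finset.mem_filter, Finset.mem_univ, true_and,
      Finset.mem_insert, Finset.mem_singleton, not_or, not_not] at hb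
    obtain ⟨⟨h1, h2⟩, h3, h4⟩ := hb
    rw [← h1, ← h2]
    exact hsame b h3 h4
  subst heq
  have hs1 : ∑ b : β, ((h'⁻¹ * Y b).val : ℤ) = p := by exact_mod_cast hsum
  have hs2 : ∑ b : β, ((h'⁻¹ * Y' b).val : ℤ) = p := by exact_mod_cast hsum'
  have hdiff : ∑ b : β, (((h'⁻¹ * Y' b).val : ℤ) - ((h'⁻¹ * Y b).val : ℤ)) = 0 := by
    rw [Finset.sum_sub_distrib, hs1, hs2, sub_self]
  have hsupp : ∑ b : β, (((h'⁻¹ * Y' b).val : ℤ) - ((h'⁻¹ * Y b).val : ℤ)) =
      ∑ b ∈ ({π i, π j} : Finset β), (((h'⁻¹ * Y' b).val : ℤ) - ((h'⁻¹ * Y b).val : ℤ)) := by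
    symm
    refine Finset.sum_subset (Finset.subset_univ _) fun b _ hb => ?_
    simp only [Finset.mem_insert, Finset.mem_singleton, not_or] at hb
    rw [hsame b hb.1 hb.2, sub_self]
  rw [hsupp, Finset.sum_pair hij] at hdiff
  have hvi : (h'⁻¹ * Y (π i)).val = 1 := (B2_val_eq_one hp hh).2 hYi
  have hvj : (h'⁻¹ * Y (π j)).val = 1 := (B2_val_eq_one hp hh).2 hYj
  have hvi' : 1 ≤ (h'⁻¹ * Y' (π i)).val := hval' (π i)
  have hvj' : 1 ≤ (h'⁻¹ * Y' (π j)).val := hval' (π j)
  rw [hvi, hvj] at hdiff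
  have h1 : (h'⁻¹ * Y' (π i)).val = 1 := by omega
  have hYi' : Y' (π i) = h' := (B2_val_eq_one hp hh).1 h1
  -- the difference of the block sums
  have h2 : Y' (π i) - Y (π i) = y j - y i := by
    show ∑ k ∈ Finset.univ.filter (fun k => π k = π i), y' k -
      ∑ k ∈ Finset.univ.filter (fun k => π k = π i), y k = y j - y i
    rw [← Finset.sum_sub_distrib, Finset.sum_eq_single i]
    · show y (σ i) - y i = y j - y i
      rw [hσ, Equiv.swap_apply_left]
    · intro k hk hki
      have hk' : π k = π i := (Finset.mem_filter.1 hk).2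
      show y (σ k) - y k = 0
      rw [hσ, Equiv.swap_apply_of_ne_of_ne hki, sub_self]
      rintro rfl
      exact hij hk'.symm
    · intro hi
      exact absurd (by simp) hi
  have hYi0 : Y (π i) = h' := hYi
  rw [hYi', hYi0, sub_self] at h2
  exact (sub_eq_zero.1 h2.symm).symm

end Pool.Agent.H169R3.KR
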