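import Mathlib
import Pool.Agent.H169R3.KR.B1
import Pool.Agent.H169R3.KR.B2
set_option autoImplicit false
open Finset

namespace Pool.Agent.H169R3.KR

/-- B3 -/
theorem gamma_structure (p : ℕ) [Fact p.Prime] (hp : 2000 < p) {ι : Type*}
    [Fintype ι] [DecidableEq ι] (v : ι → (Fin 5 → ZMod 2)) (y : ι → ZMod p)
    (hn : 2 * p + 4 ≤ Fintype.card ι)
    (hv0 : ∑ i, v i = 0) (hy0 : ∑ i, y i = 0)
    (hmin : ∀ I : Finset ι, I.Nonempty → ∑ i ∈ I, v i = 0 → ∑ i ∈ I, y i = 0 → I = Finset.univ) :
    ∃ γ : ZMod p, γ ≠ 0 ∧ (Finset.univ.filter fun i => y i ≠ γ).card ≤ 122 := by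
  classical
  obtain ⟨m, π, hpair, ⟨i0, hi0⟩, hnone, hcard⟩ := pairing v (by omega)
  choose I J hIJ hvIJ hπIJ using hpair
  have hπI : ∀ k, π (I k) = some k := fun k => (hπIJ k (I k)).2 (Or.inl rfl)
  have hπJ : ∀ k, π (J k) = some k := fun k => (hπIJ k (J k)).2 (Or.inr rfl)
  have hblk : ∀ k, (Finset.univ.filter fun l => π l = some k) = {I k, J k} := by
    intro k
    ext l
    simp only [Finset.mem_filter, Finset.mem_univ, true_and, Finset.mem_insert,
      Finset.mem_singleton]
    exact hπIJ k l
  have hsurj : Function.Surjective π := by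
    intro b
    cases b with
    | none => exact ⟨i0, hi0⟩
    | some k => exact ⟨I k, hπI k⟩
  have hvk : ∀ k, ∑ i ∈ Finset.univ.filter (fun i => π i = some k), v i = 0 := by
    intro k
    rw [hblk k, Finset.sum_pair (hIJ k), ← hvIJ k]
    funext t
    simp only [Pi.add_apply, Pi.zero_apply]
    exact CharTwo.add_self_eq_zero _
  have hv : ∀ b, ∑ i ∈ Finset.univ.filter (fun i => π i = b), v i = 0 := by
    intro b
    cases b with
    | some k => exact hvk k
    | none =>
      have h1 : ∑ b : Option (Fin m), ∑ i ∈ Finset.univ.filter (fun i => π i = b), v i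
          = ∑ i, v i := Finset.sum_fiberwise Finset.univ π v
      rw [hv0, Fintype.sum_option] at h1
      rw [Finset.sum_eq_zero (fun k _ => hvk k), add_zero] at h1
      exact h1
  obtain ⟨-, h, hh, hbad, H⟩ := swap_good p hp v y hv0 hy0 hmin π hsurj hv (by
    rw [Fintype.card_option, Fintype.card_fin]; omega)
  have h2 : (2 : ZMod p) ≠ 0 := by
    intro h20
    have h3 : ((2 : ℕ) : ZMod p) = 0 := by exact_mod_cast h20
    rw [ZMod.natCast_eq_zero_iff] at h3
    have := Nat.le_of_dvd (by norm_num) h3
    omega
  have hgood : ∀ k, (∑ i ∈ Finset.univ.filter (fun i => π i = some k), y i) =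
      y (I k) + y (J k) := by
    intro k
    rw [hblk k, Finset.sum_pair (hIJ k)]
  have hcard2 : ∀ k, (Finset.univ.filter fun l => π l = some k).card ≤ 2 := by
    intro k
    rw [hblk k]
    exact Finset.card_le_two
  -- the lonely set
  set Lk : Finset (Fin m) := Finset.univ.filter (fun k => y (I k) + y (J k) = h ∧
    ∀ k', y (I k') + y (J k') = h → k' ≠ k → v (I k') ≠ v (I k)) with hLk
  have hLcard : Lk.card ≤ 32 := by
    have h1 : Lk.card ≤ (Finset.univ : Finset (Fin 5 → ZMod 2)).card := by
      apply Finset.card_le_card_of_injOn (fun k => v (I k)) (fun _ _ => Finset.mem_coe.2 (Finset.mem_univ _))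
      intro a ha b hb hab
      have ha' := (Finset.mem_filter.1 (Finset.mem_coe.1 ha)).2
      have hb' := (Finset.mem_filter.1 (Finset.mem_coe.1 hb)).2
      by_contra hne
      exact hb'.2 a ha'.1 hne hab
    have h3 : (Finset.univ : Finset (Fin 5 → ZMod 2)).card = 32 := by
      rw [Finset.card_univ]; simp
    omega
  set Bk : Finset (Option (Fin m)) := Finset.univ.filter fun b =>
        ∑ i ∈ Finset.univ.filter (fun i => π i = b), y i ≠ h with hBk
  set Bs : Finset (Fin m) := Finset.univ.filter (fun k => y (I k) + y (J k) ≠ h) with hBs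
  have hBcard : Bs.card ≤ 13 := by
    refine le_trans ?_ hbad
    apply Finset.card_le_card_of_injOn (fun k => some k)
    · intro k hk
      have hk' := (Finset.mem_filter.1 (Finset.mem_coe.1 hk)).2
      apply Finset.mem_coe.2
      apply Finset.mem_filter.2
      refine ⟨Finset.mem_univ _, ?_⟩
      rw [hgood k]
      exact hk'
    · intro a _ b _ hab
      exact Option.some.inj hab
  refine ⟨h * 2⁻¹, mul_ne_zero hh (inv_ne_zero h2), ?_⟩
  have hsub : (Finset.univ.filter fun i => y i ≠ h * 2⁻¹) ⊆
      ((Finset.univ.filter fun i => π i = none) ∪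
        Bs.biUnion (fun k => Finset.univ.filter fun l => π l = some k)) ∪
        Lk.biUnion (fun k => Finset.univ.filter fun l => π l = some k) := by
    intro i hi
    have hi' := (Finset.mem_filter.1 hi).2
    rcases hπi : π i with _ | k
    · apply Finset.mem_union_left
      apply Finset.mem_union_left
      exact Finset.mem_filter.2 ⟨Finset.mem_univ _, hπi⟩
    · by_cases hg : y (I k) + y (J k) = h
      · by_cases hl : k ∈ Lk
        · apply Finset.mem_union_right
          exact Finset.mem_biUnion.2 ⟨k, hl, Finset.mem_filter.2 ⟨Finset.mem_univ _, hπi⟩⟩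
        · exfalso
          apply hi'
          have hex : ∃ k', y (I k') + y (J k') = h ∧ k' ≠ k ∧ v (I k') = v (I k) := by
            by_contra hno
            apply hl
            apply Finset.mem_filter.2
            refine ⟨Finset.mem_univ _, hg, ?_⟩
            intro k' h1 h3 h4
            exact hno ⟨k', h1, h3, h4⟩
          obtain ⟨k', hg', hkk, hvv⟩ := hex
          have e1 : y (I k) = y (I k') := by
            apply H (I k) (I k') hvv.symm
            · rw [hπI, hπI]
              intro h5
              exact hkk (Option.some.inj h5).symm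
            · rw [hπI, hgood]; exact hg
            · rw [hπI, hgood]; exact hg'
          have e2 : y (J k) = y (I k') := by
            apply H (J k) (I k') ((hvIJ k).symm.trans hvv.symm)
            · rw [hπI, hπJ]
              intro h5
              exact hkk (Option.some.inj h5).symm
            · rw [hπJ, hgood]; exact hg
            · rw [hπI, hgood]; exact hg'
          have e3 : y (I k) = h * 2⁻¹ := by
            rw [e2, ← e1] at hg
            rw [← hg, ← two_mul, mul_comm (2 : ZMod p), mul_assoc, mul_inv_cancel₀ h2, mul_one]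
          rcases (hπIJ k i).1 hπi with h6 | h6
          · rw [h6]; exact e3
          · rw [h6, e2, ← e1]; exact e3
      · apply Finset.mem_union_left
        apply Finset.mem_union_right
        exact Finset.mem_biUnion.2 ⟨k, Finset.mem_filter.2 ⟨Finset.mem_univ _, hg⟩,
          Finset.mem_filter.2 ⟨Finset.mem_univ _, hπi⟩⟩
  have hb1 : (Bs.biUnion (fun k => Finset.univ.filter fun l => π l = some k)).card ≤ Bs.card * 2 :=
    Finset.card_biUnion_le_card_mul _ _ _ (fun k _ => hcard2 k)
  have hb2 : (Lk.biUnion (fun k => Finset.univ.filter fun l => π l = some k)).card ≤ Lk.card * 2 :=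
    Finset.card_biUnion_le_card_mul _ _ _ (fun k _ => hcard2 k)
  refine le_trans (Finset.card_le_card hsub) ?_
  refine le_trans (Finset.card_union_le _ _) ?_
  have hb3 := Finset.card_union_le (Finset.univ.filter fun i => π i = none)
    (Bs.biUnion (fun k => Finset.univ.filter fun l => π l = some k))
  omega

end Pool.Agent.H169R3.KR
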