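import Mathlib
set_option autoImplicit false

namespace Pool.Agent.H169R3.KR

private theorem c1_zmod2 (a : ZMod 2) (h : a ≠ 0) : a = 1 := by
  revert h; revert a; decide

private theorem c1_char (a b : ZMod 2) (h : a + b = 0) : a = b := by
  revert h; revert b; revert a; decide

/-- C1: coordinates on `F_2^5 / z`. -/
theorem coords (z : Fin 5 → ZMod 2) (hz : z ≠ 0) :
    ∃ (X : (Fin 5 → ZMod 2) →+ (Fin 4 → ZMod 2)) (L : (Fin 5 → ZMod 2) →+ ZMod 2),
      L z = 1 ∧ X z = 0 ∧ ∀ u, X u = 0 → u = L u • z := by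
  obtain ⟨k, hk⟩ := Function.ne_iff.1 hz
  have hk1 : z k = 1 := c1_zmod2 _ hk
  refine ⟨AddMonoidHom.mk' (fun u l => u (k.succAbove l) + u k * z (k.succAbove l)) ?_,
    AddMonoidHom.mk' (fun u => u k) ?_, ?_, ?_, ?_⟩
  · intro a b
    funext l
    simp only [Pi.add_apply]
    ring
  · intro a b
    rfl
  · exact hk1
  · funext l
    show z (k.succAbove l) + z k * z (k.succAbove l) = 0
    rw [hk1, one_mul]
    exact CharTwo.add_self_eq_zero _
  · intro u hu
    funext i
    show u i = u k • z i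
    rw [smul_eq_mul]
    rcases Fin.eq_self_or_eq_succAbove k i with rfl | ⟨l, rfl⟩
    · rw [hk1, mul_one]
    · have h := congrFun hu l
      exact c1_char _ _ h

end Pool.Agent.H169R3.KR
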