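import Mathlib

set_option autoImplicit false

namespace Pool.Agent.H169R3.KR

open Finset

/-- C2: even zero-sum subsets. -/
theorem even_subset {ι : Type*} [DecidableEq ι] (v : ι → (Fin 5 → ZMod 2)) (m : ℕ)
    (S : Finset ι) (hS : 2 * m + 31 ≤ S.card) :
    ∃ J ⊆ S, J.card = 2 * m ∧ ∑ i ∈ J, v i = 0 := by
  induction m generalizing S with
  | zero => exact ⟨∅, Finset.empty_subset _, by simp, by simp⟩
  | succ m ih =>
    have hcard : (Finset.univ : Finset (Fin 5 → ZMod 2)).card < S.card := by
      rw [Finset.card_univ, Fintype.card_fun, ZMod.card, Fintype.card_fin]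
      omega
    obtain ⟨i, hi, j, hj, hij, hv⟩ := Finset.exists_ne_map_eq_of_card_lt_of_maps_to hcard
      (f := v) (fun a _ => Finset.mem_univ _)
    have hji : j ∈ S.erase i := Finset.mem_erase.2 ⟨hij.symm, hj⟩
    have h1 : ((S.erase i).erase j).card = S.card - 2 := by
      rw [Finset.card_erase_of_mem hji, Finset.card_erase_of_mem hi]
      omega
    obtain ⟨J, hJ, hJc, hJs⟩ := ih ((S.erase i).erase j) (by omega)
    have hjJ : j ∉ J := fun h => (Finset.mem_erase.1 (hJ h)).1 rfl
    have hiJ : i ∉ J := fun h => (Finset.mem_erase.1 (Finset.mem_of_mem_erase (hJ h))).1 rfl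
    have hiJ' : i ∉ insert j J := by
      rw [Finset.mem_insert, not_or]
      exact ⟨hij, hiJ⟩
    refine ⟨insert i (insert j J), ?_, ?_, ?_⟩
    · intro a ha
      rcases Finset.mem_insert.1 ha with rfl | ha
      · exact hi
      · rcases Finset.mem_insert.1 ha with rfl | ha
        · exact hj
        · exact Finset.mem_of_mem_erase (Finset.mem_of_mem_erase (hJ ha))
    · rw [Finset.card_insert_of_notMem hiJ', Finset.card_insert_of_notMem hjJ, hJc]
      ring
    · rw [Finset.sum_insert hiJ', Finset.sum_insert hjJ, hJs, add_zero, hv]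
      funext k
      exact CharTwo.add_self_eq_zero _

end Pool.Agent.H169R3.KR
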