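import Mathlib
set_option autoImplicit false
open Finset

namespace Pool.Agent.H169R3.KR

/-- C3: subsets of every size. -/
theorem all_sizes {ι : Type*} [DecidableEq ι] (v : ι → (Fin 5 → ZMod 2)) (z : Fin 5 → ZMod 2)
    (S : Finset ι) (hz : ∃ i ∈ S, v i = z)
    (hev : ∀ u, u ≠ z → Even (S.filter fun i => v i = u).card) (m : ℕ) (hm : m ≤ S.card) :
    ∃ J ⊆ S, J.card = m ∧ ∑ i ∈ J, v i = (m : ZMod 2) • z := by
  obtain ⟨n, hn⟩ : ∃ n, S.card = n := ⟨_, rfl⟩
  induction n using Nat.strong_induction_on generalizing S m with
  | _ n ih =>
    by_cases hall : ∀ i ∈ S, v i = z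
    · obtain ⟨J, hJS, hJ⟩ := Finset.exists_subset_card_eq hm
      refine ⟨J, hJS, hJ, ?_⟩
      rw [Finset.sum_congr rfl (fun i hi => hall i (hJS hi)), Finset.sum_const, hJ]
      exact (Nat.cast_smul_eq_nsmul (ZMod 2) m z).symm
    · push Not at hall
      obtain ⟨i, hi, hiz⟩ := hall
      have h1 : (S.filter fun k => v k = v i).card ≠ 1 := by
        intro h
        have h2 := hev (v i) hiz
        rw [h] at h2
        exact absurd h2 (by decide)
      have hi' : i ∈ S.filter fun k => v k = v i := by simp [hi]
      have h2 : 1 < (S.filter fun k => v k = v i).card := by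
        have : 0 < (S.filter fun k => v k = v i).card := Finset.card_pos.2 ⟨i, hi'⟩
        omega
      obtain ⟨j, hj, hji⟩ := Finset.exists_mem_ne h2 i
      rw [Finset.mem_filter] at hj
      obtain ⟨i₀, hi₀, hi₀z⟩ := hz
      set S' := (S.erase i).erase j with hS'
      have hjS : j ∈ S.erase i := Finset.mem_erase.2 ⟨hji, hj.1⟩
      have hcard1 : (S.erase i).card = n - 1 := by rw [Finset.card_erase_of_mem hi, hn]
      have hcard : S'.card = n - 2 := by
        rw [hS', Finset.card_erase_of_mem hjS, hcard1]; omega
      have hi0i : i₀ ≠ i := by rintro rfl; exact hiz hi₀z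
      have hi0j : i₀ ≠ j := by
        rintro rfl
        exact hiz (hj.2.symm.trans hi₀z)
      have hi₀' : i₀ ∈ S' := Finset.mem_erase.2 ⟨hi0j, Finset.mem_erase.2 ⟨hi0i, hi₀⟩⟩
      have hn3 : 3 ≤ n := by
        have : 0 < S'.card := Finset.card_pos.2 ⟨i₀, hi₀'⟩
        omega
      have hS'S : S' ⊆ S := (Finset.erase_subset _ _).trans (Finset.erase_subset _ _)
      have hev' : ∀ u, u ≠ z → Even (S'.filter fun k => v k = u).card := by
        intro u hu
        by_cases huv : u = v i
        · have e1 : S'.filter (fun k => v k = u) =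
              ((S.filter fun k => v k = u).erase i).erase j := by
            rw [hS', Finset.filter_erase, Finset.filter_erase]
          have hmi : i ∈ S.filter fun k => v k = u := by
            rw [Finset.mem_filter]; exact ⟨hi, huv.symm⟩
          have hmj : j ∈ (S.filter fun k => v k = u).erase i := by
            rw [Finset.mem_erase, Finset.mem_filter]
            exact ⟨hji, hj.1, hj.2.trans huv.symm⟩
          have hge : 1 ≤ ((S.filter fun k => v k = u).erase i).card :=
            Finset.card_pos.2 ⟨j, hmj⟩
          have hge' : 1 ≤ (S.filter fun k => v k = u).card := Finset.card_pos.2 ⟨i, hmi⟩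
          rw [e1, Finset.card_erase_of_mem hmj, Finset.card_erase_of_mem hmi]
          rw [Finset.card_erase_of_mem hmi] at hge
          obtain ⟨r, hr⟩ := hev u hu
          rw [hr] at hge ⊢
          exact ⟨r - 1, by omega⟩
        · have e1 : S'.filter (fun k => v k = u) = S.filter fun k => v k = u := by
            ext k
            simp only [hS', Finset.mem_filter, Finset.mem_erase]
            constructor
            · rintro ⟨⟨_, _, h⟩, h'⟩; exact ⟨h, h'⟩
            · rintro ⟨h, h'⟩
              refine ⟨⟨?_, ?_, h⟩, h'⟩
              · rintro rfl; exact huv (h'.symm.trans hj.2)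
              · rintro rfl; exact huv h'.symm
          rw [e1]
          exact hev u hu
      by_cases hm2 : m < 2
      · obtain ⟨J, hJS, hJ, hsum⟩ := ih (n - 2) (by omega) S' ⟨i₀, hi₀', hi₀z⟩ hev' m
          (by omega) hcard
        exact ⟨J, hJS.trans hS'S, hJ, hsum⟩
      · obtain ⟨J, hJS, hJ, hsum⟩ := ih (n - 2) (by omega) S' ⟨i₀, hi₀', hi₀z⟩ hev' (m - 2)
          (by omega) hcard
        have hjJ : j ∉ J := fun h => by
          have := hJS h
          rw [hS'] at this
          exact (Finset.mem_erase.1 this).1 rfl
        have hiJ : i ∉ insert j J := fun h => by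
          rw [Finset.mem_insert] at h
          rcases h with h | h
          · exact hji h.symm
          · have := hJS h
            rw [hS'] at this
            exact (Finset.mem_erase.1 (Finset.mem_erase.1 this).2).1 rfl
        refine ⟨insert i (insert j J), ?_, ?_, ?_⟩
        · intro k hk
          rw [Finset.mem_insert, Finset.mem_insert] at hk
          rcases hk with rfl | rfl | hk
          · exact hi
          · exact hj.1
          · exact hS'S (hJS hk)
        · rw [Finset.card_insert_of_notMem hiJ, Finset.card_insert_of_notMem hjJ, hJ]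
          omega
        · rw [Finset.sum_insert hiJ, Finset.sum_insert hjJ, hsum, hj.2, ← add_assoc]
          have h2 : v i + v i = 0 := by
            funext k
            exact CharTwo.add_self_eq_zero _
          rw [h2, zero_add]
          obtain ⟨r, rfl⟩ : ∃ r, m = r + 2 := ⟨m - 2, by omega⟩
          have h3 : ((r + 2 : ℕ) : ZMod 2) = ((r + 2 - 2 : ℕ) : ZMod 2) := by
            rw [Nat.add_sub_cancel, Nat.cast_add]
            have : ((2 : ℕ) : ZMod 2) = 0 := rfl
            rw [this, add_zero]
          rw [h3]

end Pool.Agent.H169R3.KR
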