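import Mathlib
set_option autoImplicit false
open Finset

namespace Pool.Agent.H169R3.KR

/-- C4: choice of the exceptional set. -/
theorem exc_set {ι : Type*} [Fintype ι] [DecidableEq ι] (v : ι → (Fin 5 → ZMod 2))
    (z : Fin 5 → ZMod 2) (N : Finset ι) :
    ∃ E : Finset ι, N ⊆ E ∧ E.card ≤ N.card + 32 ∧ (∀ i ∈ E, i ∉ N → v i ≠ z) ∧
      ∀ u, u ≠ z → Even ((Finset.univ \ E).filter fun i => v i = u).card := by
  classical
  -- the elements outside `N` with value `u`
  obtain ⟨A, hA⟩ : ∃ A : (Fin 5 → ZMod 2) → Finset ι,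
      A = fun u => (univ \ N).filter fun i => v i = u := ⟨_, rfl⟩
  have hmem : ∀ u i, i ∈ A u ↔ i ∉ N ∧ v i = u := by
    intro u i
    rw [hA]
    simp
  obtain ⟨Q, hQ⟩ : ∃ Q : Finset (Fin 5 → ZMod 2),
      Q = univ.filter fun u => u ≠ z ∧ ¬ Even (A u).card := ⟨_, rfl⟩
  have hQm : ∀ u, u ∈ Q ↔ u ≠ z ∧ ¬ Even (A u).card := by
    intro u
    rw [hQ]
    simp
  have hex : ∀ u ∈ Q, ∃ i, i ∈ A u := by
    intro u hu
    have h1 := ((hQm u).1 hu).2
    by_contra hcon
    push Not at hcon
    have h2 : A u = ∅ := Finset.eq_empty_of_forall_notMem hcon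
    rw [h2] at h1
    exact h1 (by simp)
  rcases isEmpty_or_nonempty ι with hι | hι
  · refine ⟨N, subset_rfl, by omega, fun i => (hι.false i).elim, fun u _ => ?_⟩
    rw [Finset.eq_empty_of_isEmpty ((univ \ N).filter fun i => v i = u)]
    simp
  choose! c hc using hex
  have hQcard : Q.card ≤ 32 := by
    refine (Finset.card_le_univ Q).trans ?_
    rw [Fintype.card_fun, ZMod.card, Fintype.card_fin]
    norm_num
  refine ⟨N ∪ Q.image c, subset_union_left, ?_, ?_, ?_⟩
  · refine (card_union_le _ _).trans ?_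
    have := (card_image_le (s := Q) (f := c)).trans hQcard
    omega
  · intro i hi hiN
    rcases mem_union.1 hi with h | h
    · exact absurd h hiN
    · obtain ⟨u, hu, rfl⟩ := mem_image.1 h
      rw [((hmem u _).1 (hc u hu)).2]
      exact ((hQm u).1 hu).1
  · intro u hu
    by_cases huQ : u ∈ Q
    · have h1 : ((univ \ (N ∪ Q.image c)).filter fun i => v i = u) = (A u).erase (c u) := by
        ext i
        simp only [mem_filter, mem_sdiff, mem_univ, true_and, mem_union, mem_image, mem_erase,
          hmem]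
        constructor
        · rintro ⟨h1, h2⟩
          push Not at h1
          exact ⟨fun h => h1.2 u huQ h.symm, h1.1, h2⟩
        · rintro ⟨h1, h2, h3⟩
          refine ⟨?_, h3⟩
          rintro (h | ⟨w, hw, hwi⟩)
          · exact h2 h
          · have h4 := ((hmem w _).1 (hc w hw)).2
            rw [hwi, h3] at h4
            subst h4
            exact h1 hwi.symm
      rw [h1, card_erase_of_mem (hc u huQ)]
      have h2 := ((hQm u).1 huQ).2
      rw [Nat.not_even_iff_odd] at h2
      obtain ⟨k, hk⟩ := h2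
      exact ⟨k, by omega⟩
    · have h1 : ((univ \ (N ∪ Q.image c)).filter fun i => v i = u) = A u := by
        ext i
        simp only [mem_filter, mem_sdiff, mem_univ, true_and, mem_union, mem_image, hmem]
        constructor
        · rintro ⟨h1, h2⟩
          push Not at h1
          exact ⟨h1.1, h2⟩
        · rintro ⟨h2, h3⟩
          refine ⟨?_, h3⟩
          rintro (h | ⟨w, hw, hwi⟩)
          · exact h2 h
          · have h4 := ((hmem w _).1 (hc w hw)).2
            rw [hwi, h3] at h4
            exact huQ (h4 ▸ hw)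
      rw [h1]
      by_contra hcon
      exact huQ ((hQm u).2 ⟨hu, hcon⟩)

end Pool.Agent.H169R3.KR
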