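import Mathlib
import Pool.Agent.H169R3.KR.C1
import Pool.Agent.H169R3.KR.C2
import Pool.Agent.H169R3.KR.C3
import Pool.Agent.H169R3.KR.C4
set_option autoImplicit false
open Finset

namespace Pool.Agent.H169R3.KR

theorem C5_smul2 (z : Fin 5 → ZMod 2) (X : (Fin 5 → ZMod 2) →+ (Fin 4 → ZMod 2))
    (L : (Fin 5 → ZMod 2) →+ ZMod 2) (hL : L z = 1) (hX : X z = 0) (c : ZMod 2) :
    X (c • z) = 0 ∧ L (c • z) = c := by
  have : c = 0 ∨ c = 1 := by revert c; decide
  rcases this with h | h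
  · subst h; simp
  · subst h; simp [hL, hX]

theorem C5_vadd (u : Fin 5 → ZMod 2) : u + u = 0 := by
  funext i; simp only [Pi.add_apply, Pi.zero_apply]; generalize u i = b; revert b; decide

/-- C5 -/
theorem reduce (p : ℕ) [Fact p.Prime] (hp : 2000 < p) {ι : Type*}
    [Fintype ι] [DecidableEq ι] (v : ι → (Fin 5 → ZMod 2)) (y : ι → ZMod p)
    (hn : 2 * p + 4 ≤ Fintype.card ι)
    (hv0 : ∑ i, v i = 0) (hy0 : ∑ i, y i = 0)
    (hmin : ∀ I : Finset ι, I.Nonempty → ∑ i ∈ I, v i = 0 → ∑ i ∈ I, y i = 0 → I = Finset.univ)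
    (γ : ZMod p) (hγ : γ ≠ 0) (hN : (Finset.univ.filter fun i => y i ≠ γ).card ≤ 122) :
    ∃ (E : Finset ι) (x : ι → (Fin 4 → ZMod 2)) (lam : ι → ZMod 2) (a : Finset ι → ℕ),
      E.card ≤ 154 ∧ (∀ i, i ∉ E → y i = γ) ∧
      ∑ i ∈ E, x i = 0 ∧
      (∀ I : Finset ι, I ⊆ E → ∑ i ∈ I, x i = 0 →
        (a I : ZMod 2) = ∑ i ∈ I, lam i ∧ (a I : ZMod p) = ∑ i ∈ I, γ⁻¹ * y i ∧
        (I.Nonempty → 1 ≤ a I) ∧ a I ≤ 154) ∧
      E.card + 2 * p = Fintype.card ι + a E ∧
      ∀ e ∈ E, x e = 0 → a {e} ≠ 1 := by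
  classical
  have hpp : p.Prime := Fact.out
  have hodd : p % 2 = 1 := by
    rcases hpp.eq_two_or_odd with h | h
    · omega
    · exact h
  have hp2 : ((p : ℕ) : ZMod 2) = 1 := by
    rw [← Nat.div_add_mod p 2, hodd]
    push_cast
    have : (2 : ZMod 2) = 0 := by decide
    rw [this]; ring
  have h22 : (2 : ZMod 2) = 0 := by decide
  have hpp0 : ((p : ℕ) : ZMod p) = 0 := ZMod.natCast_self p
  set N : Finset ι := Finset.univ.filter fun i => y i ≠ γ with hNdef
  have hNy : ∀ i, i ∉ N → y i = γ := by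
    intro i hi
    by_contra h
    exact hi (by rw [hNdef]; simp [h])
  have hcardc : (Finset.univ \ N).card + N.card = Fintype.card ι := by
    rw [← Finset.card_univ, Finset.card_sdiff_add_card_eq_card (Finset.subset_univ N)]
  -- (0)
  have h0 : ∀ i, y i = γ → v i ≠ 0 := by
    intro i hi hv
    have hiN : i ∈ Finset.univ \ N := by
      rw [hNdef]; simp [hi]
    have hc : 2 * ((p - 1) / 2) + 31 ≤ ((Finset.univ \ N).erase i).card := by
      rw [Finset.card_erase_of_mem hiN]; omega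
    obtain ⟨J, hJ, hJc, hJv⟩ := even_subset v ((p - 1) / 2) _ hc
    have hiJ : i ∉ J := fun h => (Finset.mem_erase.mp (hJ h)).1 rfl
    have hJy : ∀ j ∈ J, y j = γ := by
      intro j hj
      apply hNy
      have := Finset.mem_of_mem_erase (hJ hj)
      exact (Finset.mem_sdiff.mp this).2
    have hfull := hmin (insert i J) (Finset.insert_nonempty i J)
      (by rw [Finset.sum_insert hiJ, hv, hJv, add_zero])
      (by
        rw [Finset.sum_insert hiJ, hi, Finset.sum_congr rfl hJy, Finset.sum_const, hJc,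
          nsmul_eq_mul]
        have h1 : γ + ((2 * ((p - 1) / 2) : ℕ) : ZMod p) * γ
            = ((2 * ((p - 1) / 2) + 1 : ℕ) : ZMod p) * γ := by push_cast; ring
        rw [h1]
        have h2 : 2 * ((p - 1) / 2) + 1 = p := by omega
        rw [h2, hpp0, zero_mul])
    have h3 := congrArg Finset.card hfull
    rw [Finset.card_insert_of_notMem hiJ, hJc, Finset.card_univ] at h3
    omega
  -- (1)
  obtain ⟨i1, hi1⟩ : ∃ i1, i1 ∈ Finset.univ \ N := by
    apply Finset.card_pos.mp
    omega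
  have hi1N : i1 ∉ N := (Finset.mem_sdiff.mp hi1).2
  have hz : v i1 ≠ 0 := h0 i1 (hNy i1 hi1N)
  obtain ⟨z, hzdef⟩ : ∃ z, z = v i1 := ⟨_, rfl⟩
  rw [← hzdef] at hz
  obtain ⟨E, hNE, hEc, hEz, hEev⟩ := exc_set v z N
  obtain ⟨X, L, hLz, hXz, hXL⟩ := coords z hz
  obtain ⟨S, hS⟩ : ∃ S, S = Finset.univ \ E := ⟨_, rfl⟩
  rw [← hS] at hEev
  have hi1E : i1 ∉ E := fun h => hEz i1 h hi1N hzdef.symm
  have hi1S : i1 ∈ S := by rw [hS]; simp [hi1E]
  have hSy : ∀ i ∈ S, y i = γ := by
    intro i hi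
    rw [hS] at hi
    exact hNy i (fun h => (Finset.mem_sdiff.mp hi).2 (hNE h))
  have hScard : S.card + E.card = Fintype.card ι := by
    rw [hS, ← Finset.card_univ, Finset.card_sdiff_add_card_eq_card (Finset.subset_univ E)]
  have hSdisj : ∀ I J : Finset ι, I ⊆ E → J ⊆ S → Disjoint I J := by
    intro I J hI hJ
    rw [Finset.disjoint_left]
    intro a ha hb
    have := hJ hb
    rw [hS] at this
    exact (Finset.mem_sdiff.mp this).2 (hI ha)
  -- (2)
  have hsz : ∀ m ≤ S.card, ∃ J ⊆ S, J.card = m ∧ ∑ i ∈ J, v i = (m : ZMod 2) • z ∧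
      ∑ i ∈ J, y i = (m : ZMod p) * γ := by
    intro m hm
    obtain ⟨J, hJ, hJc, hJv⟩ := all_sizes v z S ⟨i1, hi1S, hzdef.symm⟩ hEev m hm
    refine ⟨J, hJ, hJc, hJv, ?_⟩
    rw [Finset.sum_congr rfl (fun i hi => hSy i (hJ hi)), Finset.sum_const, hJc, nsmul_eq_mul]
  have h2pz : ((2 * p : ℕ) : ZMod 2) = 0 := by push_cast; rw [h22, zero_mul]
  have h2pp : ((2 * p : ℕ) : ZMod p) = 0 := by push_cast; rw [hpp0, mul_zero]
  have hS2p : S.card < 2 * p := by
    by_contra hcon
    push Not at hcon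
    obtain ⟨J, hJ, hJc, hJv, hJy⟩ := hsz (2 * p) hcon
    have hfull := hmin J (Finset.card_pos.mp (by omega))
      (by rw [hJv, h2pz, zero_smul]) (by rw [hJy, h2pp, zero_mul])
    have := congrArg Finset.card hfull
    rw [hJc, Finset.card_univ] at this
    omega
  have hSpos : 0 < S.card := Finset.card_pos.mpr ⟨i1, hi1S⟩
  have hSs : ∑ i ∈ S, v i = (S.card : ZMod 2) • z ∧ ∑ i ∈ S, y i = (S.card : ZMod p) * γ := by
    obtain ⟨J, hJ, hJc, hJv, hJy⟩ := hsz S.card le_rfl
    have : J = S := Finset.eq_of_subset_of_card_le hJ (by omega)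
    rw [this] at hJv hJy
    exact ⟨hJv, hJy⟩
  -- (3)
  let a : Finset ι → ℕ := fun I =>
    if (((∑ i ∈ I, γ⁻¹ * y i).val : ℕ) : ZMod 2) = L (∑ i ∈ I, v i)
    then (∑ i ∈ I, γ⁻¹ * y i).val else (∑ i ∈ I, γ⁻¹ * y i).val + p
  have ha2p : ∀ I, a I < 2 * p := by
    intro I
    have := ZMod.val_lt (∑ i ∈ I, γ⁻¹ * y i)
    simp only [a]
    split_ifs <;> omega
  have hap : ∀ I, (a I : ZMod p) = ∑ i ∈ I, γ⁻¹ * y i := by
    intro I
    simp only [a]
    split_ifs
    · rw [ZMod.natCast_zmod_val]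
    · push_cast
      rw [ZMod.natCast_zmod_val, hpp0, add_zero]
  have ha2 : ∀ I, (a I : ZMod 2) = L (∑ i ∈ I, v i) := by
    intro I
    simp only [a]
    split_ifs with h
    · exact h
    · push_cast
      rw [hp2]
      revert h
      generalize (((∑ i ∈ I, γ⁻¹ * y i).val : ℕ) : ZMod 2) = r
      generalize L (∑ i ∈ I, v i) = s
      revert r s
      decide
  have huniq : ∀ (I : Finset ι) (n : ℕ), n < 2 * p → (n : ZMod p) = ∑ i ∈ I, γ⁻¹ * y i →
      (n : ZMod 2) = L (∑ i ∈ I, v i) → a I = n := by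
    intro I n hn1 hn2 hn3
    rw [← hap I] at hn2
    rw [← ha2 I] at hn3
    have e1 := (ZMod.natCast_eq_natCast_iff n (a I) p).mp hn2
    have e2 := (ZMod.natCast_eq_natCast_iff n (a I) 2).mp hn3
    have hcop : Nat.Coprime 2 p := by
      rw [Nat.coprime_two_left]
      exact Nat.odd_iff.mpr hodd
    have e3 := (Nat.modEq_and_modEq_iff_modEq_mul hcop).mp ⟨e2, e1⟩
    have := Nat.ModEq.eq_of_lt_of_lt e3 hn1 (ha2p I)
    exact this.symm
  have hxs : ∀ I : Finset ι, ∑ i ∈ I, X (v i) = X (∑ i ∈ I, v i) := fun I => (map_sum X _ _).symm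
  have hls : ∀ I : Finset ι, ∑ i ∈ I, L (v i) = L (∑ i ∈ I, v i) := fun I => (map_sum L _ _).symm
  have hys : ∀ I : Finset ι, ∑ i ∈ I, y i = γ * (a I : ZMod p) := by
    intro I
    rw [hap I, ← Finset.mul_sum, ← mul_assoc, mul_inv_cancel₀ hγ, one_mul]
  -- v(E), y(E)
  have hvE : ∑ i ∈ E, v i = (S.card : ZMod 2) • z := by
    have h1 := Finset.sum_sdiff (f := v) (Finset.subset_univ E)
    rw [← hS, hv0, hSs.1] at h1
    have h2 := C5_vadd ((S.card : ZMod 2) • z)
    calc ∑ i ∈ E, v i = ((S.card : ZMod 2) • z + (S.card : ZMod 2) • z) + ∑ i ∈ E, v i := by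
          rw [h2, zero_add]
      _ = (S.card : ZMod 2) • z + ((S.card : ZMod 2) • z + ∑ i ∈ E, v i) := by rw [add_assoc]
      _ = (S.card : ZMod 2) • z := by rw [h1, add_zero]
  have hyE : ∑ i ∈ E, y i = - ((S.card : ZMod p) * γ) := by
    have h1 := Finset.sum_sdiff (f := y) (Finset.subset_univ E)
    rw [← hS, hy0, hSs.2] at h1
    exact (neg_eq_of_add_eq_zero_right h1).symm
  have hXE := C5_smul2 z X L hLz hXz (S.card : ZMod 2)
  have haE : a E = 2 * p - S.card := by
    apply huniq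
    · omega
    · rw [← Finset.mul_sum, hyE]
      have h1 : ((2 * p - S.card : ℕ) : ZMod p) = - (S.card : ZMod p) := by
        rw [Nat.cast_sub hS2p.le, h2pp, zero_sub]
      rw [h1]
      field_simp
    · rw [hvE, hXE.2, Nat.cast_sub hS2p.le, h2pz, zero_sub]
      generalize (S.card : ZMod 2) = r
      revert r; decide
  have hEcard : E.card ≤ 154 := by omega
  -- (5)
  have hlt : ∀ I : Finset ι, I ⊆ E → I.Nonempty → ∑ i ∈ I, X (v i) = 0 → I ≠ E → a I < a E := by
    intro I hI hIne hIx hIE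
    by_contra hcon
    push Not at hcon
    rw [haE] at hcon
    have haI := ha2p I
    obtain ⟨J, hJ, hJc, hJv, hJy⟩ := hsz (2 * p - a I) (by omega)
    have hd := hSdisj I J hI hJ
    have hsumn : a I + (2 * p - a I) = 2 * p := by omega
    have hvI : ∑ i ∈ I, v i = (a I : ZMod 2) • z := by
      rw [hxs] at hIx
      rw [ha2 I]
      exact hXL _ hIx
    have hfull := hmin (I ∪ J) (hIne.mono Finset.subset_union_left)
      (by
        rw [Finset.sum_union hd, hvI, hJv, ← add_smul]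
        have : ((a I : ℕ) : ZMod 2) + ((2 * p - a I : ℕ) : ZMod 2) = ((2 * p : ℕ) : ZMod 2) := by
          rw [← Nat.cast_add, hsumn]
        rw [this, h2pz, zero_smul])
      (by
        rw [Finset.sum_union hd, hys I, hJy, mul_comm γ, ← add_mul]
        have : ((a I : ℕ) : ZMod p) + ((2 * p - a I : ℕ) : ZMod p) = ((2 * p : ℕ) : ZMod p) := by
          rw [← Nat.cast_add, hsumn]
        rw [this, h2pp, zero_mul])
    apply hIE
    apply Finset.Subset.antisymm hI
    intro e he
    have he2 : e ∈ I ∪ J := by rw [hfull]; exact Finset.mem_univ e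
    rcases Finset.mem_union.mp he2 with h | h
    · exact h
    · exfalso
      have := hJ h
      rw [hS] at this
      exact (Finset.mem_sdiff.mp this).2 he
  refine ⟨E, fun i => X (v i), fun i => L (v i), a, hEcard, ?_, ?_, ?_, ?_, ?_⟩
  · intro i hi
    exact hNy i (fun h => hi (hNE h))
  · rw [hxs, hvE]; exact hXE.1
  · intro I hI hIx
    refine ⟨?_, hap I, ?_, ?_⟩
    · rw [ha2 I, hls]
    · intro hIne
      by_contra hcon
      have ha0 : a I = 0 := by omega
      rw [hxs] at hIx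
      have hvI := hXL _ hIx
      rw [← ha2 I, ha0] at hvI
      simp only [Nat.cast_zero, zero_smul] at hvI
      have hyI := hys I
      rw [ha0] at hyI
      simp only [Nat.cast_zero, mul_zero] at hyI
      have := hmin I hIne hvI hyI
      exact hi1E (hI (by rw [this]; exact Finset.mem_univ i1))
    · by_cases hIne : I.Nonempty
      · by_cases hIE : I = E
        · rw [hIE, haE]; omega
        · have := hlt I hI hIne hIx hIE
          rw [haE] at this
          omega
      · rw [Finset.not_nonempty_iff_eq_empty] at hIne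
        have : a I = 0 := by
          rw [hIne]
          apply huniq
          · omega
          · simp
          · simp
        omega
  · rw [haE]; omega
  · intro e he hxe ha1
    have h1 := ha2 {e}
    have h2 := hap {e}
    rw [ha1] at h1 h2
    simp only [Finset.sum_singleton, Nat.cast_one] at h1 h2
    have h3 := hXL _ hxe
    rw [← h1, one_smul] at h3
    have h4 : y e = γ := by
      have : γ * 1 = γ * (γ⁻¹ * y e) := by rw [← h2]
      rw [← mul_assoc, mul_inv_cancel₀ hγ, one_mul, mul_one] at this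
      exact this.symm
    have h5 : e ∉ N := by rw [hNdef]; simp [h4]
    exact hEz e he h5 h3

end Pool.Agent.H169R3.KR
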