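import Mathlib
set_option autoImplicit false
open Finset

namespace Pool.Agent.H169R3.KR

theorem D1_one (n : ℕ) (C : Finset (Finset (Fin n))) (a : Finset (Fin n) → ℕ) :
    ∃ N : ℕ, ∀ (p : ℕ) [Fact p.Prime], N ≤ p → ∀ c : Fin n → ZMod p,
      (∀ I ∈ C, ∑ i ∈ I, c i = (a I : ZMod p)) →
      ∃ w : Fin n → ℚ, ∀ I ∈ C, ∑ i ∈ I, w i = (a I : ℚ) := by
  classical
  by_cases h : ∃ w : Fin n → ℚ, ∀ I ∈ C, ∑ i ∈ I, w i = (a I : ℚ)
  · exact ⟨0, fun p _ _ c _ => h⟩
  · let T : (Fin n → ℚ) →ₗ[ℚ] (C → ℚ) :=
      { toFun := fun w I => ∑ i ∈ I.1, w i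
        map_add' := by intro x y; funext I; simp [Finset.sum_add_distrib]
        map_smul' := by intro r x; funext I; simp [Finset.mul_sum] }
    let aQ : C → ℚ := fun I => (a I.1 : ℚ)
    have haQ : aQ ∉ LinearMap.range T := by
      rintro ⟨w, hw⟩
      apply h
      refine ⟨w, fun I hI => ?_⟩
      have := congrFun hw ⟨I, hI⟩
      simpa [T, aQ] using this
    obtain ⟨f, hf1, hf2⟩ := Submodule.exists_dual_map_eq_bot_of_notMem haQ inferInstance
    have hfT : ∀ w, f (T w) = 0 := by
      intro w
      have : f (T w) ∈ (LinearMap.range T).map f := ⟨T w, ⟨w, rfl⟩, rfl⟩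
      rw [hf2] at this
      exact (Submodule.mem_bot ℚ).mp this
    let μ : C → ℚ := fun I => f (Pi.single I 1)
    have hfsum : ∀ x : C → ℚ, f x = ∑ I, x I * μ I := by
      intro x
      have := LinearMap.pi_apply_eq_sum_univ f x
      rw [this]
      apply Finset.sum_congr rfl
      intro I _
      simp only [smul_eq_mul, μ]
      congr 2
      funext J
      simp [Pi.single_apply, eq_comm]
    let M : ℕ := ∏ I : C, (μ I).den
    have hM : (M : ℚ) ≠ 0 := by
      have : M ≠ 0 := Finset.prod_ne_zero_iff.mpr (fun I _ => (μ I).den_ne_zero)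
      exact_mod_cast this
    have hint : ∀ I : C, ∃ z : ℤ, (M : ℚ) * μ I = z := by
      intro I
      obtain ⟨k, hk⟩ := Finset.dvd_prod_of_mem (fun I : C => (μ I).den) (Finset.mem_univ I)
      refine ⟨k * (μ I).num, ?_⟩
      have h1 : (M : ℚ) = (μ I).den * k := by
        have : M = (μ I).den * k := hk
        rw [this]; push_cast; ring
      have h2 : ((μ I).den : ℚ) * μ I = (μ I).num := by
        rw [mul_comm]; exact Rat.mul_den_eq_num (μ I)
      rw [h1]
      push_cast
      rw [← h2]; ring
    choose ν hν using hint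
    let S : ℤ := ∑ I : C, (a I.1 : ℤ) * ν I
    have hS : S ≠ 0 := by
      intro h0
      apply hf1
      have h1 : (M : ℚ) * f aQ = (S : ℚ) := by
        rw [hfsum, Finset.mul_sum]
        simp only [S, Int.cast_sum, Int.cast_mul, Int.cast_natCast]
        apply Finset.sum_congr rfl
        intro I _
        rw [← hν I]
        simp only [aQ]; ring
      rw [h0] at h1
      simp only [Int.cast_zero] at h1
      exact (mul_eq_zero.mp h1).resolve_left hM
    have hcol : ∀ i : Fin n, ∑ I : C, (if i ∈ I.1 then ν I else 0) = 0 := by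
      intro i
      have h1 := hfT (Pi.single i 1)
      rw [hfsum] at h1
      have h2 : (M : ℚ) * ∑ I : C, (T (Pi.single i 1)) I * μ I = 0 := by rw [h1, mul_zero]
      rw [Finset.mul_sum] at h2
      have h3 : ((∑ I : C, (if i ∈ I.1 then ν I else 0) : ℤ) : ℚ) = 0 := by
        rw [← h2]
        push_cast
        apply Finset.sum_congr rfl
        intro I _
        have h4 : (T (Pi.single i 1)) I = if i ∈ I.1 then 1 else 0 := by
          simp only [T, LinearMap.coe_mk, AddHom.coe_mk]
          simp [Pi.single_apply]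
        rw [h4]
        split_ifs
        · rw [one_mul, hν I]
        · simp
      exact_mod_cast h3
    refine ⟨S.natAbs + 1, ?_⟩
    intro p hp hN c hc
    exfalso
    have h1 : ((S : ℤ) : ZMod p) = 0 := by
      simp only [S, Int.cast_sum, Int.cast_mul, Int.cast_natCast]
      calc ∑ I : C, ((a I.1 : ZMod p)) * ((ν I : ℤ) : ZMod p)
          = ∑ I : C, (∑ i ∈ I.1, c i) * ((ν I : ℤ) : ZMod p) := by
            apply Finset.sum_congr rfl
            intro I _
            rw [hc I.1 I.2]
        _ = ∑ I : C, ∑ i : Fin n, c i * (((if i ∈ I.1 then ν I else 0 : ℤ)) : ZMod p) := by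
            apply Finset.sum_congr rfl
            intro I _
            rw [Finset.sum_mul, ← Finset.sum_filter_add_sum_filter_not Finset.univ (fun i => i ∈ I.1)]
            rw [Finset.sum_eq_zero (s := Finset.univ.filter fun i => ¬ i ∈ I.1)]
            · rw [add_zero]
              have : Finset.univ.filter (fun i => i ∈ I.1) = I.1 := by ext; simp
              rw [this]
              apply Finset.sum_congr rfl
              intro i hi
              simp [hi]
            · intro i hi
              simp only [Finset.mem_filter, Finset.mem_univ, true_and] at hi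
              simp [hi]
        _ = ∑ i : Fin n, ∑ I : C, c i * (((if i ∈ I.1 then ν I else 0 : ℤ)) : ZMod p) :=
            Finset.sum_comm
        _ = 0 := by
            apply Finset.sum_eq_zero
            intro i _
            rw [← Finset.mul_sum]
            have := congrArg (fun z : ℤ => (z : ZMod p)) (hcol i)
            simp only [Int.cast_sum, Int.cast_zero] at this
            rw [this, mul_zero]
    rw [ZMod.intCast_zmod_eq_zero_iff_dvd] at h1
    have h2 := Int.natAbs_dvd_natAbs.mpr h1
    have h3 : p ∣ S.natAbs := by simpa using h2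
    have h4 : 0 < S.natAbs := Int.natAbs_pos.mpr hS
    have := Nat.le_of_dvd h4 h3
    omega

theorem lift (K : ℕ) : ∃ N0 : ℕ, ∀ (p : ℕ) [Fact p.Prime], N0 ≤ p → ∀ n : ℕ, n ≤ K →
    ∀ (C : Finset (Finset (Fin n))) (a : Finset (Fin n) → ℕ), (∀ I ∈ C, a I ≤ K) →
    ∀ c : Fin n → ZMod p, (∀ I ∈ C, ∑ i ∈ I, c i = (a I : ZMod p)) →
    ∃ w : Fin n → ℚ, ∀ I ∈ C, ∑ i ∈ I, w i = (a I : ℚ) := by
  classical
  choose N hN using D1_one
  refine ⟨(Finset.range (K + 1)).sup fun n =>
    (Finset.univ : Finset (Finset (Finset (Fin n)) × (Finset (Fin n) → Fin (K + 1)))).sup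
      fun Ca => N n Ca.1 (fun I => (Ca.2 I : ℕ)), ?_⟩
  intro p hp hp0 n hn C a ha c hc
  let a' : Finset (Fin n) → Fin (K + 1) := fun I => ⟨min (a I) K, by omega⟩
  have h1 : N n C (fun I => (a' I : ℕ)) ≤ p := by
    refine le_trans ?_ hp0
    have h2 := Finset.le_sup (f := fun Ca : Finset (Finset (Fin n)) × (Finset (Fin n) → Fin (K + 1)) =>
      N n Ca.1 (fun I => (Ca.2 I : ℕ))) (Finset.mem_univ (C, a'))
    have h3 := Finset.le_sup (f := fun n =>
      (Finset.univ : Finset (Finset (Finset (Fin n)) × (Finset (Fin n) → Fin (K + 1)))).sup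
      fun Ca => N n Ca.1 (fun I => (Ca.2 I : ℕ))) (Finset.mem_range.mpr (Nat.lt_succ_of_le hn))
    exact le_trans h2 h3
  have haa : ∀ I ∈ C, (a' I : ℕ) = a I := by
    intro I hI
    simp only [a']
    exact min_eq_left (ha I hI)
  obtain ⟨w, hw⟩ := hN n C (fun I => (a' I : ℕ)) p h1 c (by
    intro I hI
    rw [hc I hI, haa I hI])
  refine ⟨w, fun I hI => ?_⟩
  rw [hw I hI, haa I hI]

end Pool.Agent.H169R3.KR
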