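import Mathlib
set_option autoImplicit false
open Finset

namespace Pool.Agent.H169R3.KR

/-- E1 -/
theorem poly_lemma {R : Type*} [CommRing R] [CharP R 2] {α : Type*} [DecidableEq α]
    (u : R) (a b : α → R) (hab : ∀ e, u ∣ a e + b e) (s : ℕ) :
    ∀ (E : Finset α) (x : α → Fin s → ZMod 2) (y : Fin s → ZMod 2),
      u ^ (E.card - s) ∣ ∑ I ∈ E.powerset.filter (fun I => ∑ e ∈ I, x e = y),
        (∏ e ∈ E \ I, a e) * ∏ e ∈ I, b e := by
  classical
  induction s with
  | zero =>
    intro E x y
    have h1 : E.powerset.filter (fun I => ∑ e ∈ I, x e = y) = E.powerset := by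
      apply Finset.filter_true_of_mem
      intro I _
      exact Subsingleton.elim _ _
    rw [h1, Nat.sub_zero]
    have h2 : ∑ I ∈ E.powerset, (∏ e ∈ E \ I, a e) * ∏ e ∈ I, b e = ∏ e ∈ E, (b e + a e) := by
      rw [Finset.prod_add]
      apply Finset.sum_congr rfl
      intro I _
      rw [mul_comm]
    rw [h2, ← Finset.prod_const]
    apply Finset.prod_dvd_prod_of_dvd
    intro e _
    rw [add_comm]
    exact hab e
  | succ s ih =>
    intro E x y
    -- first coordinates
    let x' : α → Fin s → ZMod 2 := fun e j => x e j.castSucc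
    let y' : Fin s → ZMod 2 := fun j => y j.castSucc
    let F : Finset α → R := fun I => (∏ e ∈ E \ I, a e) * ∏ e ∈ I, b e
    let T : Finset (Finset α) := E.powerset.filter (fun I => ∑ e ∈ I, x' e = y')
    have hxi : ∀ (I : Finset α) (j : Fin (s + 1)), (∑ e ∈ I, x e) j = ∑ e ∈ I, x e j := by
      intro I j; exact Finset.sum_apply j I x
    have hxi' : ∀ (I : Finset α) (j : Fin s), (∑ e ∈ I, x' e) j = ∑ e ∈ I, x e j.castSucc := by
      intro I j; exact Finset.sum_apply j I x'
    have hsplit : ∀ (I : Finset α) (t : ZMod 2), (∑ e ∈ I, x e = Fin.snoc (α := fun _ => ZMod 2) y' t) ↔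
        (∑ e ∈ I, x' e = y' ∧ ∑ e ∈ I, x e (Fin.last s) = t) := by
      intro I t
      constructor
      · intro h
        constructor
        · funext j
          rw [hxi', ← hxi, h]
          simp
        · rw [← hxi, h]; simp
      · rintro ⟨h1, h2⟩
        funext j
        refine Fin.lastCases ?_ (fun j => ?_) j
        · rw [hxi, h2]; simp
        · rw [hxi, ← hxi', h1]; simp
    have hy : y = Fin.snoc (α := fun _ => ZMod 2) y' (y (Fin.last s)) := by
      funext j
      refine Fin.lastCases ?_ (fun j => ?_) j
      · simp
      · simp [y']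
    -- the sum over last coordinate one
    have hone : u ^ (E.card - (s + 1)) ∣
        ∑ I ∈ T.filter (fun I => ∑ e ∈ I, x e (Fin.last s) = 1), F I := by
      have h1 : ∑ I ∈ T.filter (fun I => ∑ e ∈ I, x e (Fin.last s) = 1), F I
          = ∑ I ∈ T, ∑ f ∈ I.filter (fun f => x f (Fin.last s) = 1), F I := by
        rw [Finset.sum_filter]
        apply Finset.sum_congr rfl
        intro I _
        rw [Finset.sum_const, nsmul_eq_mul]
        have h2 : ∑ e ∈ I, x e (Fin.last s)
            = (((I.filter (fun f => x f (Fin.last s) = 1)).card : ℕ) : ZMod 2) := by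
          rw [Finset.card_filter]
          push_cast
          apply Finset.sum_congr rfl
          intro e _
          have : x e (Fin.last s) = 0 ∨ x e (Fin.last s) = 1 := by
            generalize x e (Fin.last s) = r
            revert r; decide
          rcases this with h | h <;> rw [h] <;> simp
        rw [h2]
        set c := (I.filter (fun f => x f (Fin.last s) = 1)).card
        have h3 : ((2 : ℕ) : R) = 0 := CharP.cast_eq_zero R 2
        rcases Nat.even_or_odd' c with ⟨k, hk | hk⟩
        · have h4 : ((c : ℕ) : ZMod 2) ≠ 1 := by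
            rw [hk]; push_cast
            have : (2 : ZMod 2) = 0 := by decide
            rw [this, zero_mul]; decide
          rw [if_neg h4, hk, Nat.cast_mul, h3, zero_mul, zero_mul]
        · have h4 : ((c : ℕ) : ZMod 2) = 1 := by
            rw [hk]; push_cast
            have : (2 : ZMod 2) = 0 := by decide
            rw [this, zero_mul, zero_add]
          rw [if_pos h4, hk, Nat.cast_add, Nat.cast_mul, h3, zero_mul, zero_add, Nat.cast_one,
            one_mul]
      rw [h1]
      have h5 : ∑ I ∈ T, ∑ f ∈ I.filter (fun f => x f (Fin.last s) = 1), F I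
          = ∑ f ∈ E.filter (fun f => x f (Fin.last s) = 1), ∑ I ∈ T.filter (fun I => f ∈ I), F I := by
        rw [Finset.sum_comm' (s := T) (t := fun I => I.filter (fun f => x f (Fin.last s) = 1))
          (t' := E.filter (fun f => x f (Fin.last s) = 1)) (s' := fun f => T.filter (fun I => f ∈ I))]
        intro I f
        simp only [Finset.mem_filter]
        constructor
        · rintro ⟨hI, hf, h⟩
          have hIE : I ⊆ E := Finset.mem_powerset.mp (Finset.mem_filter.mp hI).1
          exact ⟨⟨hI, hf⟩, hIE hf, h⟩
        · rintro ⟨⟨hI, hf⟩, _, h⟩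
          exact ⟨hI, hf, h⟩
      rw [h5]
      apply Finset.dvd_sum
      intro f hf
      have hfE : f ∈ E := (Finset.mem_filter.mp hf).1
      have h6 : ∑ I ∈ T.filter (fun I => f ∈ I), F I
          = b f * ∑ I ∈ (E.erase f).powerset.filter (fun I => ∑ e ∈ I, x' e = y' - x' f),
            (∏ e ∈ E.erase f \ I, a e) * ∏ e ∈ I, b e := by
        rw [Finset.mul_sum]
        refine Finset.sum_bij' (fun I _ => I.erase f) (fun I _ => insert f I) ?_ ?_ ?_ ?_ ?_
        · intro I hI
          simp only [T, Finset.mem_filter, Finset.mem_powerset] at hI ⊢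
          refine ⟨Finset.erase_subset_erase f hI.1.1, ?_⟩
          rw [← hI.1.2, ← Finset.add_sum_erase I x' hI.2]
          abel
        · intro I hI
          simp only [T, Finset.mem_filter, Finset.mem_powerset] at hI ⊢
          have hfI : f ∉ I := fun h => (Finset.mem_erase.mp (hI.1 h)).1 rfl
          refine ⟨⟨?_, ?_⟩, Finset.mem_insert_self f I⟩
          · exact Finset.insert_subset hfE (hI.1.trans (Finset.erase_subset f E))
          · rw [Finset.sum_insert hfI, hI.2]; abel
        · intro I hI
          exact Finset.insert_erase (Finset.mem_filter.mp hI).2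
        · intro I hI
          simp only [Finset.mem_filter, Finset.mem_powerset] at hI
          have hfI : f ∉ I := fun h => (Finset.mem_erase.mp (hI.1 h)).1 rfl
          exact Finset.erase_insert hfI
        · intro I hI
          have hfI : f ∈ I := (Finset.mem_filter.mp hI).2
          simp only [F]
          have h7 : E.erase f \ I.erase f = E \ I := by
            ext e
            simp only [Finset.mem_sdiff, Finset.mem_erase]
            constructor
            · rintro ⟨⟨h1, h2⟩, h3⟩
              exact ⟨h2, fun h => h3 ⟨h1, h⟩⟩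
            · rintro ⟨h2, h3⟩
              refine ⟨⟨?_, h2⟩, fun h => h3 h.2⟩
              rintro rfl
              exact h3 hfI
          rw [h7, ← Finset.mul_prod_erase I b hfI]
          ring
      rw [h6]
      apply Dvd.dvd.mul_left
      have h8 := ih (E.erase f) x' (y' - x' f)
      rw [Finset.card_erase_of_mem hfE] at h8
      have h9 : E.card - 1 - s = E.card - (s + 1) := by omega
      rw [h9] at h8
      exact h8
    -- total
    have htot : u ^ (E.card - (s + 1)) ∣ ∑ I ∈ T, F I := by
      have h1 := ih E x' y'
      exact (pow_dvd_pow u (by omega)).trans h1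
    have hzero : u ^ (E.card - (s + 1)) ∣
        ∑ I ∈ T.filter (fun I => ¬ ∑ e ∈ I, x e (Fin.last s) = 1), F I := by
      have h1 := Finset.sum_filter_add_sum_filter_not T
        (fun I => ∑ e ∈ I, x e (Fin.last s) = 1) F
      rw [← h1] at htot
      exact (dvd_add_right hone).mp htot
    have hcase : y (Fin.last s) = 0 ∨ y (Fin.last s) = 1 := by
      generalize y (Fin.last s) = r
      revert r; decide
    rcases hcase with h | h
    · have h1 : E.powerset.filter (fun I => ∑ e ∈ I, x e = y)
          = T.filter (fun I => ¬ ∑ e ∈ I, x e (Fin.last s) = 1) := by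
        ext I
        simp only [T, Finset.mem_filter]
        rw [hy, hsplit, h]
        have : (¬ ∑ e ∈ I, x e (Fin.last s) = 1) ↔ ∑ e ∈ I, x e (Fin.last s) = 0 := by
          generalize ∑ e ∈ I, x e (Fin.last s) = r
          revert r; decide
        rw [this]
        constructor
        · rintro ⟨h1, h2, h3⟩; exact ⟨⟨h1, by simpa [y'] using h2⟩, h3⟩
        · rintro ⟨⟨h1, h2⟩, h3⟩; exact ⟨h1, by simpa [y'] using h2, h3⟩
      rw [h1]; exact hzero
    · have h1 : E.powerset.filter (fun I => ∑ e ∈ I, x e = y)
          = T.filter (fun I => ∑ e ∈ I, x e (Fin.last s) = 1) := by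
        ext I
        simp only [T, Finset.mem_filter]
        rw [hy, hsplit, h]
        constructor
        · rintro ⟨h1, h2, h3⟩; exact ⟨⟨h1, by simpa [y'] using h2⟩, h3⟩
        · rintro ⟨⟨h1, h2⟩, h3⟩; exact ⟨h1, by simpa [y'] using h2, h3⟩
      rw [h1]; exact hone

end Pool.Agent.H169R3.KR
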