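import Mathlib
import Pool.Agent.H169R3.KR.E1
set_option autoImplicit false
open Finset

namespace Pool.Agent.H169R3.KR

/-- exponents of the polynomial -/
theorem e2_expo {α : Type*} [Fintype α] [DecidableEq α] (w : α → ℤ) (I : Finset α) :
    ((∑ e ∈ univ \ I, (-w e).toNat + ∑ e ∈ I, (w e).toNat : ℕ) : ℤ) =
      ((∑ e, (-w e).toNat : ℕ) : ℤ) + ∑ e ∈ I, w e := by
  have h1 : (∑ e, (-w e).toNat : ℕ) = ∑ e ∈ univ \ I, (-w e).toNat + ∑ e ∈ I, (-w e).toNat :=
    (Finset.sum_sdiff (Finset.subset_univ I)).symm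
  have h2 : ∑ e ∈ I, w e = ∑ e ∈ I, ((w e).toNat : ℤ) - ∑ e ∈ I, ((-w e).toNat : ℤ) := by
    rw [← Finset.sum_sub_distrib]
    refine Finset.sum_congr rfl fun e _ => ?_
    omega
  rw [h1, h2]
  push_cast
  ring

/-- E2 -/
theorem int_case {α : Type*} [Fintype α] [DecidableEq α] (x : α → Fin 4 → ZMod 2) (w : α → ℤ)
    (hE : ∑ e, x e = 0)
    (hpos : ∀ I : Finset α, I.Nonempty → ∑ e ∈ I, x e = 0 → 1 ≤ ∑ e ∈ I, w e) :
    (Fintype.card α : ℤ) ≤ ∑ e, w e + 4 := by
  classical
  open Polynomial in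
  set u : (ZMod 2)[X] := X - C 1 with hu
  have hdiv : ∀ k : ℕ, u ∣ (Polynomial.X : Polynomial (ZMod 2)) ^ k - 1 := by
    intro k
    have := sub_dvd_pow_sub_pow (Polynomial.X : Polynomial (ZMod 2)) 1 k
    rw [one_pow] at this
    rwa [hu, map_one]
  have hab : ∀ e : α, u ∣ (Polynomial.X : Polynomial (ZMod 2)) ^ (-w e).toNat +
      Polynomial.X ^ (w e).toNat := by
    intro e
    have h1 := dvd_sub (hdiv (-w e).toNat) (hdiv (w e).toNat)
    rw [sub_sub_sub_cancel_right, CharTwo.sub_eq_add] at h1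
    exact h1
  have key := poly_lemma u (fun e : α => (Polynomial.X : Polynomial (ZMod 2)) ^ (-w e).toNat)
    (fun e : α => (Polynomial.X : Polynomial (ZMod 2)) ^ (w e).toNat) hab 4 univ x 0
  set A : ℕ := ∑ e, (-w e).toNat with hA
  set ex : Finset α → ℕ := fun I => ∑ e ∈ univ \ I, (-w e).toNat + ∑ e ∈ I, (w e).toNat with hex
  have hexZ : ∀ I, (ex I : ℤ) = (A : ℤ) + ∑ e ∈ I, w e := fun I => e2_expo w I
  set Ps := (univ : Finset α).powerset.filter (fun I => ∑ e ∈ I, x e = 0) with hPs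
  have hterm : ∀ I, (∏ e ∈ univ \ I, (Polynomial.X : Polynomial (ZMod 2)) ^ (-w e).toNat) *
      ∏ e ∈ I, (Polynomial.X : Polynomial (ZMod 2)) ^ (w e).toNat = Polynomial.X ^ (ex I) := by
    intro I
    rw [Finset.prod_pow_eq_pow_sum, Finset.prod_pow_eq_pow_sum, ← pow_add]
  rw [Finset.sum_congr rfl (fun I _ => hterm I)] at key
  -- bounds on the exponents
  have hlow : ∀ I ∈ Ps, I ≠ ∅ → A < ex I := by
    intro I hI hne
    have h1 := hpos I (Finset.nonempty_iff_ne_empty.2 hne) (Finset.mem_filter.1 hI).2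
    have h2 := hexZ I
    omega
  have hlow0 : ex ∅ = A := by
    have h2 := hexZ ∅
    simp only [Finset.sum_empty, add_zero] at h2
    exact_mod_cast h2
  have hle : ∀ I ∈ Ps, A ≤ ex I := by
    intro I hI
    by_cases h : I = ∅
    · rw [h, hlow0]
    · exact (hlow I hI h).le
  have hup : ∀ I ∈ Ps, ((ex I - A : ℕ) : ℤ) ≤ ∑ e, w e := by
    intro I hI
    have h2 := hexZ I
    have h4 := hle I hI
    have h3 : ∑ e ∈ univ \ I, w e + ∑ e ∈ I, w e = ∑ e, w e :=
      Finset.sum_sdiff (Finset.subset_univ I)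
    have h5 : 0 ≤ ∑ e ∈ univ \ I, w e := by
      by_cases hne : univ \ I = ∅
      · rw [hne, Finset.sum_empty]
      · have h6 : ∑ e ∈ univ \ I, x e = 0 := by
          have := Finset.sum_sdiff (f := x) (Finset.subset_univ I)
          rw [(Finset.mem_filter.1 hI).2, hE, add_zero] at this
          exact this
        have := hpos _ (Finset.nonempty_iff_ne_empty.2 hne) h6
        omega
    omega
  -- divide by `X ^ A`
  set Q : Polynomial (ZMod 2) := ∑ I ∈ Ps, Polynomial.X ^ (ex I - A) with hQ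
  have hfac : ∑ I ∈ Ps, (Polynomial.X : Polynomial (ZMod 2)) ^ (ex I) = Polynomial.X ^ A * Q := by
    rw [hQ, Finset.mul_sum]
    refine Finset.sum_congr rfl fun I hI => ?_
    rw [← pow_add]
    congr 1
    have := hle I hI
    omega
  rw [hfac] at key
  have hcop : IsCoprime u (Polynomial.X : Polynomial (ZMod 2)) := by
    refine ⟨-1, 1, ?_⟩
    rw [hu, map_one]; ring
  have hdvd : u ^ (univ.card - 4) ∣ Q :=
    (IsCoprime.pow hcop : IsCoprime (u ^ ((univ : Finset α).card - 4)) (Polynomial.X ^ A)).dvd_of_dvd_mul_left key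
  have hempty : (∅ : Finset α) ∈ Ps := by
    rw [hPs, Finset.mem_filter]
    exact ⟨Finset.empty_mem_powerset _, by simp⟩
  have hQ0 : Q ≠ 0 := by
    intro h0
    have h1 : Polynomial.coeff Q 0 = 1 := by
      rw [hQ, Polynomial.finsetSum_coeff, Finset.sum_eq_single ∅]
      · rw [hlow0, Nat.sub_self, pow_zero, Polynomial.coeff_one_zero]
      · intro I hI hne
        rw [Polynomial.coeff_X_pow, if_neg]
        have := hlow I hI hne
        omega
      · intro h; exact absurd hempty h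
    rw [h0, Polynomial.coeff_zero] at h1
    exact zero_ne_one h1
  have hdeg := Polynomial.natDegree_le_of_dvd hdvd hQ0
  rw [Polynomial.natDegree_pow, hu, Polynomial.natDegree_X_sub_C, mul_one] at hdeg
  have hW0 : 0 ≤ ∑ e, w e := by
    have := hup ∅ hempty
    rw [hlow0] at this
    simpa using this
  have hdegQ : Q.natDegree ≤ (∑ e, w e).toNat := by
    rw [hQ]
    refine Polynomial.natDegree_sum_le_of_forall_le _ _ ?_
    intro I hI
    rw [Polynomial.natDegree_X_pow]
    have := hup I hI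
    omega
  rw [Finset.card_univ] at hdeg
  omega

end Pool.Agent.H169R3.KR
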