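import Mathlib
set_option autoImplicit false
open Finset

namespace Pool.Agent.H169R3.KR

theorem f1_symm {α M : Type*} [DecidableEq α] [AddCommMonoid M] (f : α → M) (I J : Finset α) :
    ∑ e ∈ (I \ J) ∪ (J \ I), f e + (∑ e ∈ I ∩ J, f e + ∑ e ∈ I ∩ J, f e) =
      ∑ e ∈ I, f e + ∑ e ∈ J, f e := by
  have hd : Disjoint (I \ J) (J \ I) := disjoint_sdiff_sdiff
  rw [sum_union hd]
  have h1 : ∑ e ∈ I, f e = ∑ e ∈ I ∩ J, f e + ∑ e ∈ I \ J, f e := (sum_inter_add_sum_sdiff I J f).symm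
  have h2 : ∑ e ∈ J, f e = ∑ e ∈ I ∩ J, f e + ∑ e ∈ J \ I, f e := by
    rw [inter_comm]; exact (sum_inter_add_sum_sdiff J I f).symm
  rw [h1, h2]
  abel

/-- F1: intersections of codewords have dyadic weight. -/
theorem dyadic {α : Type*} [Fintype α] [DecidableEq α] (x : α → Fin 4 → ZMod 2) (w : α → ℚ)
    (hC : ∀ I : Finset α, ∑ e ∈ I, x e = 0 → ∃ m : ℤ, ∑ e ∈ I, w e = m)
    (S : Finset (Finset α)) (hS : ∀ J ∈ S, ∑ e ∈ J, x e = 0) :
    ∃ m : ℕ, ∀ I : Finset α, ∑ e ∈ I, x e = 0 →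
      ∃ k : ℤ, 2 ^ m * ∑ e ∈ I.filter (fun e => ∀ J ∈ S, e ∈ J), w e = k := by
  induction S using Finset.induction_on with
  | empty =>
    refine ⟨0, fun I hI => ?_⟩
    obtain ⟨m, hm⟩ := hC I hI
    refine ⟨m, ?_⟩
    simpa using hm
  | insert J S hJ ih =>
    obtain ⟨m, hm⟩ := ih fun J' hJ' => hS J' (mem_insert_of_mem hJ')
    have hJ0 : ∑ e ∈ J, x e = 0 := hS J (mem_insert_self _ _)
    refine ⟨m + 1, fun I hI => ?_⟩
    have hx := f1_symm x I J
    have h2 : ∀ v : Fin 4 → ZMod 2, v + v = 0 := by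
      intro v
      funext i
      exact CharTwo.add_self_eq_zero (v i)
    rw [hI, hJ0, h2, add_zero, add_zero] at hx
    obtain ⟨k1, hk1⟩ := hm I hI
    obtain ⟨k2, hk2⟩ := hm J hJ0
    obtain ⟨k3, hk3⟩ := hm _ hx
    refine ⟨k1 + k2 - k3, ?_⟩
    have hw := f1_symm (fun e => if (∀ J' ∈ S, e ∈ J') then w e else 0) I J
    simp only [← sum_filter] at hw
    have hf : I.filter (fun e => ∀ J' ∈ insert J S, e ∈ J') =
        (I ∩ J).filter (fun e => ∀ J' ∈ S, e ∈ J') := by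
      ext e
      simp only [mem_filter, mem_insert, forall_eq_or_imp, mem_inter, and_assoc]
    rw [hf]
    push_cast
    rw [← hk1, ← hk2, ← hk3, pow_succ]
    linear_combination (2 ^ m) * hw

end Pool.Agent.H169R3.KR
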