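import Mathlib
import Pool.Agent.H169R3.KR.F1
set_option autoImplicit false
open Finset

namespace Pool.Agent.H169R3.KR

/-- F2: concentrate the weight on class representatives. -/
theorem concentrate {α : Type*} [Fintype α] [DecidableEq α] (x : α → Fin 4 → ZMod 2) (w : α → ℚ)
    (hE : ∑ e, x e = 0)
    (hC : ∀ I : Finset α, ∑ e ∈ I, x e = 0 → ∃ m : ℤ, ∑ e ∈ I, w e = m) :
    ∃ (R : Finset α) (w' : α → ℚ),
      (∀ e, e ∉ R → w' e = 0) ∧
      (∀ e, ∃ r ∈ R, ∀ I : Finset α, ∑ e ∈ I, x e = 0 → (e ∈ I ↔ r ∈ I)) ∧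
      (∀ r ∈ R, ∀ r' ∈ R, r ≠ r' → ∃ I : Finset α, ∑ e ∈ I, x e = 0 ∧ r ∈ I ∧ r' ∉ I) ∧
      (∀ I : Finset α, ∑ e ∈ I, x e = 0 → ∑ e ∈ I, w' e = ∑ e ∈ I, w e) ∧
      (∃ f : ℕ, ∀ e, ∃ k : ℤ, 2 ^ f * w' e = k) ∧
      (R = Finset.univ → w' = w) := by
  classical
  -- complements of codewords are codewords
  have hcompl : ∀ I : Finset α, ∑ e ∈ I, x e = 0 → ∑ e ∈ Iᶜ, x e = 0 := by
    intro I hI
    have h1 := Finset.sum_add_sum_compl I x
    rw [hI, hE, zero_add] at h1
    exact h1
  let s : Setoid α :=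
    { r := fun e e' => ∀ I : Finset α, ∑ e ∈ I, x e = 0 → (e ∈ I ↔ e' ∈ I)
      iseqv := ⟨fun _ _ _ => Iff.rfl, fun h I hI => (h I hI).symm,
        fun h h' I hI => (h I hI).trans (h' I hI)⟩ }
  let rep : α → α := fun e => Quotient.out (Quotient.mk s e)
  have hrep : ∀ e, ∀ I : Finset α, ∑ e ∈ I, x e = 0 → (rep e ∈ I ↔ e ∈ I) := fun e =>
    Quotient.mk_out (s := s) e
  have hsound : ∀ e e', (∀ I : Finset α, ∑ e ∈ I, x e = 0 → (e ∈ I ↔ e' ∈ I)) →
      rep e = rep e' := by
    intro e e' h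
    show Quotient.out (Quotient.mk s e) = Quotient.out (Quotient.mk s e')
    rw [Quotient.sound (s := s) h]
  have hrr : ∀ e, rep (rep e) = rep e := fun e => hsound _ _ (hrep e)
  -- one-sided inclusion is enough
  have hone : ∀ e e', (∀ I : Finset α, ∑ e ∈ I, x e = 0 → e ∈ I → e' ∈ I) → rep e = rep e' := by
    intro e e' h
    apply hsound
    intro I hI
    refine ⟨h I hI, fun h' => ?_⟩
    by_contra h''
    have := h Iᶜ (hcompl I hI) (Finset.mem_compl.2 h'')
    exact Finset.mem_compl.1 this h'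
  refine ⟨Finset.univ.image rep, fun e => ∑ e' ∈ Finset.univ.filter (fun e' => rep e' = e), w e',
    ?_, ?_, ?_, ?_, ?_, ?_⟩
  · intro e he
    show ∑ e' ∈ Finset.univ.filter (fun e' => rep e' = e), w e' = 0
    rw [Finset.filter_false_of_mem, Finset.sum_empty]
    intro e' _ h
    exact he (Finset.mem_image.2 ⟨e', Finset.mem_univ _, h⟩)
  · intro e
    exact ⟨rep e, Finset.mem_image_of_mem _ (Finset.mem_univ _), fun I hI => (hrep e I hI).symm⟩
  · intro r hr r' hr' hne
    obtain ⟨a, -, rfl⟩ := Finset.mem_image.1 hr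
    obtain ⟨b, -, rfl⟩ := Finset.mem_image.1 hr'
    by_contra hcon
    push Not at hcon
    have h1 := hone (rep a) (rep b) hcon
    rw [hrr, hrr] at h1
    exact hne h1
  · intro I hI
    have h1 := Finset.sum_fiberwise_of_maps_to (s := I) (t := I) (g := rep)
      (fun e he => (hrep e I hI).2 he) w
    rw [← h1]
    apply Finset.sum_congr rfl
    intro y hy
    apply Finset.sum_congr _ (fun _ _ => rfl)
    ext e
    simp only [Finset.mem_filter, Finset.mem_univ, true_and]
    constructor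
    · intro h
      exact ⟨(hrep e I hI).1 (h ▸ hy), h⟩
    · exact fun h => h.2
  · -- dyadic
    have key : ∀ e : α, ∃ m : ℕ, ∃ k : ℤ,
        2 ^ m * ∑ e' ∈ Finset.univ.filter (fun e' => rep e' = e), w e' = (k : ℚ) := by
      intro e
      by_cases he : rep e = e
      · obtain ⟨m, hm⟩ := dyadic x w hC (Finset.univ.filter (fun J : Finset α =>
          ∑ e ∈ J, x e = 0 ∧ e ∈ J)) (fun J hJ => (Finset.mem_filter.1 hJ).2.1)
        obtain ⟨k, hk⟩ := hm Finset.univ hE
        refine ⟨m, k, ?_⟩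
        rw [← hk]
        congr 1
        apply Finset.sum_congr _ (fun _ _ => rfl)
        ext e'
        simp only [Finset.mem_filter, Finset.mem_univ, true_and]
        constructor
        · rintro h J ⟨hJ, hJ'⟩
          rw [← h] at hJ'
          exact (hrep e' J hJ).1 hJ'
        · intro h
          rw [← he]
          exact (hone e e' fun J hJ hJ' => h J ⟨hJ, hJ'⟩).symm
      · refine ⟨0, 0, ?_⟩
        rw [Finset.filter_false_of_mem, Finset.sum_empty]
        · simp
        · intro e' _ h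
          apply he
          rw [← h, hrr]
    choose m k hk using key
    refine ⟨Finset.univ.sup m, fun e => ⟨2 ^ (Finset.univ.sup m - m e) * k e, ?_⟩⟩
    have h1 : m e ≤ Finset.univ.sup m := Finset.le_sup (f := m) (Finset.mem_univ e)
    push_cast
    rw [← hk e, ← mul_assoc, ← pow_add, Nat.sub_add_cancel h1]
  · intro hR
    have hsurj : Function.Surjective rep := by
      intro e
      have : e ∈ Finset.univ.image rep := by rw [hR]; exact Finset.mem_univ e
      obtain ⟨a, -, ha⟩ := Finset.mem_image.1 this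
      exact ⟨a, ha⟩
    have hinj : Function.Injective rep := Finite.injective_iff_surjective.2 hsurj
    have hid : ∀ e, rep e = e := fun e => hinj (hrr e)
    funext e
    show ∑ e' ∈ Finset.univ.filter (fun e' => rep e' = e), w e' = w e
    simp only [hid, Finset.filter_eq', Finset.mem_univ, if_true, Finset.sum_singleton]

end Pool.Agent.H169R3.KR
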