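import Mathlib
set_option autoImplicit false
open Finset

namespace Pool.Agent.H169R3.KR

theorem F3_zmod2 (a : ZMod 2) : a = 0 ∨ a = 1 := by revert a; decide

theorem F3_supp {α : Type*} [Fintype α] [DecidableEq α] (x : α → Fin 4 → ZMod 2)
    (f : α → ZMod 2) :
    Fintype.linearCombination (ZMod 2) x f = ∑ e ∈ univ.filter (fun e => f e = 1), x e := by
  rw [Fintype.linearCombination_apply, Finset.sum_filter]
  apply Finset.sum_congr rfl
  intro e _
  rcases F3_zmod2 (f e) with h | h <;> simp [h]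

/-- a self-orthogonal subspace has at most half the dimension -/
theorem F3_self {ι : Type*} [Fintype ι] [DecidableEq ι] (W : Submodule (ZMod 2) (ι → ZMod 2))
    (h : ∀ f ∈ W, ∀ g ∈ W, ∑ i, f i * g i = 0) :
    2 * Module.finrank (ZMod 2) W ≤ Fintype.card ι := by
  have h1 := Subspace.finrank_add_finrank_dualAnnihilator_eq W
  have h2 : (W.map (dotProductEquiv (ZMod 2) ι).toLinearMap) ≤ W.dualAnnihilator := by
    rintro _ ⟨f, hf, rfl⟩
    rw [Submodule.mem_dualAnnihilator]
    intro g hg
    exact h f hf g hg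
  have h3 := Submodule.finrank_mono h2
  rw [LinearEquiv.finrank_map_eq] at h3
  rw [Module.finrank_fintype_fun_eq_card] at h1
  omega

/-- F3: the dimension count. -/
theorem dim_count {α : Type*} [Fintype α] [DecidableEq α] (x : α → Fin 4 → ZMod 2)
    (Y R : Finset α) (hYR : Y ⊆ R)
    (hR : ∀ e, ∃ r ∈ R, ∀ I : Finset α, ∑ e ∈ I, x e = 0 → (e ∈ I ↔ r ∈ I))
    (hso : ∀ I J : Finset α, ∑ e ∈ I, x e = 0 → ∑ e ∈ J, x e = 0 → Even (Y ∩ I ∩ J).card) :
    2 * Fintype.card α + Y.card ≤ 8 + 2 * R.card ∧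
    (Y.card = 8 → R = Finset.univ ∧ ∀ e, e ∉ Y → x e = 0) := by
  classical
  set X := Fintype.linearCombination (ZMod 2) x with hX
  set C := LinearMap.ker X with hC
  -- membership in `C`
  have hmem : ∀ f : α → ZMod 2, f ∈ C → ∑ e ∈ univ.filter (fun e => f e = 1), x e = 0 := by
    intro f hf
    rw [← F3_supp]
    exact hf
  -- dimension of `C`
  have hCdim : Fintype.card α ≤ Module.finrank (ZMod 2) C + 4 := by
    have h1 := LinearMap.finrank_range_add_finrank_ker X
    have h2 := Submodule.finrank_le (LinearMap.range X)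
    rw [Module.finrank_fintype_fun_eq_card] at h1
    rw [Module.finrank_fintype_fun_eq_card, Fintype.card_fin] at h2
    rw [← hC] at h1
    omega
  set ρ := (LinearMap.funLeft (ZMod 2) (ZMod 2) (Subtype.val : Y → α)).domRestrict C with hρ
  have hsplit := LinearMap.finrank_range_add_finrank_ker ρ
  -- the range is self-orthogonal
  have hW : 2 * Module.finrank (ZMod 2) (LinearMap.range ρ) ≤ Y.card := by
    have h := F3_self (LinearMap.range ρ) (by
      rintro _ ⟨f, rfl⟩ _ ⟨g, rfl⟩
      have h1 := hso _ _ (hmem f.1 f.2) (hmem g.1 g.2)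
      have h2 : ∑ i : Y, ρ f i * ρ g i = ∑ i : Y, f.1 i * g.1 i := rfl
      rw [h2, Finset.sum_coe_sort Y (fun i => f.1 i * g.1 i)]
      have h3 : ∑ i ∈ Y, f.1 i * g.1 i =
          ((Y ∩ univ.filter (fun e => f.1 e = 1) ∩ univ.filter (fun e => g.1 e = 1)).card : ZMod 2) := by
        rw [Finset.card_eq_sum_ones, Nat.cast_sum]
        have h4 : Y ∩ univ.filter (fun e => f.1 e = 1) ∩ univ.filter (fun e => g.1 e = 1) =
            Y.filter (fun e => f.1 e = 1 ∧ g.1 e = 1) := by
          ext e; simp only [mem_inter, mem_filter, mem_univ, true_and]; tauto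
        rw [h4, Finset.sum_filter]
        apply Finset.sum_congr rfl
        intro e _
        rcases F3_zmod2 (f.1 e) with h5 | h5 <;> rcases F3_zmod2 (g.1 e) with h6 | h6 <;>
          simp [h5, h6]
      rw [h3]
      exact (ZMod.natCast_eq_zero_iff_even).2 h1)
    rwa [Fintype.card_coe] at h
  -- the kernel embeds in the functions on `R \ Y`
  set κ : LinearMap.ker ρ →ₗ[ZMod 2] (↥(R \ Y) → ZMod 2) :=
    (LinearMap.funLeft (ZMod 2) (ZMod 2) (Subtype.val : ↥(R \ Y) → α)).comp
      (C.subtype.comp (LinearMap.ker ρ).subtype) with hκ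
  have hκinj : Function.Injective κ := by
    rw [← LinearMap.ker_eq_bot, LinearMap.ker_eq_bot']
    intro f hf
    have hf1 : ∀ y : Y, f.1.1 y = 0 := by
      intro y
      exact congrFun f.2 y
    have hf2 : ∀ y : ↥(R \ Y), f.1.1 y = 0 := by
      intro y
      exact congrFun hf y
    have hf3 : ∀ r ∈ R, f.1.1 r = 0 := by
      intro r hr
      by_cases hrY : r ∈ Y
      · exact hf1 ⟨r, hrY⟩
      · exact hf2 ⟨r, Finset.mem_sdiff.2 ⟨hr, hrY⟩⟩
    apply Subtype.ext
    apply Subtype.ext
    funext e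
    obtain ⟨r, hr, hre⟩ := hR e
    have h1 := hre _ (hmem f.1.1 f.1.2)
    simp only [mem_filter, mem_univ, true_and] at h1
    have h2 := hf3 r hr
    rcases F3_zmod2 (f.1.1 e) with h3 | h3
    · exact h3
    · have h4 := h1.1 h3
      rw [h2] at h4
      exact absurd h4 (by decide)
  have hK := LinearMap.finrank_le_finrank_of_injective hκinj
  rw [Module.finrank_fintype_fun_eq_card, Fintype.card_coe, Finset.card_sdiff_of_subset hYR] at hK
  have hYRc := Finset.card_le_card hYR
  have hmain : 2 * Fintype.card α + Y.card ≤ 8 + 2 * R.card := by omega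
  refine ⟨hmain, fun hY8 => ?_⟩
  have hRu : R = Finset.univ := by
    apply Finset.eq_univ_of_card
    have := Finset.card_le_univ R
    omega
  refine ⟨hRu, fun e heY => ?_⟩
  have hcard : R.card = Fintype.card α := by rw [hRu]; exact Finset.card_univ
  have hfr : Module.finrank (ZMod 2) (LinearMap.ker ρ) =
      Module.finrank (ZMod 2) (↥(R \ Y) → ZMod 2) := by
    rw [Module.finrank_fintype_fun_eq_card, Fintype.card_coe, Finset.card_sdiff_of_subset hYR]
    omega
  have hsurj := (LinearMap.injective_iff_surjective_of_finrank_eq_finrank hfr).1 hκinj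
  obtain ⟨f, hf⟩ := hsurj (fun i => if i.1 = e then 1 else 0)
  have hfe : f.1.1 = Pi.single e 1 := by
    funext i
    by_cases hiY : i ∈ Y
    · have h1 : f.1.1 i = 0 := congrFun f.2 ⟨i, hiY⟩
      have h2 : i ≠ e := fun h => heY (h ▸ hiY)
      rw [h1, Pi.single_eq_of_ne h2]
    · have h1 : f.1.1 i = if i = e then 1 else 0 :=
        congrFun hf ⟨i, Finset.mem_sdiff.2 ⟨by rw [hRu]; exact mem_univ _, hiY⟩⟩
      rw [h1, Pi.single_apply]
  have hz : X f.1.1 = 0 := f.1.2
  rw [hfe, hX, Fintype.linearCombination_apply_single, one_smul] at hz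
  exact hz

end Pool.Agent.H169R3.KR
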