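import Mathlib
import Pool.Agent.H169R3.KR.E2
import Pool.Agent.H169R3.KR.F2
import Pool.Agent.H169R3.KR.F3
set_option autoImplicit false
open Finset

namespace Pool.Agent.H169R3.KR

theorem F4_symm {α M : Type*} [DecidableEq α] [AddCommGroup M] (I J : Finset α) (f : α → M) :
    ∑ e ∈ I, f e + ∑ e ∈ J, f e - ∑ e ∈ symmDiff I J, f e = 2 • ∑ e ∈ I ∩ J, f e := by
  have h1 : ∑ e ∈ I, f e = ∑ e ∈ I \ J, f e + ∑ e ∈ I ∩ J, f e := by
    rw [add_comm]
    exact (Finset.sum_inter_add_sum_sdiff I J f).symm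
  have h2 : ∑ e ∈ J, f e = ∑ e ∈ J \ I, f e + ∑ e ∈ I ∩ J, f e := by
    rw [Finset.inter_comm I J, add_comm]
    exact (Finset.sum_inter_add_sum_sdiff J I f).symm
  have h3 : ∑ e ∈ symmDiff I J, f e = ∑ e ∈ I \ J, f e + ∑ e ∈ J \ I, f e := by
    rw [symmDiff_def, Finset.sup_eq_union]
    exact Finset.sum_union disjoint_sdiff_sdiff
  rw [h1, h2, h3, two_nsmul]
  abel

theorem F4_code {α : Type*} [DecidableEq α] (x : α → Fin 4 → ZMod 2) (I J : Finset α)
    (hI : ∑ e ∈ I, x e = 0) (hJ : ∑ e ∈ J, x e = 0) : ∑ e ∈ symmDiff I J, x e = 0 := by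
  have h := F4_symm I J x
  rw [hI, hJ] at h
  have h2 : (2 : ℕ) • ∑ e ∈ I ∩ J, x e = 0 := by
    funext i
    rw [Pi.smul_apply, nsmul_eq_mul]
    have : ((2 : ℕ) : ZMod 2) = 0 := by decide
    rw [this, zero_mul]
    rfl
  rw [h2] at h
  simpa using h

theorem F4_parity {α : Type*} (k : α → ℤ) (S : Finset α) [DecidablePred fun e => Odd (k e)]
    (h : Even (∑ e ∈ S, k e)) : Even (S.filter fun e => Odd (k e)).card := by
  have h1 : ((∑ e ∈ S, k e : ℤ) : ZMod 2) = ((S.filter fun e => Odd (k e)).card : ZMod 2) := by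
    rw [Int.cast_sum, Finset.card_filter, Nat.cast_sum]
    apply Finset.sum_congr rfl
    intro e _
    by_cases ho : Odd (k e)
    · rw [if_pos ho]
      obtain ⟨m, hm⟩ := ho
      rw [hm]
      push_cast
      have : (2 : ZMod 2) = 0 := by decide
      rw [this]
      ring
    · rw [if_neg ho]
      rw [Int.not_odd_iff_even] at ho
      obtain ⟨m, hm⟩ := ho
      rw [hm]
      push_cast
      have : (2 : ZMod 2) = 0 := by decide
      have h3 : (m : ZMod 2) + m = 2 * m := by ring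
      rw [h3, this]
      ring
  have h2 : ((∑ e ∈ S, k e : ℤ) : ZMod 2) = 0 := by
    rw [ZMod.intCast_zmod_eq_zero_iff_dvd] 
    exact h.two_dvd
  rw [h2] at h1
  have h3 := h1.symm
  rwa [ZMod.natCast_eq_zero_iff_even] at h3

/-- F4 -/
theorem classify {α : Type*} [Fintype α] [DecidableEq α] (x : α → Fin 4 → ZMod 2)
    (lam : α → ZMod 2) (w : α → ℚ) (hE : ∑ e, x e = 0)
    (hC : ∀ I : Finset α, ∑ e ∈ I, x e = 0 →
      ∃ m : ℤ, ∑ e ∈ I, w e = m ∧ (m : ZMod 2) = ∑ e ∈ I, lam e ∧ (I.Nonempty → 1 ≤ m)) :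
    (Fintype.card α : ℚ) - ∑ e, w e ≤ 4 ∨
    ∃ Y : Finset α, Y.card = 8 ∧ (∀ e, e ∉ Y → x e = 0) ∧
      (∀ I J : Finset α, ∑ e ∈ I, x e = 0 → ∑ e ∈ J, x e = 0 → Even (Y ∩ I ∩ J).card) ∧
      (∀ e ∈ Y, ∀ e' ∈ Y, e ≠ e' → ∃ I : Finset α, ∑ e ∈ I, x e = 0 ∧ e ∈ I ∧ e' ∉ I) ∧
      ∀ e ∈ Y, ∀ m : ℤ, w e ≠ m := by
  classical
  obtain ⟨R, w', h0, hcls, hsep, hsum, hf, hRu⟩ := concentrate x w hE
    (fun I hI => by obtain ⟨m, hm, _⟩ := hC I hI; exact ⟨m, hm⟩)
  have hfs := Nat.find_spec hf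
  have hfm : ∀ g, g < Nat.find hf → ¬ ∀ e, ∃ k : ℤ, 2 ^ g * w' e = k :=
    fun g hg => Nat.find_min hf hg
  generalize Nat.find hf = f at hfs hfm
  choose k hk using hfs
  cases f with
  | zero =>
    left
    have hk' : ∀ e, w' e = k e := fun e => by simpa using hk e
    have hsum' : ∀ I : Finset α, ∑ e ∈ I, x e = 0 → ((∑ e ∈ I, k e : ℤ) : ℚ) = ∑ e ∈ I, w e := by
      intro I hI
      rw [← hsum I hI, Int.cast_sum]
      exact Finset.sum_congr rfl fun e _ => (hk' e).symm
    have h1 := int_case x k hE (fun I hne hI => by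
      obtain ⟨m, hm, _, hp⟩ := hC I hI
      have h2 := hsum' I hI
      rw [hm] at h2
      have h3 : ∑ e ∈ I, k e = m := by exact_mod_cast h2
      rw [h3]
      exact hp hne)
    have h2 := hsum' Finset.univ hE
    have h3 : ((Fintype.card α : ℤ) : ℚ) ≤ ((∑ e, k e + 4 : ℤ) : ℚ) := by exact_mod_cast h1
    push_cast at h3 h2
    rw [h2] at h3
    linarith
  | succ g =>
    right
    let Y : Finset α := Finset.univ.filter fun e => Odd (k e)
    have hYmem : ∀ e, e ∈ Y ↔ Odd (k e) := fun e => by simp [Y]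
    have hYne : Y.Nonempty := by
      by_contra hne
      rw [Finset.not_nonempty_iff_eq_empty] at hne
      apply hfm g (Nat.lt_succ_self g)
      intro e
      have he : ¬ Odd (k e) := fun h => by
        have := (hYmem e).2 h
        rw [hne] at this
        exact absurd this (Finset.notMem_empty _)
      rw [Int.not_odd_iff_even] at he
      obtain ⟨m, hm⟩ := he
      refine ⟨m, ?_⟩
      have h1 := hk e
      rw [hm] at h1
      push_cast at h1
      rw [pow_succ] at h1
      linarith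
    have hYR : Y ⊆ R := by
      intro e he
      by_contra hn
      have h1 := hk e
      rw [h0 e hn, mul_zero] at h1
      have h2 : k e = 0 := by exact_mod_cast h1.symm
      have h3 := (hYmem e).1 he
      rw [h2] at h3
      exact absurd h3 (by decide)
    have hso : ∀ I J : Finset α, ∑ e ∈ I, x e = 0 → ∑ e ∈ J, x e = 0 →
        Even (Y ∩ I ∩ J).card := by
      intro I J hI hJ
      have hD := F4_code x I J hI hJ
      obtain ⟨mI, hmI, hlI, _⟩ := hC I hI
      obtain ⟨mJ, hmJ, hlJ, _⟩ := hC J hJ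
      obtain ⟨mD, hmD, hlD, _⟩ := hC _ hD
      have h1 := F4_symm I J w'
      rw [hsum I hI, hsum J hJ, hsum _ hD, hmI, hmJ, hmD] at h1
      have h2 := F4_symm I J lam
      rw [← hlI, ← hlJ, ← hlD] at h2
      have h3 : ((mI + mJ - mD : ℤ) : ZMod 2) = 0 := by
        push_cast
        rw [h2, nsmul_eq_mul]
        have : ((2 : ℕ) : ZMod 2) = 0 := by decide
        rw [this, zero_mul]
      rw [ZMod.intCast_zmod_eq_zero_iff_dvd] at h3
      obtain ⟨M, hM⟩ := h3
      have h4 : ∑ e ∈ I ∩ J, w' e = M := by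
        have h5 : ((mI + mJ - mD : ℤ) : ℚ) = (((2 : ℕ) : ℤ) * M : ℤ) := by exact_mod_cast hM
        push_cast at h5
        rw [nsmul_eq_mul] at h1
        push_cast at h1
        linarith
      have h5 : ∑ e ∈ I ∩ J, k e = 2 ^ (g + 1) * M := by
        have h6 : ((∑ e ∈ I ∩ J, k e : ℤ) : ℚ) = ((2 ^ (g + 1) * M : ℤ) : ℚ) := by
          rw [Int.cast_sum]
          push_cast
          rw [← h4, Finset.mul_sum]
          exact Finset.sum_congr rfl fun e _ => (hk e).symm
        exact_mod_cast h6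
      have h6 : Even (∑ e ∈ I ∩ J, k e) := by
        rw [h5, pow_succ]
        exact ⟨2 ^ g * M, by ring⟩
      have h7 := F4_parity k (I ∩ J) h6
      have h8 : (I ∩ J).filter (fun e => Odd (k e)) = Y ∩ I ∩ J := by
        ext e
        simp only [Finset.mem_filter, Finset.mem_inter, hYmem]
        tauto
      rwa [h8] at h7
    obtain ⟨hd1, hd2⟩ := dim_count x Y R hYR hcls hso
    have hRc : R.card ≤ Fintype.card α := Finset.card_le_univ R
    have hY8 : Y.card ≤ 8 := by omega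
    have hsepY : ∀ e ∈ Y, ∀ e' ∈ Y, e ≠ e' →
        ∃ I : Finset α, ∑ e ∈ I, x e = 0 ∧ e ∈ I ∧ e' ∉ I :=
      fun e he e' he' hne => hsep e (hYR he) e' (hYR he') hne
    have heven : ∀ I : Finset α, ∑ e ∈ I, x e = 0 → Even (Y ∩ I).card := by
      intro I hI
      have := hso I I hI hI
      rwa [Finset.inter_assoc, Finset.inter_self] at this
    have hne2 : ∀ I : Finset α, ∑ e ∈ I, x e = 0 → (Y ∩ I).card ≠ 2 := by
      intro I hI h2
      obtain ⟨e, e', hne, hee⟩ := Finset.card_eq_two.1 h2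
      have he : e ∈ Y ∩ I := by rw [hee]; simp
      have he' : e' ∈ Y ∩ I := by rw [hee]; simp
      obtain ⟨J, hJ, heJ, heJ'⟩ := hsepY e (Finset.mem_inter.1 he).1 e'
        (Finset.mem_inter.1 he').1 hne
      have h3 := hso I J hI hJ
      have h4 : Y ∩ I ∩ J = {e} := by
        rw [hee]
        ext z
        simp only [Finset.mem_inter, Finset.mem_insert, Finset.mem_singleton]
        constructor
        · rintro ⟨rfl | rfl, hz⟩
          · rfl
          · exact absurd hz heJ'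
        · rintro rfl
          exact ⟨Or.inl rfl, heJ⟩
      rw [h4, Finset.card_singleton] at h3
      exact absurd h3 (by decide)
    have hYe : Even Y.card := by
      have := heven Finset.univ hE
      rwa [Finset.inter_univ] at this
    have hY1 : 1 < Y.card := by
      have h1 := hYne.card_pos
      obtain ⟨r, hr⟩ := hYe
      omega
    obtain ⟨e, he, e', he', hne⟩ := Finset.one_lt_card.1 hY1
    obtain ⟨J, hJ, heJ, heJ'⟩ := hsepY e he e' he' hne
    have hJc : ∑ e ∈ Finset.univ \ J, x e = 0 := by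
      have h1 := Finset.sum_sdiff (Finset.subset_univ J) (f := x)
      rw [hJ, hE, add_zero] at h1
      exact h1
    have c1 : (Y ∩ J).card + (Y ∩ (Finset.univ \ J)).card = Y.card := by
      have h1 : Y ∩ (Finset.univ \ J) = Y \ J := by
        ext z; simp
      rw [h1, add_comm]
      exact Finset.card_sdiff_add_card_inter Y J
    have c2 : 0 < (Y ∩ J).card := Finset.card_pos.2 ⟨e, Finset.mem_inter.2 ⟨he, heJ⟩⟩
    have c3 : 0 < (Y ∩ (Finset.univ \ J)).card :=
      Finset.card_pos.2 ⟨e', Finset.mem_inter.2 ⟨he', by simp [heJ']⟩⟩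
    have c4 := hne2 J hJ
    have c5 := hne2 _ hJc
    obtain ⟨r1, hr1⟩ := heven J hJ
    obtain ⟨r2, hr2⟩ := heven _ hJc
    have hYc : Y.card = 8 := by omega
    obtain ⟨hRuniv, hx0⟩ := hd2 hYc
    have hww := hRu hRuniv
    refine ⟨Y, hYc, hx0, hso, hsepY, ?_⟩
    intro z hz m hm
    have h1 := hk z
    rw [hww, hm] at h1
    have h2 : k z = 2 ^ (g + 1) * m := by
      have : ((k z : ℤ) : ℚ) = ((2 ^ (g + 1) * m : ℤ) : ℚ) := by
        push_cast
        exact h1.symm
      exact_mod_cast this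
    have h3 := (hYmem z).1 hz
    rw [h2, ← Int.not_even_iff_odd] at h3
    apply h3
    rw [pow_succ]
    exact ⟨2 ^ g * m, by ring⟩

end Pool.Agent.H169R3.KR
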