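import Mathlib
set_option autoImplicit false
open Finset

namespace Pool.Agent.H169R3.KR

theorem G1_symm {α : Type*} [DecidableEq α] (x : α → Fin 4 → ZMod 2) (I J : Finset α) :
    ∑ e ∈ symmDiff I J, x e = ∑ e ∈ I, x e + ∑ e ∈ J, x e := by
  have h1 : ∑ e ∈ I ∩ J, x e + ∑ e ∈ I \ J, x e = ∑ e ∈ I, x e := Finset.sum_inter_add_sum_sdiff I J x
  have h2 : ∑ e ∈ J ∩ I, x e + ∑ e ∈ J \ I, x e = ∑ e ∈ J, x e := Finset.sum_inter_add_sum_sdiff J I x
  have h3 : ∑ e ∈ symmDiff I J, x e = ∑ e ∈ I \ J, x e + ∑ e ∈ J \ I, x e := by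
    rw [symmDiff_def, Finset.sup_eq_union, Finset.sum_union]
    rw [Finset.disjoint_left]
    intro e he he'
    rw [Finset.mem_sdiff] at he he'
    exact he'.2 he.1
  have h4 : ∑ e ∈ I ∩ J, x e + ∑ e ∈ I ∩ J, x e = 0 := by
    funext i
    exact CharTwo.add_self_eq_zero _
  rw [h3, ← h1, ← h2, Finset.inter_comm J I]
  rw [show ∑ e ∈ I ∩ J, x e + ∑ e ∈ I \ J, x e + (∑ e ∈ I ∩ J, x e + ∑ e ∈ J \ I, x e) =
    (∑ e ∈ I ∩ J, x e + ∑ e ∈ I ∩ J, x e) + (∑ e ∈ I \ J, x e + ∑ e ∈ J \ I, x e) by abel]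
  rw [h4, zero_add]

/-- G1 -/
theorem e8_pairs {α : Type*} [Fintype α] [DecidableEq α] (x : α → Fin 4 → ZMod 2)
    (hE : ∑ e, x e = 0) (Y : Finset α) (hY : Y.card = 8) (hl : ∀ e, e ∉ Y → x e = 0)
    (hso : ∀ I J : Finset α, ∑ e ∈ I, x e = 0 → ∑ e ∈ J, x e = 0 → Even (Y ∩ I ∩ J).card)
    (hsep : ∀ e ∈ Y, ∀ e' ∈ Y, e ≠ e' → ∃ I : Finset α, ∑ e ∈ I, x e = 0 ∧ e ∈ I ∧ e' ∉ I) :
    (∀ I : Finset α, I ⊆ Y → ∑ e ∈ I, x e = 0 → I = ∅ ∨ I.card = 4 ∨ I = Y) ∧
    ∀ e ∈ Y, ∀ e' ∈ Y, e ≠ e' → ∃ I J : Finset α, I ⊆ Y ∧ J ⊆ Y ∧ ∑ e ∈ I, x e = 0 ∧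
      ∑ e ∈ J, x e = 0 ∧ I.card = 4 ∧ J.card = 4 ∧ I ∩ J = {e, e'} := by
  have hYs : ∑ e ∈ Y, x e = 0 := by
    rw [← hE]
    exact Finset.sum_subset (Finset.subset_univ Y) (fun e _ he => hl e he)
  have hsd : ∀ I : Finset α, I ⊆ Y → ∑ e ∈ I, x e = 0 → ∑ e ∈ Y \ I, x e = 0 := by
    intro I hI h
    have h1 := Finset.sum_sdiff (f := x) hI
    rw [h, hYs, add_zero] at h1
    exact h1
  have hev : ∀ I : Finset α, I ⊆ Y → ∑ e ∈ I, x e = 0 → Even I.card := by
    intro I hI h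
    have h1 := hso I Finset.univ h hE
    rwa [Finset.inter_univ, Finset.inter_eq_right.2 hI] at h1
  have hn2 : ∀ I : Finset α, I ⊆ Y → ∑ e ∈ I, x e = 0 → I.card ≠ 2 := by
    intro I hI h hc
    obtain ⟨e, e', hne, rfl⟩ := Finset.card_eq_two.1 hc
    have he : e ∈ Y := hI (by simp)
    have he' : e' ∈ Y := hI (by simp)
    obtain ⟨J, hJ, h1, h2⟩ := hsep e he e' he' hne
    have h3 := hso {e, e'} J h hJ
    have h4 : Y ∩ {e, e'} ∩ J = {e} := by
      ext a
      simp only [Finset.mem_inter, Finset.mem_insert, Finset.mem_singleton]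
      constructor
      · rintro ⟨⟨_, rfl | rfl⟩, h5⟩
        · rfl
        · exact absurd h5 h2
      · rintro rfl
        exact ⟨⟨he, Or.inl rfl⟩, h1⟩
    rw [h4, Finset.card_singleton] at h3
    exact absurd h3 (by decide)
  have part1 : ∀ I : Finset α, I ⊆ Y → ∑ e ∈ I, x e = 0 → I = ∅ ∨ I.card = 4 ∨ I = Y := by
    intro I hI h
    have h1 := hev I hI h
    have h2 := hn2 I hI h
    have h3 := hn2 (Y \ I) Finset.sdiff_subset (hsd I hI h)
    rw [Finset.card_sdiff_of_subset hI, hY] at h3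
    have h4 := Finset.card_le_card hI
    rw [hY] at h4
    rw [Nat.even_iff] at h1
    by_cases h5 : I.card = 0
    · left
      exact Finset.card_eq_zero.1 h5
    · by_cases h6 : I.card = 4
      · right; left; exact h6
      · right; right
        apply Finset.eq_of_subset_of_card_le hI
        rw [hY]
        omega
  refine ⟨part1, ?_⟩
  intro e he e' he' hne
  -- many codewords contain both points
  set T' := (Y.powerset).filter (fun K => ∑ e ∈ K, x e = 0 ∧ e ∈ K ∧ e' ∈ K) with hT'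
  have hT'card : 4 ≤ T'.card := by
    classical
    obtain ⟨y, _, hy⟩ := Finset.exists_le_card_fiber_of_mul_le_card_of_maps_to
      (s := Y.powerset) (t := (Finset.univ : Finset ((Fin 4 → ZMod 2) × Bool × Bool)))
      (f := fun I => (∑ e ∈ I, x e, decide (e ∈ I), decide (e' ∈ I))) (n := 4)
      (fun _ _ => Finset.mem_univ _) Finset.univ_nonempty (by
        rw [Finset.card_powerset, hY, Finset.card_univ]
        simp [Fintype.card_prod, ZMod.card])
    set T := (Y.powerset).filter (fun I =>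
      (∑ e ∈ I, x e, decide (e ∈ I), decide (e' ∈ I)) = y) with hT
    obtain ⟨I0, hI0⟩ : T.Nonempty := by
      rw [← Finset.card_pos]
      omega
    rw [hT, Finset.mem_filter, Finset.mem_powerset] at hI0
    have hsubY : ∀ I ∈ T, symmDiff I I0 ⊆ Y := by
      intro I hI
      rw [hT, Finset.mem_filter, Finset.mem_powerset] at hI
      intro a ha
      rw [Finset.mem_symmDiff] at ha
      rcases ha with ⟨h, _⟩ | ⟨h, _⟩
      · exact hI.1 h
      · exact hI0.1 h
    have himg : T.image (fun I => Y \ symmDiff I I0) ⊆ T' := by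
      intro K hK
      rw [Finset.mem_image] at hK
      obtain ⟨I, hI, rfl⟩ := hK
      have hs := hsubY I hI
      rw [hT, Finset.mem_filter, Finset.mem_powerset] at hI
      have heq := hI.2.trans hI0.2.symm
      rw [Prod.mk.injEq, Prod.mk.injEq] at heq
      obtain ⟨e1, e2, e3⟩ := heq
      rw [hT', Finset.mem_filter, Finset.mem_powerset]
      refine ⟨Finset.sdiff_subset, ?_, ?_, ?_⟩
      · apply hsd _ hs
        rw [G1_symm, e1]
        funext i
        exact CharTwo.add_self_eq_zero _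
      · rw [Finset.mem_sdiff, Finset.mem_symmDiff]
        refine ⟨he, ?_⟩
        rw [decide_eq_decide] at e2
        tauto
      · rw [Finset.mem_sdiff, Finset.mem_symmDiff]
        refine ⟨he', ?_⟩
        rw [decide_eq_decide] at e3
        tauto
    refine le_trans hy (le_trans (le_of_eq ?_) (Finset.card_le_card himg))
    rw [Finset.card_image_of_injOn]
    intro I hI J hJ hIJ
    have h1 := hsubY I hI
    have h2 := hsubY J hJ
    have h3 : symmDiff I I0 = symmDiff J I0 := by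
      have h4 : Y \ (Y \ symmDiff I I0) = Y \ (Y \ symmDiff J I0) := congrArg (fun K => Y \ K) hIJ
      rwa [Finset.sdiff_sdiff_eq_self h1, Finset.sdiff_sdiff_eq_self h2] at h4
    exact symmDiff_left_injective I0 h3
  have hc : 1 < (T'.erase Y).card := by
    have := Finset.pred_card_le_card_erase (s := T') (a := Y)
    omega
  obtain ⟨I, hI, J, hJ, hIJ⟩ := Finset.one_lt_card.1 hc
  have key : ∀ K ∈ T'.erase Y, K ⊆ Y ∧ ∑ e ∈ K, x e = 0 ∧ e ∈ K ∧ e' ∈ K ∧ K.card = 4 := by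
    intro K hK
    rw [Finset.mem_erase, hT', Finset.mem_filter, Finset.mem_powerset] at hK
    obtain ⟨h1, h2, h3, h4, h5⟩ := hK
    refine ⟨h2, h3, h4, h5, ?_⟩
    rcases part1 K h2 h3 with h | h | h
    · rw [h] at h4
      exact absurd h4 (Finset.notMem_empty _)
    · exact h
    · exact absurd h h1
  obtain ⟨a1, a2, a3, a4, a5⟩ := key I hI
  obtain ⟨b1, b2, b3, b4, b5⟩ := key J hJ
  refine ⟨I, J, a1, b1, a2, b2, a5, b5, ?_⟩
  have h1 := hso I J a2 b2
  rw [Finset.inter_eq_right.2 a1] at h1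
  have h2 : ({e, e'} : Finset α) ⊆ I ∩ J := by
    intro a ha
    rw [Finset.mem_insert, Finset.mem_singleton] at ha
    rw [Finset.mem_inter]
    rcases ha with rfl | rfl
    · exact ⟨a3, b3⟩
    · exact ⟨a4, b4⟩
  have h3 : ({e, e'} : Finset α).card = 2 := Finset.card_pair hne
  have h4 : (I ∩ J).card ≠ 4 := by
    intro h
    apply hIJ
    have h5 : I ∩ J = I := Finset.eq_of_subset_of_card_le Finset.inter_subset_left (by omega)
    have h6 : I ∩ J = J := Finset.eq_of_subset_of_card_le Finset.inter_subset_right (by omega)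
    rw [← h5]
    exact h6
  have h5 : (I ∩ J).card ≤ 4 := by
    rw [← a5]
    exact Finset.card_le_card Finset.inter_subset_left
  have h6 := Finset.card_le_card h2
  rw [Nat.even_iff] at h1
  symm
  apply Finset.eq_of_subset_of_card_le h2
  omega

end Pool.Agent.H169R3.KR
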