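import Mathlib
set_option autoImplicit false
open Finset

namespace Pool.Agent.H169R3.KR

/-- sum over symmetric difference plus twice the intersection -/
theorem G2_symm {α M : Type*} [DecidableEq α] [AddCommGroup M] (f : α → M) (I J : Finset α) :
    ∑ e ∈ symmDiff I J, f e + (∑ e ∈ I ∩ J, f e + ∑ e ∈ I ∩ J, f e)
      = ∑ e ∈ I, f e + ∑ e ∈ J, f e := by
  have h1 : ∑ e ∈ symmDiff I J, f e = ∑ e ∈ I \ J, f e + ∑ e ∈ J \ I, f e := by
    rw [symmDiff_def, Finset.sup_eq_union, Finset.sum_union]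
    exact disjoint_sdiff_sdiff
  have h2 := Finset.sum_inter_add_sum_sdiff I J f
  have h3 := Finset.sum_inter_add_sum_sdiff J I f
  rw [Finset.inter_comm J I] at h3
  rw [h1, ← h2, ← h3]
  abel

/-- G2 -/
theorem e8_weights {α : Type*} [Fintype α] [DecidableEq α] (x : α → Fin 4 → ZMod 2)
    (lam : α → ZMod 2) (w : α → ℚ) (hE : ∑ e, x e = 0)
    (hC : ∀ I : Finset α, ∑ e ∈ I, x e = 0 →
      ∃ m : ℤ, ∑ e ∈ I, w e = m ∧ (m : ZMod 2) = ∑ e ∈ I, lam e ∧ (I.Nonempty → 1 ≤ m))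
    (Y : Finset α) (hY : Y.card = 8) (hl : ∀ e, e ∉ Y → x e = 0)
    (hcw : ∀ I : Finset α, I ⊆ Y → ∑ e ∈ I, x e = 0 → I = ∅ ∨ I.card = 4 ∨ I = Y)
    (hpr : ∀ e ∈ Y, ∀ e' ∈ Y, e ≠ e' → ∃ I J : Finset α, I ⊆ Y ∧ J ⊆ Y ∧ ∑ e ∈ I, x e = 0 ∧
      ∑ e ∈ J, x e = 0 ∧ I.card = 4 ∧ J.card = 4 ∧ I ∩ J = {e, e'})
    (hni : ∀ e ∈ Y, ∀ m : ℤ, w e ≠ m) :
    8 - ∑ e ∈ Y, w e ≤ 4 ∨
    ∃ e0 ∈ Y, w e0 = -1 / 2 ∧ ∀ e ∈ Y, e ≠ e0 → w e = 1 / 2 := by
  classical
  have h2x : ∀ a : Fin 4 → ZMod 2, a + a = 0 := by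
    intro a; funext i; simp only [Pi.add_apply, Pi.zero_apply]; generalize a i = b; revert b; decide
  have h2l : ∀ a : ZMod 2, a + a = 0 := by decide
  -- Y is a codeword
  have hYx : ∑ e ∈ Y, x e = 0 := by
    rw [← hE]
    apply Finset.sum_subset (Finset.subset_univ Y)
    intro e _ he
    exact hl e he
  -- symmetric differences
  have hsd : ∀ I J : Finset α, ∑ e ∈ I, x e = 0 → ∑ e ∈ J, x e = 0 →
      ∑ e ∈ symmDiff I J, x e = 0 := by
    intro I J hI hJ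
    have := G2_symm x I J
    rw [hI, hJ, h2x, add_zero, add_zero] at this
    exact this
  -- pair data
  have hpair : ∀ e ∈ Y, ∀ e' ∈ Y, e ≠ e' → ∃ I J : Finset α, I ⊆ Y ∧ J ⊆ Y ∧
      ∑ e ∈ I, x e = 0 ∧ ∑ e ∈ J, x e = 0 ∧ ∑ e ∈ symmDiff I J, x e = 0 ∧
      I.card = 4 ∧ J.card = 4 ∧ (symmDiff I J).card = 4 ∧ symmDiff I J ⊆ Y ∧
      ∃ z : ℤ, w e + w e' = z ∧
      2 * (w e + w e') = ∑ e ∈ I, w e + ∑ e ∈ J, w e - ∑ e ∈ symmDiff I J, w e := by
    intro e he e' he' hne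
    obtain ⟨I, J, hIY, hJY, hI, hJ, hIc, hJc, hIJ⟩ := hpr e he e' he' hne
    have hS := hsd I J hI hJ
    have hSY : symmDiff I J ⊆ Y := by
      intro a ha
      rw [Finset.mem_symmDiff] at ha
      rcases ha with ha | ha
      · exact hIY ha.1
      · exact hJY ha.1
    have hcard : (symmDiff I J).card = 4 := by
      have h1 := G2_symm (fun _ : α => (1 : ℤ)) I J
      simp only [Finset.sum_const, smul_eq_mul, nsmul_eq_mul, mul_one] at h1
      rw [hIJ, Finset.card_pair hne, hIc, hJc] at h1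
      push_cast at h1
      omega
    have hw := G2_symm w I J
    rw [hIJ, Finset.sum_pair hne] at hw
    obtain ⟨m1, hm1, hp1, -⟩ := hC I hI
    obtain ⟨m2, hm2, hp2, -⟩ := hC J hJ
    obtain ⟨m3, hm3, hp3, -⟩ := hC _ hS
    have hlam := G2_symm lam I J
    rw [h2l, add_zero] at hlam
    have hpar : ((m1 + m2 - m3 : ℤ) : ZMod 2) = 0 := by
      push_cast
      rw [hp1, hp2, hp3, hlam]
      ring
    rw [ZMod.intCast_zmod_eq_zero_iff_dvd] at hpar
    obtain ⟨z, hz⟩ := hpar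
    refine ⟨I, J, hIY, hJY, hI, hJ, hS, hIc, hJc, hcard, hSY, z, ?_, ?_⟩
    · rw [hm1, hm2, hm3] at hw
      have hz' : ((m1 + m2 - m3 : ℤ) : ℚ) = ((2 : ℕ) : ℤ) * z := by exact_mod_cast hz
      push_cast at hz'
      linarith
    · linarith
  -- each 2w is an integer and t integral
  have hY2 : ∀ e ∈ Y, ∃ e1 ∈ Y, ∃ e2 ∈ Y, e ≠ e1 ∧ e ≠ e2 ∧ e1 ≠ e2 := by
    intro e he
    have h1 : 1 < (Y.erase e).card := by
      rw [Finset.card_erase_of_mem he, hY]; norm_num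
    obtain ⟨e1, h1, e2, h2, h12⟩ := Finset.one_lt_card.mp h1
    exact ⟨e1, Finset.mem_of_mem_erase h1, e2, Finset.mem_of_mem_erase h2,
      (Finset.ne_of_mem_erase h1).symm, (Finset.ne_of_mem_erase h2).symm, h12⟩
  have ht : ∀ e ∈ Y, ∃ t : ℤ, w e = 1 / 2 - t := by
    intro e he
    obtain ⟨e1, h1, e2, h2, h01, h02, h12⟩ := hY2 e he
    obtain ⟨_, _, _, _, _, _, _, _, _, _, _, z1, hz1, _⟩ := hpair e he e1 h1 h01
    obtain ⟨_, _, _, _, _, _, _, _, _, _, _, z2, hz2, _⟩ := hpair e he e2 h2 h02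
    obtain ⟨_, _, _, _, _, _, _, _, _, _, _, z3, hz3, _⟩ := hpair e1 h1 e2 h2 h12
    have h2w : 2 * w e = ((z1 + z2 - z3 : ℤ) : ℚ) := by push_cast; linarith
    rcases Int.even_or_odd' (z1 + z2 - z3) with ⟨k, hk | hk⟩
    · exfalso
      apply hni e he k
      rw [hk] at h2w
      push_cast at h2w
      linarith
    · refine ⟨-k, ?_⟩
      rw [hk] at h2w
      push_cast at h2w ⊢
      linarith
  have ht' : ∀ e, ∃ t : ℤ, e ∈ Y → w e = 1 / 2 - t := by
    intro e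
    by_cases he : e ∈ Y
    · obtain ⟨t, h⟩ := ht e he
      exact ⟨t, fun _ => h⟩
    · exact ⟨0, fun h => absurd h he⟩
  choose t htw using ht'
  have hsum : ∀ I : Finset α, I ⊆ Y → ∑ e ∈ I, w e = I.card * (1 / 2) - ((∑ e ∈ I, t e : ℤ) : ℚ) := by
    intro I hI
    rw [Finset.sum_congr rfl (fun e he => htw e (hI he))]
    rw [Finset.sum_sub_distrib, Finset.sum_const]
    push_cast
    simp
  -- four-codewords have t ≤ 1
  have h4 : ∀ I : Finset α, I ⊆ Y → ∑ e ∈ I, x e = 0 → I.card = 4 → ∑ e ∈ I, t e ≤ 1 := by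
    intro I hI hx hc
    obtain ⟨m, hm, _, hpos⟩ := hC I hx
    have h1 := hpos (Finset.card_pos.mp (by omega))
    have h2 := hsum I hI
    rw [hm, hc] at h2
    have h3 : (m : ℚ) = ((2 - ∑ e ∈ I, t e : ℤ) : ℚ) := by
      rw [h2]; push_cast; ring
    have h5 : m = 2 - ∑ e ∈ I, t e := by exact_mod_cast h3
    omega
  have hcompl : ∀ I : Finset α, I ⊆ Y → ∑ e ∈ I, x e = 0 → I.card = 4 →
      ∑ e ∈ Y \ I, x e = 0 ∧ (Y \ I).card = 4 ∧ ∑ e ∈ I, t e + ∑ e ∈ Y \ I, t e = ∑ e ∈ Y, t e := by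
    intro I hI hx hc
    refine ⟨?_, ?_, ?_⟩
    · have := Finset.sum_sdiff (f := x) hI
      rw [hx, add_zero, hYx] at this
      exact this
    · rw [Finset.card_sdiff_of_subset hI]; omega
    · have := Finset.sum_sdiff (f := t) hI
      omega
  have hYs := hsum Y (Finset.Subset.refl Y)
  rw [hY] at hYs
  by_cases hT : ∑ e ∈ Y, t e ≤ 0
  · left
    rw [hYs]
    have : ((∑ e ∈ Y, t e : ℤ) : ℚ) ≤ 0 := by exact_mod_cast hT
    push_cast at this ⊢
    linarith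
  · right
    push Not at hT
    -- pair sums in {0,1}
    have key : ∀ e ∈ Y, ∀ e' ∈ Y, e ≠ e' → (t e + t e' = 0 ∨ t e + t e' = 1) ∧
        ∑ e ∈ Y, t e = 1 := by
      intro e he e' he' hne
      obtain ⟨I, J, hIY, hJY, hI, hJ, hS, hIc, hJc, hSc, hSY, z, hz, h2⟩ := hpair e he e' he' hne
      have a1 := h4 I hIY hI hIc
      have a2 := h4 J hJY hJ hJc
      have a3 := h4 _ hSY hS hSc
      obtain ⟨b1, c1, d1⟩ := hcompl I hIY hI hIc
      obtain ⟨b2, c2, d2⟩ := hcompl J hJY hJ hJc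
      obtain ⟨b3, c3, d3⟩ := hcompl _ hSY hS hSc
      have e1 := h4 _ Finset.sdiff_subset b1 c1
      have e2 := h4 _ Finset.sdiff_subset b2 c2
      have e3 := h4 _ Finset.sdiff_subset b3 c3
      have h5 : 2 * (t e + t e') = ∑ e ∈ I, t e + ∑ e ∈ J, t e - ∑ e ∈ symmDiff I J, t e := by
        have h6 := hsum I hIY
        have h7 := hsum J hJY
        have h8 := hsum _ hSY
        rw [h6, h7, h8, htw e he, htw e' he', hIc, hJc, hSc] at h2
        have h9 : ((2 * (t e + t e') : ℤ) : ℚ) =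
            ((∑ e ∈ I, t e + ∑ e ∈ J, t e - ∑ e ∈ symmDiff I J, t e : ℤ) : ℚ) := by
          push_cast at h2 ⊢
          linarith
        exact_mod_cast h9
      constructor
      · omega
      · omega
    have hYne : Y.Nonempty := Finset.card_pos.mp (by omega)
    obtain ⟨a, ha⟩ := hYne
    obtain ⟨b, hb, c, hc, hab, hac, hbc⟩ := hY2 a ha
    have hT1 : ∑ e ∈ Y, t e = 1 := (key a ha b hb hab).2
    -- some t is positive
    obtain ⟨e0, he0, hpos⟩ : ∃ e0 ∈ Y, 1 ≤ t e0 := by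
      by_contra hcon
      push Not at hcon
      have : ∑ e ∈ Y, t e ≤ 0 := Finset.sum_nonpos (fun e he => by have := hcon e he; omega)
      omega
    have hz : ∀ e ∈ Y, e ≠ e0 → t e = 0 := by
      intro e he hne
      have k1 := (key e he e0 he0 hne).1
      by_contra hcon
      have hneg : t e ≤ -1 := by omega
      -- a third element
      have h1 : 0 < ((Y.erase e0).erase e).card := by
        rw [Finset.card_erase_of_mem (Finset.mem_erase.mpr ⟨hne, he⟩),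
          Finset.card_erase_of_mem he0, hY]; norm_num
      obtain ⟨e2, he2⟩ := Finset.card_pos.mp h1
      rw [Finset.mem_erase, Finset.mem_erase] at he2
      have k2 := (key e2 he2.2.2 e0 he0 he2.2.1).1
      have k3 := (key e2 he2.2.2 e he he2.1).1
      omega
    have ht0 : t e0 = 1 := by
      rw [← hT1]
      symm
      apply Finset.sum_eq_single_of_mem e0 he0
      intro e he hne
      exact hz e he hne
    refine ⟨e0, he0, ?_, ?_⟩
    · rw [htw e0 he0, ht0]; norm_num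
    · intro e he hne
      rw [htw e he, hz e he hne]; norm_num

end Pool.Agent.H169R3.KR
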