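import Mathlib
import Pool.Agent.H169R3.KR.F4
import Pool.Agent.H169R3.KR.G1
import Pool.Agent.H169R3.KR.G2
set_option autoImplicit false
open Finset

namespace Pool.Agent.H169R3.KR

/-- G3 -/
theorem excess (α : Type*) [Fintype α] [DecidableEq α] (x : α → Fin 4 → ZMod 2)
    (lam : α → ZMod 2) (w : α → ℚ) (hE : ∑ e, x e = 0)
    (hC : ∀ I : Finset α, ∑ e ∈ I, x e = 0 →
      ∃ m : ℤ, ∑ e ∈ I, w e = m ∧ (m : ZMod 2) = ∑ e ∈ I, lam e ∧ (I.Nonempty → 1 ≤ m))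
    (hloop : ∀ e, x e = 0 → w e ≠ 1) :
    (Fintype.card α : ℚ) - ∑ e, w e ≤ 5 ∧
    ((Fintype.card α : ℚ) - ∑ e, w e = 5 → Fintype.card α = 8 ∧
      (∃ e0, w e0 = -1 / 2 ∧ ∀ e, e ≠ e0 → w e = 1 / 2) ∧
      ∀ e e' : α, e ≠ e' → ∃ I J : Finset α, ∑ e ∈ I, x e = 0 ∧ ∑ e ∈ J, x e = 0 ∧
        I ∩ J = {e, e'}) := by
  rcases classify x lam w hE hC with h | ⟨Y, hY, hl, hso, hsep, hni⟩
  · exact ⟨by linarith, fun h5 => by linarith⟩
  obtain ⟨hcw, hpr⟩ := e8_pairs x hE Y hY hl hso hsep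
  have hw2 : ∀ e ∈ Yᶜ, (2 : ℚ) ≤ w e := by
    intro e he
    rw [mem_compl] at he
    obtain ⟨m, hm, -, hm1⟩ := hC {e} (by rw [sum_singleton]; exact hl e he)
    rw [sum_singleton] at hm
    have h1 : 1 ≤ m := hm1 (singleton_nonempty e)
    have h2 : m ≠ 1 := by
      rintro rfl
      exact hloop e (hl e he) (by rw [hm]; norm_num)
    have h3 : (2 : ℤ) ≤ m := by omega
    rw [hm]
    exact_mod_cast h3
  have hk : (Fintype.card α : ℚ) = 8 + (Yᶜ.card : ℚ) := by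
    have h1 : Y.card + Yᶜ.card = Fintype.card α := card_add_card_compl Y
    rw [hY] at h1
    exact_mod_cast h1.symm
  have hsum : ∑ e, w e = ∑ e ∈ Y, w e + ∑ e ∈ Yᶜ, w e := (sum_add_sum_compl Y w).symm
  have hge : (2 : ℚ) * (Yᶜ.card : ℚ) ≤ ∑ e ∈ Yᶜ, w e := by
    have h1 := card_nsmul_le_sum Yᶜ w 2 hw2
    rw [nsmul_eq_mul] at h1
    linarith
  have hk0 : (0 : ℚ) ≤ (Yᶜ.card : ℚ) := Nat.cast_nonneg _
  rcases e8_weights x lam w hE hC Y hY hl hcw hpr hni with h | ⟨e0, he0, hw0, hw1⟩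
  · exact ⟨by linarith, fun h5 => by linarith⟩
  have hY3 : ∑ e ∈ Y, w e = 3 := by
    rw [← add_sum_erase Y w he0, hw0, sum_congr rfl (fun e he =>
      hw1 e (mem_of_mem_erase he) (ne_of_mem_erase he)), sum_const, card_erase_of_mem he0, hY]
    norm_num
  refine ⟨by linarith, fun h5 => ?_⟩
  have hk1 : (Yᶜ.card : ℚ) = 0 := by linarith
  have hk2 : Yᶜ = ∅ := by
    rw [← card_eq_zero]
    exact_mod_cast hk1
  have hYu : ∀ e, e ∈ Y := by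
    intro e
    by_contra h1
    have h2 : e ∈ Yᶜ := mem_compl.2 h1
    rw [hk2] at h2
    exact notMem_empty e h2
  refine ⟨?_, ⟨e0, hw0, fun e he => hw1 e (hYu e) he⟩, fun e e' hne => ?_⟩
  · have h1 : (Fintype.card α : ℚ) = 8 := by rw [hk, hk1, add_zero]
    exact_mod_cast h1
  · obtain ⟨I, J, -, -, h1, h2, -, -, h3⟩ := hpr e (hYu e) e' (hYu e') hne
    exact ⟨I, J, h1, h2, h3⟩

end Pool.Agent.H169R3.KR
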