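import Mathlib
import Pool.Agent.H169R3.KR.B3
import Pool.Agent.H169R3.KR.C5
import Pool.Agent.H169R3.KR.D1
import Pool.Agent.H169R3.KR.G3
set_option autoImplicit false
open Finset

namespace Pool.Agent.H169R3.KR

/-- sum over a symmetric difference -/
theorem H1_symm {α G : Type*} [DecidableEq α] [AddCommGroup G] (g : α → G) (I J : Finset α)
    (e e' : α) (hee : e ≠ e') (hIJ : I ∩ J = {e, e'}) :
    ∑ i ∈ symmDiff I J, g i = ∑ i ∈ I, g i + ∑ i ∈ J, g i - (2 : ℕ) • (g e + g e') := by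
  have h1 : ∑ i ∈ I ∩ J, g i = g e + g e' := by
    rw [hIJ, Finset.sum_pair hee]
  have h2 : ∑ i ∈ I \ J, g i + ∑ i ∈ I ∩ J, g i = ∑ i ∈ I, g i := by
    rw [← Finset.sum_union (Finset.disjoint_sdiff_inter I J), Finset.sdiff_union_inter]
  have h3 : ∑ i ∈ J \ I, g i + ∑ i ∈ I ∩ J, g i = ∑ i ∈ J, g i := by
    rw [Finset.inter_comm, ← Finset.sum_union (Finset.disjoint_sdiff_inter J I),
      Finset.sdiff_union_inter]
  have h4 : ∑ i ∈ symmDiff I J, g i = ∑ i ∈ I \ J, g i + ∑ i ∈ J \ I, g i := by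
    rw [symmDiff_def, Finset.sup_eq_union, Finset.sum_union]
    exact disjoint_sdiff_sdiff
  rw [h4, ← h2, ← h3, ← h1, two_nsmul]
  abel

theorem H1_core (p : ℕ) [Fact p.Prime] (hp : 2000 < p) {α : Type*} [Fintype α] [DecidableEq α]
    (x : α → Fin 4 → ZMod 2) (w : α → ℚ) (c : α → ZMod p) (a' : Finset α → ℕ)
    (hw : ∀ I : Finset α, ∑ e ∈ I, x e = 0 → ∑ e ∈ I, w e = (a' I : ℚ))
    (hc : ∀ I : Finset α, ∑ e ∈ I, x e = 0 → ∑ e ∈ I, c e = (a' I : ZMod p))
    (hcard : Fintype.card α = 8) (e0 : α) (hw0 : w e0 = -1 / 2)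
    (hw1 : ∀ e, e ≠ e0 → w e = 1 / 2)
    (hpair : ∀ e e' : α, e ≠ e' → ∃ I J : Finset α, ∑ e ∈ I, x e = 0 ∧ ∑ e ∈ J, x e = 0 ∧
        I ∩ J = {e, e'}) :
    c e0 = -2⁻¹ ∧ ∀ e, e ≠ e0 → c e = 2⁻¹ := by
  have h20 : (2 : ZMod p) ≠ 0 := by
    intro h
    have h' : ((2 : ℕ) : ZMod p) = 0 := by exact_mod_cast h
    rw [ZMod.natCast_eq_zero_iff] at h'
    have := Nat.le_of_dvd (by norm_num) h'
    omega
  -- transfer of the pair sums
  have key : ∀ e e' : α, e ≠ e' → ∀ k : ℤ, 2 * (w e + w e') = k →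
      2 * (c e + c e') = (k : ZMod p) := by
    intro e e' hee k hk
    obtain ⟨I, J, hI, hJ, hIJ⟩ := hpair e e' hee
    have hx : ∑ i ∈ symmDiff I J, x i = 0 := by
      rw [H1_symm x I J e e' hee hIJ, hI, hJ]
      have : (2 : ℕ) • (x e + x e') = 0 := by
        funext j
        show (2 : ℕ) • ((x e + x e') j) = 0
        generalize (x e + x e') j = z
        revert z
        decide
      rw [this]
      simp
    have q1 := H1_symm w I J e e' hee hIJ
    rw [hw I hI, hw J hJ, hw _ hx] at q1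
    have q2 := H1_symm c I J e e' hee hIJ
    rw [hc I hI, hc J hJ, hc _ hx] at q2
    have q3 : (k : ℚ) = ((a' I : ℤ) + (a' J : ℤ) - (a' (symmDiff I J) : ℤ) : ℤ) := by
      rw [← hk]
      push_cast
      rw [q1]
      simp only [nsmul_eq_mul]
      push_cast
      ring
    have q4 : k = (a' I : ℤ) + (a' J : ℤ) - (a' (symmDiff I J) : ℤ) := by exact_mod_cast q3
    rw [q4]
    push_cast
    rw [q2]
    simp only [nsmul_eq_mul]
    push_cast
    ring
  have hone : ∀ e e' : α, e ≠ e' → e ≠ e0 → e' ≠ e0 → c e + c e' = 1 := by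
    intro e e' hee h1 h2
    have h3 := key e e' hee 2 (by rw [hw1 e h1, hw1 e' h2]; norm_num)
    have h4 : (2 : ZMod p) * (c e + c e') = 2 * 1 := by
      rw [h3]
      push_cast
      ring
    exact mul_left_cancel₀ h20 h4
  have hzero : ∀ e : α, e ≠ e0 → c e + c e0 = 0 := by
    intro e h1
    have h3 := key e e0 h1 0 (by rw [hw1 e h1, hw0]; norm_num)
    have h4 : (2 : ZMod p) * (c e + c e0) = 2 * 0 := by
      rw [h3]
      push_cast
      ring
    exact mul_left_cancel₀ h20 h4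
  have hhalf : ∀ e, e ≠ e0 → c e = 2⁻¹ := by
    intro e he
    obtain ⟨e', he'⟩ : ∃ e', e' ∉ ({e, e0} : Finset α) := by
      by_contra hcon
      push Not at hcon
      have : (Finset.univ : Finset α).card ≤ ({e, e0} : Finset α).card :=
        Finset.card_le_card fun z _ => hcon z
      rw [Finset.card_univ, hcard] at this
      have h5 : ({e, e0} : Finset α).card ≤ 2 := Finset.card_le_two
      omega
    obtain ⟨e'', he''⟩ : ∃ e'', e'' ∉ ({e, e0, e'} : Finset α) := by
      by_contra hcon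
      push Not at hcon
      have : (Finset.univ : Finset α).card ≤ ({e, e0, e'} : Finset α).card :=
        Finset.card_le_card fun z _ => hcon z
      rw [Finset.card_univ, hcard] at this
      have h5 : ({e, e0, e'} : Finset α).card ≤ 3 := Finset.card_le_three
      omega
    simp only [Finset.mem_insert, Finset.mem_singleton, not_or] at he' he''
    have g1 := hone e e' (Ne.symm he'.1) he he'.2
    have g2 := hone e e'' (Ne.symm he''.1) he he''.2.1
    have g3 := hone e' e'' (Ne.symm he''.2.2) he'.2 he''.2.1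
    have g4 : (2 : ZMod p) * c e = 1 := by linear_combination g1 + g2 - g3
    exact eq_inv_of_mul_eq_one_right g4
  refine ⟨?_, hhalf⟩
  obtain ⟨e', he'⟩ : ∃ e', e' ∉ ({e0} : Finset α) := by
    by_contra hcon
    push Not at hcon
    have : (Finset.univ : Finset α).card ≤ ({e0} : Finset α).card :=
      Finset.card_le_card fun z _ => hcon z
    rw [Finset.card_univ, hcard, Finset.card_singleton] at this
    omega
  rw [Finset.mem_singleton] at he'
  have g1 := hzero e' he'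
  rw [hhalf e' he'] at g1
  linear_combination g1

theorem structure_idx : ∃ N : ℕ, ∀ (p : ℕ) [Fact p.Prime], N ≤ p → ∀ (n : ℕ)
    (v : Fin n → (Fin 5 → ZMod 2)) (y : Fin n → ZMod p) (hn : 2 * p + 4 ≤ n)
    (hv0 : ∑ i, v i = 0) (hy0 : ∑ i, y i = 0)
    (hmin : ∀ I : Finset (Fin n), I.Nonempty → ∑ i ∈ I, v i = 0 → ∑ i ∈ I, y i = 0 →
      I = Finset.univ),
    n ≤ 2 * p + 5 ∧
    (n = 2 * p + 5 → ∃ u : ZMod p, u ≠ 0 ∧ ∃ (E : Finset (Fin n)) (e0 : Fin n), E.card = 8 ∧
      e0 ∈ E ∧ y e0 = -(u * 2⁻¹) ∧ (∀ e ∈ E, e ≠ e0 → y e = u * 2⁻¹) ∧ ∀ e, e ∉ E → y e = u) ∧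
    ∃ u : ZMod p, u ≠ 0 ∧ (Finset.univ.filter fun i => y i ≠ u).card ≤ 122 := by
  classical
  obtain ⟨N0, hN0⟩ := lift 154
  refine ⟨max N0 2001, fun p _ hNp n v y hn hv0 hy0 hmin => ?_⟩
  have hp : 2000 < p := by
    have := le_trans (le_max_right N0 2001) hNp
    omega
  have hN0p : N0 ≤ p := le_trans (le_max_left _ _) hNp
  have hn' : 2 * p + 4 ≤ Fintype.card (Fin n) := by rwa [Fintype.card_fin]
  obtain ⟨γ, hγ, hcount⟩ := gamma_structure p hp v y hn' hv0 hy0 hmin
  obtain ⟨E, x, lam, a, h1, h2, h3, h4, h5, h6⟩ :=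
    reduce p hp v y hn' hv0 hy0 hmin γ hγ hcount
  rw [Fintype.card_fin] at h5
  -- the enumeration of `E`
  let emb : Fin E.card ↪ Fin n := (E.equivFin.symm.toEmbedding).trans (Function.Embedding.subtype _)
  have hembE : ∀ i, emb i ∈ E := fun i => (E.equivFin.symm i).2
  have hembsurj : ∀ e ∈ E, ∃ i, emb i = e := by
    intro e he
    refine ⟨E.equivFin ⟨e, he⟩, ?_⟩
    show ((E.equivFin.symm (E.equivFin ⟨e, he⟩)) : Fin n) = e
    rw [Equiv.symm_apply_apply]
  have hsub : ∀ I : Finset (Fin E.card), I.map emb ⊆ E := by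
    intro I z hz
    obtain ⟨i, -, rfl⟩ := Finset.mem_map.1 hz
    exact hembE i
  have huniv : (Finset.univ : Finset (Fin E.card)).map emb = E := by
    refine Finset.Subset.antisymm (hsub _) fun e he => ?_
    obtain ⟨i, rfl⟩ := hembsurj e he
    exact Finset.mem_map_of_mem _ (Finset.mem_univ i)
  set a' : Finset (Fin E.card) → ℕ := fun I => a (I.map emb) with ha'
  set c : Fin E.card → ZMod p := fun i => γ⁻¹ * y (emb i) with hc
  have hxs : ∀ I : Finset (Fin E.card), ∑ i ∈ I, x (emb i) = 0 →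
      ∑ i ∈ I.map emb, x i = 0 := by
    intro I hI
    rw [Finset.sum_map]
    exact hI
  have hcI : ∀ I : Finset (Fin E.card), ∑ i ∈ I, x (emb i) = 0 →
      ∑ i ∈ I, c i = (a' I : ZMod p) := by
    intro I hI
    rw [ha']
    show _ = ((a (I.map emb) : ℕ) : ZMod p)
    rw [(h4 (I.map emb) (hsub I) (hxs I hI)).2.1, Finset.sum_map]
  obtain ⟨w, hw⟩ := hN0 p hN0p E.card h1
    (Finset.univ.filter fun I : Finset (Fin E.card) => ∑ i ∈ I, x (emb i) = 0) a'
    (fun I hI => (h4 (I.map emb) (hsub I) (hxs I (Finset.mem_filter.1 hI).2)).2.2.2) c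
    (fun I hI => hcI I (Finset.mem_filter.1 hI).2)
  have hw' : ∀ I : Finset (Fin E.card), ∑ i ∈ I, x (emb i) = 0 → ∑ i ∈ I, w i = (a' I : ℚ) :=
    fun I hI => hw I (Finset.mem_filter.2 ⟨Finset.mem_univ _, hI⟩)
  have hE0 : ∑ e : Fin E.card, x (emb e) = 0 := by
    have := Finset.sum_map Finset.univ emb x
    rw [huniv, h3] at this
    exact this.symm
  obtain ⟨g1, g2⟩ := excess (Fin E.card) (fun e => x (emb e)) (fun e => lam (emb e)) w hE0
    (fun I hI => ⟨(a' I : ℤ), by rw [hw' I hI]; push_cast; rfl, by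
      have h7 := (h4 (I.map emb) (hsub I) (hxs I hI)).1
      rw [Finset.sum_map] at h7
      rw [← h7]
      push_cast
      rfl, fun hne => by
      have h7 := (h4 (I.map emb) (hsub I) (hxs I hI)).2.2.1 (hne.map)
      exact_mod_cast h7⟩)
    (fun e he hwe => by
      have h7 := hw' {e} (by rw [Finset.sum_singleton]; exact he)
      rw [Finset.sum_singleton, hwe] at h7
      have h8 : a' {e} = 1 := by exact_mod_cast h7.symm
      have h9 := h6 (emb e) (hembE e) he
      rw [ha'] at h8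
      have h10 : ({e} : Finset (Fin E.card)).map emb = {emb e} := Finset.map_singleton _ _
      apply h9
      rw [← h10]
      exact h8)
  have hsum : ∑ e, w e = (a E : ℚ) := by
    have h7 := hw' Finset.univ hE0
    rw [h7, ha']
    show ((a (Finset.univ.map emb) : ℕ) : ℚ) = _
    rw [huniv]
  rw [Fintype.card_fin, hsum] at g1 g2
  have h5q : (E.card : ℚ) + 2 * p = n + a E := by exact_mod_cast h5
  refine ⟨?_, ?_, ⟨γ, hγ, hcount⟩⟩
  · have : (n : ℚ) ≤ 2 * p + 5 := by linarith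
    exact_mod_cast this
  · intro hneq
    have hnq : (n : ℚ) = 2 * p + 5 := by exact_mod_cast hneq
    obtain ⟨k1, ⟨e0, k2, k3⟩, k4⟩ := g2 (by linarith)
    obtain ⟨c0, c1⟩ := H1_core p hp (fun e => x (emb e)) w c a' hw' hcI
      (by rw [Fintype.card_fin]; exact k1) e0 k2 k3 k4
    have hyc : ∀ i, y (emb i) = γ * c i := by
      intro i
      rw [hc]
      show _ = γ * (γ⁻¹ * y (emb i))
      rw [← mul_assoc, mul_inv_cancel₀ hγ, one_mul]
    refine ⟨γ, hγ, E, emb e0, k1, hembE e0, ?_, ?_, h2⟩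
    · rw [hyc, c0]
      ring
    · intro e he hne
      obtain ⟨i, rfl⟩ := hembsurj e he
      rw [hyc, c1 i (fun h => hne (by rw [h]))]

end Pool.Agent.H169R3.KR
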