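import Mathlib
set_option autoImplicit false
open Finset

namespace Pool.Agent.H169R3.KR

/-- minimal zero-sum multiset -/
def IsAt {G : Type} [AddCommGroup G] (A : Multiset G) : Prop :=
  A ≠ 0 ∧ A.sum = 0 ∧ ∀ B : Multiset G, B ≤ A → B ≠ 0 → B.sum = 0 → B = A

end Pool.Agent.H169R3.KR
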