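import Mathlib
import Pool.Agent.H169R3.KR.I0
import Pool.Agent.H169R3.KR.H1
set_option autoImplicit false
open Finset

namespace Pool.Agent.H169R3.KR

private theorem I1_rep {G : Type} (l : List G) :
    (l : Multiset G) = (Finset.univ : Finset (Fin l.length)).val.map l.get := by
  have h1 : (Finset.univ : Finset (Fin l.length)).val = ((List.finRange l.length : List _) :
      Multiset (Fin l.length)) := rfl
  rw [h1, Multiset.map_coe, ← List.ofFn_eq_map, List.ofFn_get]

/-- I1 -/
theorem structure_ms : ∃ N : ℕ, ∀ (p : ℕ) [Fact p.Prime], N ≤ p →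
    ∀ A : Multiset ((Fin 5 → ZMod 2) × ZMod p), IsAt A →
      Multiset.card A ≤ 2 * p + 5 ∧
      (Multiset.card A = 2 * p + 5 → ∃ u : ZMod p, u ≠ 0 ∧
        A.map Prod.snd = Multiset.replicate (2 * p - 3) u + Multiset.replicate 7 (u * 2⁻¹)
          + {-(u * 2⁻¹)}) ∧
      (Multiset.card A = 2 * p + 4 → ∃ u : ZMod p, u ≠ 0 ∧
        2 * p + 4 ≤ (A.map Prod.snd).count u + 122) := by
  classical
  obtain ⟨N, hN⟩ := structure_idx
  refine ⟨N, ?_⟩
  intro p _ hp A hA
  by_cases hn : 2 * p + 4 ≤ Multiset.card A
  swap
  · exact ⟨by omega, fun h => by omega, fun h => by omega⟩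
  obtain ⟨l, rfl⟩ := Quot.exists_rep A
  have hl : (Quot.mk _ l : Multiset ((Fin 5 → ZMod 2) × ZMod p)) = (l : Multiset _) := rfl
  rw [hl] at hA hn ⊢
  rw [Multiset.coe_card] at hn
  have hrep := I1_rep l
  set f : Fin l.length → (Fin 5 → ZMod 2) × ZMod p := l.get with hf
  have hsum : ∑ i, f i = 0 := by
    have h1 := hA.2.1
    rw [hrep] at h1
    exact h1
  have hfst : ∀ I : Finset (Fin l.length), ∑ i ∈ I, (f i).1 = (∑ i ∈ I, f i).1 := by
    intro I
    exact (Prod.fst_sum).symm
  have hsnd : ∀ I : Finset (Fin l.length), ∑ i ∈ I, (f i).2 = (∑ i ∈ I, f i).2 := by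
    intro I
    exact (Prod.snd_sum).symm
  have hv0 : ∑ i, (f i).1 = 0 := by rw [hfst, hsum]; rfl
  have hy0 : ∑ i, (f i).2 = 0 := by rw [hsnd, hsum]; rfl
  have hmin : ∀ I : Finset (Fin l.length), I.Nonempty → ∑ i ∈ I, (f i).1 = 0 →
      ∑ i ∈ I, (f i).2 = 0 → I = Finset.univ := by
    intro I hI h1 h2
    have hle : I.val.map f ≤ (l : Multiset ((Fin 5 → ZMod 2) × ZMod p)) := by
      rw [hrep]
      exact Multiset.map_le_map (Finset.val_le_iff.mpr (Finset.subset_univ I))
    have hne : I.val.map f ≠ 0 := by
      intro h0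
      have h3 : Multiset.card (I.val.map f) = 0 := by rw [h0]; rfl
      rw [Multiset.card_map] at h3
      exact hI.card_pos.ne' h3
    have hs : (I.val.map f).sum = 0 := by
      change ∑ i ∈ I, f i = 0
      apply Prod.ext
      · rw [← hfst, h1]; rfl
      · rw [← hsnd, h2]; rfl
    have heq := hA.2.2 _ hle hne hs
    have hc : I.card = l.length := by
      have h3 := congrArg Multiset.card heq
      rw [Multiset.card_map, Multiset.coe_card] at h3
      exact h3
    apply Finset.eq_univ_of_card
    rw [hc, Fintype.card_fin]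
  obtain ⟨h1, h2, h3⟩ := hN p hp l.length (fun i => (f i).1) (fun i => (f i).2) hn hv0 hy0 hmin
  have hmap : (l : Multiset ((Fin 5 → ZMod 2) × ZMod p)).map Prod.snd =
      (Finset.univ : Finset (Fin l.length)).val.map (fun i => (f i).2) := by
    rw [hrep, Multiset.map_map]
    rfl
  rw [hmap, Multiset.coe_card]
  refine ⟨h1, ?_, ?_⟩
  · intro hc
    obtain ⟨u, hu, E, e0, hE, he0, hye0, hyE, hy⟩ := h2 hc
    refine ⟨u, hu, ?_⟩
    have hs1 : (Finset.univ : Finset (Fin l.length)).val = (Finset.univ \ E).val + E.val := by
      rw [Finset.sdiff_val]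
      exact (tsub_add_cancel_of_le (Finset.val_le_iff.mpr (Finset.subset_univ E))).symm
    have hs2 : E.val = (E.erase e0).val + {e0} := by
      rw [Finset.erase_val, add_comm, Multiset.singleton_add]
      exact (Multiset.cons_erase (Finset.mem_val.mpr he0)).symm
    rw [hs1, hs2, Multiset.map_add, Multiset.map_add, ← add_assoc]
    congr 1
    · congr 1
      · rw [Multiset.eq_replicate]
        constructor
        · rw [Multiset.card_map]
          change (Finset.univ \ E).card = _
          rw [Finset.card_sdiff_of_subset (Finset.subset_univ E), Finset.card_univ,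
            Fintype.card_fin, hE, hc]
          omega
        · intro b hb
          rw [Multiset.mem_map] at hb
          obtain ⟨e, he, rfl⟩ := hb
          rw [Finset.mem_val, Finset.mem_sdiff] at he
          exact hy e he.2
      · rw [Multiset.eq_replicate]
        constructor
        · rw [Multiset.card_map]
          change (E.erase e0).card = _
          rw [Finset.card_erase_of_mem he0, hE]
        · intro b hb
          rw [Multiset.mem_map] at hb
          obtain ⟨e, he, rfl⟩ := hb
          rw [Finset.mem_val, Finset.mem_erase] at he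
          exact hyE e he.2 he.1
    · rw [Multiset.map_singleton, hye0]
  · intro hc
    obtain ⟨u, hu, hcard⟩ := h3
    refine ⟨u, hu, ?_⟩
    rw [Multiset.count_map]
    have h4 : Multiset.card ((Finset.univ : Finset (Fin l.length)).val.filter
        (fun i => u = (f i).2)) = (Finset.univ.filter fun i => (f i).2 = u).card := by
      rw [Finset.card_def, Finset.filter_val]
      congr 1
      apply Multiset.filter_congr
      intro i _
      exact eq_comm
    rw [h4]
    have h5 : (Finset.univ.filter fun i => (f i).2 = u).card +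
        (Finset.univ.filter fun i => ¬ (f i).2 = u).card = l.length := by
      rw [Finset.card_filter_add_card_filter_not, Finset.card_univ, Fintype.card_fin]
    have h6 : (Finset.univ.filter fun i => ¬ (f i).2 = u).card ≤ 122 := hcard
    omega

end Pool.Agent.H169R3.KR
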