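import Mathlib
import Pool.Agent.H169R3.KR.I0
set_option autoImplicit false
open Finset

namespace Pool.Agent.H169R3.KR

/-- the `V`-components of the eight special elements -/
def I2x (i : Fin 8) : Fin 5 → ZMod 2 :=
  ![1, ((i : ℕ) : ZMod 2), ((i / 2 : ℕ) : ZMod 2), ((i / 4 : ℕ) : ZMod 2), if i = 0 then 1 else 0]

theorem I2_comb : ∀ I : Finset (Fin 8),
    (∑ i ∈ I, I2x i 0 = 0) → (∑ i ∈ I, I2x i 1 = 0) → (∑ i ∈ I, I2x i 2 = 0) →
    (∑ i ∈ I, I2x i 3 = 0) → I.card = 0 ∨ I.card = 4 ∨ I.card = 8 := by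
  decide +kernel

theorem I2x_inj : Function.Injective I2x := by
  intro a b
  revert a b
  decide +kernel

theorem I2_four (I : Finset (Fin 8)) : ∑ i ∈ I, I2x i 4 = if 0 ∈ I then 1 else 0 := by
  have : ∀ i, I2x i 4 = if i = 0 then 1 else 0 := by decide +kernel
  simp only [this]
  rw [Finset.sum_ite_eq' I 0]

/-- I2: the example. -/
theorem example_atom (p : ℕ) [Fact p.Prime] (hp : 3 ≤ p) :
    ∃ A : Multiset ((Fin 5 → ZMod 2) × ZMod p), IsAt A ∧ Multiset.card A = 2 * p + 5 := by
  have hpp : p.Prime := Fact.out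
  have hodd : Odd p := hpp.odd_of_ne_two (by omega)
  have h2 : (2 : ZMod p) ≠ 0 := by
    have : ((2 : ℕ) : ZMod p) ≠ 0 := by
      rw [Ne, ZMod.natCast_eq_zero_iff]
      intro h
      have := Nat.le_of_dvd (by norm_num) h
      omega
    exact_mod_cast this
  set h : ZMod p := 2⁻¹ with hh
  have hhh : 2 * h = 1 := mul_inv_cancel₀ h2
  set g : (Fin 5 → ZMod 2) × ZMod p := (![0, 0, 0, 0, 1], 1) with hg
  set f : Fin 8 → (Fin 5 → ZMod 2) × ZMod p := fun i => (I2x i, if i = 0 then -h else h) with hf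
  have hfi : Function.Injective f := by
    intro a b hab
    exact I2x_inj (congrArg Prod.fst hab)
  have hsumC : ∀ I : Finset (Fin 8), ∑ i ∈ I, (if i = 0 then -h else h) =
      (I.card : ZMod p) * h - (if 0 ∈ I then 1 else 0) := by
    intro I
    have h1 : ∀ i : Fin 8, (if i = 0 then -h else h) = h - (if i = 0 then 1 else 0) := by
      intro i
      split_ifs
      · linear_combination -hhh
      · ring
    simp only [h1]
    rw [Finset.sum_sub_distrib, Finset.sum_ite_eq' I 0]
    simp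
  have hsum : ∀ (a : ℕ) (I : Finset (Fin 8)),
      (Multiset.replicate a g + I.val.map f).sum = (a • g.1 + ∑ i ∈ I, I2x i,
        (a : ZMod p) + ((I.card : ZMod p) * h - (if 0 ∈ I then 1 else 0))) := by
    intro a I
    rw [Multiset.sum_add, Multiset.sum_replicate]
    have h1 : (I.val.map f).sum = ∑ i ∈ I, f i := rfl
    rw [h1]
    refine Prod.ext ?_ ?_
    · rw [Prod.fst_add, Prod.smul_fst, Prod.fst_sum]
    · rw [Prod.snd_add, Prod.smul_snd, Prod.snd_sum, ← hsumC I]
      simp [hg, hf]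
  refine ⟨Multiset.replicate (2 * p - 3) g + (univ : Finset (Fin 8)).val.map f, ⟨?_, ?_, ?_⟩, ?_⟩
  · intro h0
    have := congrArg Multiset.card h0
    simp at this
  · rw [hsum]
    refine Prod.ext ?_ ?_
    · have h1 : ∑ i : Fin 8, I2x i = ![0, 0, 0, 0, 1] := by decide +kernel
      show (2 * p - 3) • g.1 + ∑ i : Fin 8, I2x i = 0
      rw [h1]
      have h3 : (2 * p - 3) = 2 * (p - 2) + 1 := by omega
      have h4 : (2 * p - 3) • g.1 = g.1 := by
        rw [h3, add_smul, one_smul, mul_smul]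
        have : ∀ v : Fin 5 → ZMod 2, (2 : ℕ) • v = 0 := by
          intro v
          funext k
          show (2 : ℕ) • v k = 0
          rw [two_nsmul]
          exact CharTwo.add_self_eq_zero _
        rw [this, zero_add]
      rw [h4]
      show ![0, 0, 0, 0, 1] + ![0, 0, 0, 0, 1] = (0 : Fin 5 → ZMod 2)
      decide +kernel
    · show ((2 * p - 3 : ℕ) : ZMod p) + (((univ : Finset (Fin 8)).card : ZMod p) * h -
        (if (0 : Fin 8) ∈ univ then 1 else 0)) = 0
      rw [Nat.cast_sub (by omega)]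
      simp only [card_univ, Fintype.card_fin, mem_univ, if_true]
      push_cast
      rw [ZMod.natCast_self]
      linear_combination 4 * hhh
  · intro B hB hB0 hBs
    set s := Multiset.replicate (2 * p - 3) g with hs
    have hdec : B = (B ∩ s) + (B - s) := by
      rw [add_comm]; exact (Multiset.sub_add_inter B s).symm
    obtain ⟨a, ha, hBa⟩ := Multiset.le_replicate_iff.1 (hs ▸ (Multiset.inter_le_right : B ∩ s ≤ s))
    have hle : B - s ≤ (univ : Finset (Fin 8)).val.map f := by
      rw [Multiset.sub_le_iff_le_add, add_comm]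
      exact hB
    have hnd : ((univ : Finset (Fin 8)).val.map f).Nodup := (univ : Finset (Fin 8)).nodup.map hfi
    classical
    set I : Finset (Fin 8) := univ.filter (fun i => f i ∈ B - s) with hI
    have hBI : B - s = I.val.map f := by
      refine (Multiset.Nodup.ext (Multiset.nodup_of_le hle hnd) (I.nodup.map hfi)).2 ?_
      intro y
      constructor
      · intro hy
        obtain ⟨i, _, hi⟩ := Multiset.mem_map.1 (Multiset.mem_of_le hle hy)
        refine Multiset.mem_map.2 ⟨i, ?_, hi⟩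
        show i ∈ I
        rw [hI, mem_filter]
        exact ⟨mem_univ _, hi ▸ hy⟩
      · intro hy
        obtain ⟨i, hi, rfl⟩ := Multiset.mem_map.1 hy
        have hi' : i ∈ I := hi
        rw [hI, mem_filter] at hi'
        exact hi'.2
    rw [hBa, hBI] at hdec
    rw [hdec, hsum] at hBs
    have hV : a • g.1 + ∑ i ∈ I, I2x i = 0 := congrArg Prod.fst hBs
    have hC : (a : ZMod p) + ((I.card : ZMod p) * h - (if 0 ∈ I then 1 else 0)) = 0 :=
      congrArg Prod.snd hBs
    have hc : ∀ k : Fin 5, a • g.1 k + ∑ i ∈ I, I2x i k = 0 := by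
      intro k
      have := congrFun hV k
      rwa [Pi.add_apply, Pi.smul_apply, Finset.sum_apply] at this
    have c0 := hc 0
    have c1 := hc 1
    have c2 := hc 2
    have c3 := hc 3
    have c4 := hc 4
    have g0 : g.1 0 = 0 := rfl
    have g1 : g.1 1 = 0 := rfl
    have g2 : g.1 2 = 0 := rfl
    have g3 : g.1 3 = 0 := rfl
    have g4 : g.1 4 = 1 := rfl
    rw [g0, smul_zero, zero_add] at c0
    rw [g1, smul_zero, zero_add] at c1
    rw [g2, smul_zero, zero_add] at c2
    rw [g3, smul_zero, zero_add] at c3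
    rw [g4, I2_four] at c4
    have hcard := I2_comb I c0 c1 c2 c3
    -- the number `W`
    obtain ⟨W, hW1, hW2⟩ : ∃ W : ℕ, (W : ZMod p) = (I.card : ZMod p) * h - (if 0 ∈ I then 1 else 0) ∧
        ((I.card = 0 ∧ W = 0 ∧ 0 ∉ I) ∨ (I.card = 4 ∧ 0 ∈ I ∧ W = 1) ∨ (I.card = 4 ∧ 0 ∉ I ∧ W = 2)
          ∨ (I.card = 8 ∧ 0 ∈ I ∧ W = 3)) := by
      rcases hcard with hc0 | hc4 | hc8
      · have hI0 : I = ∅ := card_eq_zero.1 hc0
        have h0I : (0 : Fin 8) ∉ I := by rw [hI0]; simp
        refine ⟨0, ?_, Or.inl ⟨hc0, rfl, h0I⟩⟩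
        rw [if_neg h0I, hc0]; simp
      · by_cases h0I : (0 : Fin 8) ∈ I
        · refine ⟨1, ?_, Or.inr (Or.inl ⟨hc4, h0I, rfl⟩)⟩
          rw [if_pos h0I, hc4]; push_cast
          linear_combination -2 * hhh
        · refine ⟨2, ?_, Or.inr (Or.inr (Or.inl ⟨hc4, h0I, rfl⟩))⟩
          rw [if_neg h0I, hc4]; push_cast
          linear_combination -2 * hhh
      · have hIu : I = univ := by
          rw [← card_eq_iff_eq_univ, hc8]; rfl
        have h0I : (0 : Fin 8) ∈ I := by rw [hIu]; simp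
        refine ⟨3, ?_, Or.inr (Or.inr (Or.inr ⟨hc8, h0I, rfl⟩))⟩
        rw [if_pos h0I, hc8]; push_cast
        linear_combination -4 * hhh
    rw [← hW1] at hC
    have hdvd : p ∣ a + W := by
      rw [← ZMod.natCast_eq_zero_iff]; push_cast; exact hC
    have heven : 2 ∣ a + W := by
      rw [nsmul_one] at c4
      rw [← ZMod.natCast_eq_zero_iff]
      push_cast
      rcases hW2 with ⟨_, rfl, h0⟩ | ⟨_, h0, rfl⟩ | ⟨_, h0, rfl⟩ | ⟨_, h0, rfl⟩
      · rw [if_neg h0] at c4; simpa using c4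
      · rw [if_pos h0] at c4; simpa using c4
      · rw [if_neg h0, add_zero] at c4
        rw [c4]; decide
      · rw [if_pos h0] at c4
        have : ((3 : ℕ) : ZMod 2) = 1 := by decide
        rw [this]; exact c4
    have h2p : 2 * p ∣ a + W :=
      Nat.Coprime.mul_dvd_of_dvd_of_dvd (Nat.coprime_two_left.2 hodd) heven hdvd
    obtain ⟨q, hq⟩ := h2p
    have hq2 : q ≤ 1 := by
      by_contra hcon
      have h3 : 2 ≤ q := by omega
      have : 2 * p * 2 ≤ 2 * p * q := Nat.mul_le_mul_left _ h3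
      rcases hW2 with ⟨_, rfl, h0⟩ | ⟨_, h0, rfl⟩ | ⟨_, h0, rfl⟩ | ⟨_, h0, rfl⟩ <;> omega
    interval_cases q
    · exfalso
      have ha0 : a = 0 := by omega
      have hW0 : W = 0 := by omega
      rcases hW2 with ⟨hI0, _, _⟩ | ⟨_, _, h⟩ | ⟨_, _, h⟩ | ⟨_, _, h⟩
      · rw [card_eq_zero.1 hI0, ha0] at hdec
        apply hB0
        rw [hdec]
        simp
      all_goals omega
    · have hW3 : I.card = 8 ∧ a = 2 * p - 3 := by
        rcases hW2 with ⟨hI0, _, _⟩ | ⟨_, _, h⟩ | ⟨_, _, h⟩ | ⟨h8, _, h⟩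
        · omega
        · omega
        · omega
        · exact ⟨h8, by omega⟩
      have hIu : I = univ := by
        rw [← card_eq_iff_eq_univ, hW3.1]; rfl
      rw [hdec, hIu, hW3.2]
  · rw [Multiset.card_add, Multiset.card_replicate, Multiset.card_map]
    have : Multiset.card (univ : Finset (Fin 8)).val = 8 := by decide
    rw [this]
    omega

end Pool.Agent.H169R3.KR
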