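import Mathlib
import Pool.Agent.H169R3.KR.I0
set_option autoImplicit false
open Finset

namespace Pool.Agent.H169R3.KR

section I3aux

variable {p : ℕ}

/-- difference of the multiplicities of `x` and `-x` in the second component -/
def I3_bet (x : ZMod p) : Multiset ((Fin 5 → ZMod 2) × ZMod p) →+ ℤ where
  toFun A := ((A.map Prod.snd).count x : ℤ) - ((A.map Prod.snd).count (-x) : ℤ)
  map_zero' := by simp
  map_add' A B := by simp only [Multiset.map_add, Multiset.count_add]; push_cast; ring

theorem I3_bet_apply (x : ZMod p) (A : Multiset ((Fin 5 → ZMod 2) × ZMod p)) :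
    I3_bet x A = ((A.map Prod.snd).count x : ℤ) - ((A.map Prod.snd).count (-x) : ℤ) := rfl

/-- difference of the multiplicities of `x` and `-x` -/
def I3_s (Us : Multiset (ZMod p)) (x : ZMod p) : ℤ := (Us.count x : ℤ) - (Us.count (-x) : ℤ)

theorem I3_two_ne [Fact p.Prime] (hp : 3 ≤ p) : (2 : ZMod p) ≠ 0 := by
  intro h
  have h1 : ((2 : ℕ) : ZMod p) = 0 := by exact_mod_cast h
  rw [ZMod.natCast_eq_zero_iff] at h1
  have := Nat.le_of_dvd (by norm_num) h1
  omega

theorem I3_neg_ne [Fact p.Prime] (hp : 3 ≤ p) {x : ZMod p} (hx : x ≠ 0) : -x ≠ x := by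
  intro h
  have h1 : (2 : ZMod p) * x = 0 := by linear_combination -h
  rcases mul_eq_zero.1 h1 with h2 | h2
  · exact I3_two_ne hp h2
  · exact hx h2

/-- parity -/
theorem I3_parity [Fact p.Prime] (hp : 3 ≤ p) (Us : Multiset (ZMod p)) (h0 : (0 : ZMod p) ∉ Us)
    (h : ∀ x, I3_s Us x = 0) : Even (Multiset.card Us) := by
  have h' : ∀ x, Us.count x = Us.count (-x) := by
    intro x
    have := h x
    unfold I3_s at this
    omega
  have h1 : ∑ x : ZMod p, Us.count x = Multiset.card Us :=
    Multiset.sum_count_eq_card fun a _ => Finset.mem_univ a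
  have h2 : ((∑ x : ZMod p, Us.count x : ℕ) : ZMod 2) = 0 := by
    push_cast
    refine Finset.sum_involution (fun x _ => -x) ?_ ?_ (fun _ _ => Finset.mem_univ _) ?_
    · intro x _
      rw [← h' x]
      exact CharTwo.add_self_eq_zero _
    · intro x _ hx hxx
      by_cases hx0 : x = 0
      · subst hx0
        rw [Multiset.count_eq_zero_of_notMem h0] at hx
        simp at hx
      · exact I3_neg_ne hp hx0 hxx
    · intro x _; simp
  rw [h1] at h2
  exact (ZMod.natCast_eq_zero_iff_even).1 h2

theorem I3_s_zero (Us : Multiset (ZMod p)) : I3_s Us 0 = 0 := by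
  unfold I3_s; simp

theorem I3_s_neg (Us : Multiset (ZMod p)) (x : ZMod p) : I3_s Us (-x) = - I3_s Us x := by
  unfold I3_s; simp

theorem I3_s_cons (Us : Multiset (ZMod p)) (a x : ZMod p) : I3_s (a ::ₘ Us) x
    = I3_s Us x + ((if x = a then 1 else 0) - (if -x = a then 1 else 0)) := by
  unfold I3_s
  rw [Multiset.count_cons, Multiset.count_cons]
  push_cast
  ring

theorem I3_core_a [Fact p.Prime] (hp : 1000 ≤ p) (Us : Multiset (ZMod p)) (h0 : (0 : ZMod p) ∉ Us)
    (hb : ∀ x, |(2 * (p : ℤ) - 3) * I3_s Us x + 6 * I3_s Us (2 * x)| ≤ 3) :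
    Even (Multiset.card Us) := by
  apply I3_parity (by omega) Us h0
  obtain ⟨x, -, hx⟩ := Finset.exists_max_image (Finset.univ : Finset (ZMod p))
    (fun x => |I3_s Us x|) ⟨0, Finset.mem_univ _⟩
  have h1 := hb x
  have h2 := hx (2 * x) (Finset.mem_univ _)
  have hp' : (1000 : ℤ) ≤ p := by exact_mod_cast hp
  have h3 : |I3_s Us x| = 0 := by
    by_contra hne
    have hpos : 1 ≤ |I3_s Us x| := by
      have := abs_nonneg (I3_s Us x)
      omega
    have h4 : (2 * (p : ℤ) - 3) * |I3_s Us x| ≤ 3 + 6 * |I3_s Us (2 * x)| := by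
      have e1 : (2 * (p : ℤ) - 3) * |I3_s Us x| = |(2 * (p : ℤ) - 3) * I3_s Us x| := by
        rw [abs_mul, abs_of_nonneg (by omega : (0 : ℤ) ≤ 2 * (p : ℤ) - 3)]
      have e2 : 6 * |I3_s Us (2 * x)| = |6 * I3_s Us (2 * x)| := by
        rw [abs_mul]; norm_num
      rw [e1, e2]
      have := abs_sub_abs_le_abs_sub ((2 * (p : ℤ) - 3) * I3_s Us x) (-(6 * I3_s Us (2 * x)))
      rw [abs_neg, sub_neg_eq_add] at this
      omega
    nlinarith
  intro y
  have h5 := hx y (Finset.mem_univ _)
  simp only [h3] at h5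
  exact abs_eq_zero.1 (le_antisymm h5 (abs_nonneg _))

theorem I3_core_b [Fact p.Prime] (hp : 1000 ≤ p) (Us : Multiset (ZMod p)) (h0 : (0 : ZMod p) ∉ Us)
    (b : ZMod p → ℤ) (u : ZMod p) (hu : u ≠ 0)
    (hb : ∀ x, (2 * (p : ℤ) - 3) * I3_s Us x + 6 * I3_s Us (2 * x) + b x = 0)
    (hb1 : ∀ x, x ≠ u → x ≠ -u → |b x| ≤ 122) (hb2 : ∀ x, |b x| ≤ 2 * p + 4)
    (hb3 : 2 * (p : ℤ) + 4 - 244 ≤ b u) :
    Odd (Multiset.card Us) := by
  have hp' : (1000 : ℤ) ≤ p := by exact_mod_cast hp
  obtain ⟨x, -, hx⟩ := Finset.exists_max_image (Finset.univ : Finset (ZMod p))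
    (fun x => |I3_s Us x|) ⟨0, Finset.mem_univ _⟩
  have key : ∀ y, (2 * (p : ℤ) - 3) * |I3_s Us y| ≤ |b y| + 6 * |I3_s Us (2 * y)| := by
    intro y
    have e1 : (2 * (p : ℤ) - 3) * |I3_s Us y| = |(2 * (p : ℤ) - 3) * I3_s Us y| := by
      rw [abs_mul, abs_of_nonneg (by omega : (0 : ℤ) ≤ 2 * (p : ℤ) - 3)]
    have e2 : 6 * |I3_s Us (2 * y)| = |6 * I3_s Us (2 * y)| := by
      rw [abs_mul]; norm_num
    have e3 : (2 * (p : ℤ) - 3) * I3_s Us y = -(b y + 6 * I3_s Us (2 * y)) := by
      have := hb y; linarith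
    rw [e1, e2, e3, abs_neg]
    exact abs_add_le _ _
  have hM : |I3_s Us x| ≤ 1 := by
    by_contra hne
    have h1 := key x
    have h2 := hx (2 * x) (Finset.mem_univ _)
    have h3 := hb2 x
    have h4 : 2 ≤ |I3_s Us x| := by omega
    nlinarith
  have hall : ∀ y, |I3_s Us y| ≤ 1 := fun y => le_trans (hx y (Finset.mem_univ _)) hM
  have hz : ∀ y, y ≠ u → y ≠ -u → I3_s Us y = 0 := by
    intro y h1 h2
    have h3 := key y
    have h4 := hb1 y h1 h2
    have h5 := hall (2 * y)
    by_contra hne
    have h6 : 1 ≤ |I3_s Us y| := Int.one_le_abs hne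
    nlinarith
  have hu1 : I3_s Us u ≠ 0 := by
    intro h
    have h1 := hb u
    have h2 := hall (2 * u)
    rw [h] at h1
    have h3 := abs_le.1 h2
    linarith [h3.1, h3.2]
  have hu2 := hall u
  have hne := I3_neg_ne (p := p) (by omega) hu
  have hcase : I3_s Us u = 1 ∨ I3_s Us u = -1 := by
    have := abs_le.1 hu2
    omega
  have hfin : ∀ a : ZMod p, (a = u ∨ a = -u) → I3_s (a ::ₘ Us) u = 0 → Odd (Multiset.card Us) := by
    intro a ha hau
    have hev : Even (Multiset.card (a ::ₘ Us)) := by
      apply I3_parity (by omega)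
      · rw [Multiset.mem_cons]
        refine not_or.2 ⟨?_, h0⟩
        rcases ha with rfl | rfl
        · exact hu.symm
        · exact (neg_ne_zero.2 hu).symm
      · intro y
        by_cases h1 : y = u
        · rw [h1]; exact hau
        by_cases h2 : y = -u
        · rw [h2, I3_s_neg, hau, neg_zero]
        rw [I3_s_cons, hz y h1 h2]
        have h3 : y ≠ a := by rcases ha with rfl | rfl <;> assumption
        have h4 : -y ≠ a := by
          rcases ha with rfl | rfl
          · intro h; apply h2; rw [← h, neg_neg]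
          · intro h; apply h1; exact neg_injective h
        simp [h3, h4]
    rw [Multiset.card_cons] at hev
    rcases Nat.even_or_odd (Multiset.card Us) with h | h
    · exact absurd (Even.add_one h) (by rw [Nat.not_odd_iff_even]; exact hev)
    · exact h
  rcases hcase with h | h
  · apply hfin (-u) (Or.inr rfl)
    rw [I3_s_cons, h]
    simp [hne.symm]
  · apply hfin u (Or.inl rfl)
    rw [I3_s_cons, h]
    simp [hne]

/-- `bet` of a long atom -/
theorem I3_bet_long [Fact p.Prime] (hp : 1000 ≤ p) (x u : ZMod p)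
    (A : Multiset ((Fin 5 → ZMod 2) × ZMod p))
    (h : A.map Prod.snd = Multiset.replicate (2 * p - 3) u + Multiset.replicate 7 (u * 2⁻¹)
          + {-(u * 2⁻¹)}) :
    I3_bet x A = (2 * (p : ℤ) - 3) * ((if x = u then 1 else 0) - (if -x = u then 1 else 0))
      + 6 * ((if 2 * x = u then 1 else 0) - (if -(2 * x) = u then 1 else 0)) := by
  have h2 := I3_two_ne (p := p) (by omega)
  have e1 : ∀ y : ZMod p, (u * 2⁻¹ = y) ↔ (2 * y = u) := by
    intro y
    constructor
    · intro h; rw [← h]; field_simp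
    · intro h; rw [← h]; field_simp
  have e2 : ∀ y : ZMod p, (y = -(u * 2⁻¹)) ↔ (-(2 * y) = u) := by
    intro y
    constructor
    · intro h; rw [h]; field_simp
    · intro h; rw [← h]; field_simp
  have hc : ∀ y : ZMod p, ((A.map Prod.snd).count y : ℤ) = (2 * (p : ℤ) - 3) * (if y = u then 1 else 0)
      + 7 * (if 2 * y = u then 1 else 0) + (if -(2 * y) = u then 1 else 0) := by
    intro y
    rw [h, Multiset.count_add, Multiset.count_add, Multiset.count_replicate,
      Multiset.count_replicate, Multiset.count_singleton]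
    simp only [e1, e2]
    have e3 : (u = y) ↔ (y = u) := eq_comm
    simp only [e3]
    have e4 : ((2 * p - 3 : ℕ) : ℤ) = 2 * (p : ℤ) - 3 := by
      rw [Nat.cast_sub (by omega)]; push_cast; ring
    push_cast [e4]
    split_ifs <;> simp
  rw [I3_bet_apply, hc x, hc (-x)]
  have e5 : (2 * -x : ZMod p) = -(2 * x) := by ring
  rw [e5, neg_neg]
  ring

theorem I3_bet_rest [Fact p.Prime] (hp : 1000 ≤ p) (x : ZMod p)
    (u : Multiset ((Fin 5 → ZMod 2) × ZMod p) → ZMod p)
    (rest : Multiset (Multiset ((Fin 5 → ZMod 2) × ZMod p)))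
    (h : ∀ A ∈ rest, A.map Prod.snd = Multiset.replicate (2 * p - 3) (u A)
      + Multiset.replicate 7 (u A * 2⁻¹) + {-(u A * 2⁻¹)}) :
    I3_bet x rest.sum = (2 * (p : ℤ) - 3) * I3_s (rest.map u) x + 6 * I3_s (rest.map u) (2 * x) := by
  induction rest using Multiset.induction_on with
  | empty => simp [I3_s]
  | cons A rest ih =>
    rw [Multiset.sum_cons, map_add, ih (fun B hB => h B (Multiset.mem_cons_of_mem hB)),
      I3_bet_long hp x (u A) A (h A (Multiset.mem_cons_self _ _)), Multiset.map_cons,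
      I3_s_cons, I3_s_cons]
    ring

/-- an atom containing zero is `{0}` -/
theorem I3_at_zero {G : Type} [AddCommGroup G] {A : Multiset G} (hA : IsAt A)
    (h : (0 : G) ∈ A) : A = {0} := by
  have := hA.2.2 {0} (by simpa using h) (by simp) (by simp)
  exact this.symm

theorem I3_at_one {G : Type} [AddCommGroup G] {A : Multiset G} (hA : IsAt A)
    (h : Multiset.card A = 1) : (0 : G) ∈ A := by
  obtain ⟨a, rfl⟩ := Multiset.card_eq_one.1 h
  have := hA.2.1
  simp only [Multiset.sum_singleton] at this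
  simp [this]

theorem I3_bet_two [Fact p.Prime] (x : ZMod p) {V : Multiset ((Fin 5 → ZMod 2) × ZMod p)}
    (hV : IsAt V) (h : Multiset.card V = 2) : I3_bet x V = 0 := by
  obtain ⟨a, b, rfl⟩ := Multiset.card_eq_two.1 h
  have h1 := hV.2.1
  have h2 : b = -a := by
    have : a + b = 0 := by simpa using h1
    exact (neg_eq_of_add_eq_zero_right this).symm
  subst h2
  rw [I3_bet_apply]
  have e1 : (Multiset.map Prod.snd {a, -a} : Multiset (ZMod p)) = {a.2, -a.2} := by simp
  rw [e1]
  have e2 : ({a.2, -a.2} : Multiset (ZMod p)) = a.2 ::ₘ {-a.2} := rfl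
  rw [e2, Multiset.count_cons, Multiset.count_cons, Multiset.count_singleton,
    Multiset.count_singleton]
  have e3 : (-x = -a.2) ↔ (x = a.2) := neg_inj
  have e4 : (-x = a.2) ↔ (x = -a.2) := neg_eq_iff_eq_neg
  simp only [e3, e4]
  push_cast
  ring

theorem I3_bet_le [Fact p.Prime] (x : ZMod p) (V : Multiset ((Fin 5 → ZMod 2) × ZMod p)) :
    |I3_bet x V| ≤ Multiset.card V := by
  rw [I3_bet_apply]
  have h1 := Multiset.count_le_card x (V.map Prod.snd)
  have h2 := Multiset.count_le_card (-x) (V.map Prod.snd)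
  rw [Multiset.card_map] at h1 h2
  rw [abs_le]
  constructor <;> omega

theorem I3_bet_small [Fact p.Prime] (x : ZMod p) {V : Multiset ((Fin 5 → ZMod 2) × ZMod p)}
    (hV : IsAt V) (h : 2 ≤ Multiset.card V) : |I3_bet x V| ≤ 3 * ((Multiset.card V : ℤ) - 2) := by
  rcases Nat.lt_or_ge 2 (Multiset.card V) with h1 | h1
  · have := I3_bet_le x V
    omega
  · have h2 : Multiset.card V = 2 := le_antisymm h1 h
    rw [I3_bet_two x hV h2, h2]
    simp

theorem I3_count_two {α : Type} [DecidableEq α] (a b : α) (hab : a ≠ b) (s : Multiset α) :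
    s.count a + s.count b ≤ Multiset.card s := by
  induction s using Multiset.induction_on with
  | empty => simp
  | cons c s ih =>
    rw [Multiset.count_cons, Multiset.count_cons, Multiset.card_cons]
    have : ¬ (a = c ∧ b = c) := fun h => hab (h.1.trans h.2.symm)
    by_cases h1 : a = c
    · have h2 : b ≠ c := fun h => this ⟨h1, h⟩
      simp [h1, h2]; rw [← h1]; omega
    · by_cases h2 : b = c
      · simp [h1, h2]; rw [← h2]; omega
      · simp [h1, h2]; omega

end I3aux

/-- I3: the final count. -/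
theorem final_count (p : ℕ) [Fact p.Prime] (hp : 1000 ≤ p)
    (H1 : ∀ A : Multiset ((Fin 5 → ZMod 2) × ZMod p), IsAt A → Multiset.card A ≤ 2 * p + 5)
    (H2 : ∀ A : Multiset ((Fin 5 → ZMod 2) × ZMod p), IsAt A →
      Multiset.card A = 2 * p + 5 → ∃ u : ZMod p, u ≠ 0 ∧
        A.map Prod.snd = Multiset.replicate (2 * p - 3) u + Multiset.replicate 7 (u * 2⁻¹)
          + {-(u * 2⁻¹)})
    (H3 : ∀ A : Multiset ((Fin 5 → ZMod 2) × ZMod p), IsAt A →
      Multiset.card A = 2 * p + 4 → ∃ u : ZMod p, u ≠ 0 ∧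
        2 * p + 4 ≤ (A.map Prod.snd).count u + 122)
    (k : ℕ) (xs ys : List (Multiset ((Fin 5 → ZMod 2) × ZMod p)))
    (hx : xs.length = 2 * k + 1) (hy : ys.length = k * (2 * p + 5) + (2 * p + 5) / 2)
    (hxa : ∀ A ∈ xs, IsAt A) (hya : ∀ A ∈ ys, IsAt A) (hs : xs.sum = ys.sum) : False := by
  classical
  -- weights
  let c0 : Multiset ((Fin 5 → ZMod 2) × ZMod p) →+ ℕ := Multiset.countAddMonoidHom (0 : (Fin 5 → ZMod 2) × ZMod p)
  let cd : Multiset ((Fin 5 → ZMod 2) × ZMod p) →+ ℕ := Multiset.cardHom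
  have hc0 : ∀ A : Multiset ((Fin 5 → ZMod 2) × ZMod p), c0 A = A.count 0 := fun A => rfl
  have hcd : ∀ A : Multiset ((Fin 5 → ZMod 2) × ZMod p), cd A = Multiset.card A := fun A => rfl
  -- bounds for atoms
  have b1 : ∀ A : Multiset ((Fin 5 → ZMod 2) × ZMod p), IsAt A → Multiset.card A + (2 * p + 4) * A.count 0 ≤ 2 * p + 5 := by
    intro A hA
    by_cases h : (0 : (Fin 5 → ZMod 2) × ZMod p) ∈ A
    · rw [I3_at_zero hA h]; simp; omega
    · rw [Multiset.count_eq_zero_of_notMem h]; simpa using H1 A hA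
  have b2 : ∀ A : Multiset ((Fin 5 → ZMod 2) × ZMod p), IsAt A → 2 ≤ Multiset.card A + A.count 0 := by
    intro A hA
    by_cases h : (0 : (Fin 5 → ZMod 2) × ZMod p) ∈ A
    · rw [I3_at_zero hA h]; simp
    · have h1 : Multiset.card A ≠ 1 := fun h' => h (I3_at_one hA h')
      have h2 : Multiset.card A ≠ 0 := fun h' => hA.1 (Multiset.card_eq_zero.1 h')
      omega
  have sx : ∀ L : List (Multiset ((Fin 5 → ZMod 2) × ZMod p)), (∀ A ∈ L, IsAt A) →
      cd L.sum + (2 * p + 4) * c0 L.sum ≤ L.length * (2 * p + 5) := by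
    intro L
    induction L with
    | nil => intro _; simp
    | cons A L ih =>
      intro h
      have h1 := ih fun B hB => h B (List.mem_cons_of_mem _ hB)
      have h2 := b1 A (h A List.mem_cons_self)
      rw [List.sum_cons, map_add, map_add, List.length_cons, hcd A, hc0 A]
      nlinarith
  have sy : ∀ L : List (Multiset ((Fin 5 → ZMod 2) × ZMod p)), (∀ A ∈ L, IsAt A) → 2 * L.length ≤ cd L.sum + c0 L.sum := by
    intro L
    induction L with
    | nil => intro _; simp
    | cons A L ih =>
      intro h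
      have h1 := ih fun B hB => h B (List.mem_cons_of_mem _ hB)
      have h2 := b2 A (h A List.mem_cons_self)
      rw [List.sum_cons, map_add, map_add, List.length_cons, hcd A, hc0 A]
      omega
  have hl : 2 * ys.length + 1 = xs.length * (2 * p + 5) := by
    rw [hy, hx]
    have : (2 * p + 5) / 2 = p + 2 := by omega
    rw [this]; ring
  have hm : c0 xs.sum = 0 := by
    have h1 := sx xs hxa
    have h2 := sy ys hya
    rw [← hs] at h2
    by_contra hne
    have h3 : 1 ≤ c0 xs.sum := Nat.one_le_iff_ne_zero.2 hne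
    nlinarith
  -- no zeros in the atoms
  have zx : ∀ A ∈ xs, A.count 0 = 0 := by
    intro A hA
    have h1 : A ≤ xs.sum := by
      have := List.single_le_sum (l := xs) (fun _ _ => Multiset.zero_le _) A hA
      exact this
    have h2 : A.count 0 ≤ xs.sum.count 0 := Multiset.count_le_of_le 0 h1
    have h3 : xs.sum.count 0 = 0 := hm
    omega
  have zy : ∀ A ∈ ys, A.count 0 = 0 := by
    intro A hA
    have h1 : A ≤ ys.sum := by
      have := List.single_le_sum (l := ys) (fun _ _ => Multiset.zero_le _) A hA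
      exact this
    have h2 : A.count 0 ≤ ys.sum.count 0 := Multiset.count_le_of_le 0 h1
    have h3 : ys.sum.count 0 = 0 := by rw [← hs]; exact hm
    omega
  have cy : ∀ A ∈ ys, 2 ≤ Multiset.card A := by
    intro A hA
    have := b2 A (hya A hA)
    have := zy A hA
    omega
  -- bet of the right side
  have by' : ∀ x : ZMod p, ∀ L : List (Multiset ((Fin 5 → ZMod 2) × ZMod p)), (∀ A ∈ L, IsAt A ∧ 2 ≤ Multiset.card A) →
      |I3_bet x L.sum| ≤ 3 * ((cd L.sum : ℤ) - 2 * L.length) := by
    intro x L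
    induction L with
    | nil => intro _; simp
    | cons A L ih =>
      intro h
      have h1 := ih fun B hB => h B (List.mem_cons_of_mem _ hB)
      have h2 := I3_bet_small x (h A List.mem_cons_self).1 (h A List.mem_cons_self).2
      rw [List.sum_cons, map_add, map_add, List.length_cons, hcd A]
      have h3 := abs_add_le (I3_bet x A) (I3_bet x L.sum)
      push_cast
      linarith
  have by2 : ∀ x : ZMod p, |I3_bet x ys.sum| ≤ 3 * ((cd ys.sum : ℤ) - 2 * ys.length) := fun x =>
    by' x ys fun A hA => ⟨hya A hA, cy A hA⟩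
  -- the parameter function
  have hu : ∀ A : Multiset ((Fin 5 → ZMod 2) × ZMod p), ∃ u : ZMod p, (IsAt A → Multiset.card A = 2 * p + 5 →
      u ≠ 0 ∧ A.map Prod.snd = Multiset.replicate (2 * p - 3) u
        + Multiset.replicate 7 (u * 2⁻¹) + {-(u * 2⁻¹)}) := by
    intro A
    by_cases h : IsAt A ∧ Multiset.card A = 2 * p + 5
    · obtain ⟨u, hu⟩ := H2 A h.1 h.2
      exact ⟨u, fun _ _ => hu⟩
    · exact ⟨0, fun h1 h2 => absurd ⟨h1, h2⟩ h⟩
  choose u hu using hu
  have h1 := sx xs hxa
  have h2 := sy ys hya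
  rw [← hs] at h2
  rw [hm] at h1 h2
  have hcx : cd xs.sum = xs.length * (2 * p + 5) ∨ cd xs.sum + 1 = xs.length * (2 * p + 5) := by
    omega
  -- all atoms long
  have full : ∀ L : List (Multiset ((Fin 5 → ZMod 2) × ZMod p)), (∀ A ∈ L, IsAt A) → cd L.sum = L.length * (2 * p + 5) →
      ∀ A ∈ L, Multiset.card A = 2 * p + 5 := by
    intro L
    induction L with
    | nil => intro _ _ A hA; simp at hA
    | cons B L ih =>
      intro h hc A hA
      have h3 := sx L fun B hB => h B (List.mem_cons_of_mem _ hB)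
      have h4 := H1 B (h B List.mem_cons_self)
      rw [List.sum_cons, map_add, List.length_cons, hcd B] at hc
      have h5 : Multiset.card B = 2 * p + 5 ∧ cd L.sum = L.length * (2 * p + 5) := by
        constructor <;> nlinarith
      rcases List.mem_cons.1 hA with rfl | hA
      · exact h5.1
      · exact ih (fun B hB => h B (List.mem_cons_of_mem _ hB)) h5.2 A hA
  rcases hcx with hca | hcb
  · -- case (a)
    have hf := full xs hxa hca
    have hmem0 : (0 : ZMod p) ∉ (xs : Multiset (Multiset ((Fin 5 → ZMod 2) × ZMod p))).map u := by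
      intro h
      obtain ⟨A, hA, hA0⟩ := Multiset.mem_map.1 h
      have hA' : A ∈ xs := by simpa using hA
      exact (hu A (hxa A hA') (hf A hA')).1 hA0
    have hev := I3_core_a hp ((xs : Multiset (Multiset ((Fin 5 → ZMod 2) × ZMod p))).map u) hmem0 (by
      intro x
      rw [← I3_bet_rest hp x u (xs : Multiset (Multiset ((Fin 5 → ZMod 2) × ZMod p))) (by
        intro A hA
        have hA' : A ∈ xs := by simpa using hA
        exact (hu A (hxa A hA') (hf A hA')).2)]
      rw [Multiset.sum_coe, hs]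
      have h3 := by2 x
      rw [← hs] at h3 ⊢
      refine h3.trans ?_
      have h4 : (cd xs.sum : ℤ) - 2 * ys.length = 1 := by
        rw [hca, ← hl]; push_cast; ring
      rw [h4]; norm_num)
    rw [Multiset.card_map, Multiset.coe_card, hx] at hev
    exact (Nat.not_even_iff_odd.2 ⟨k, rfl⟩) hev
  · -- case (b)
    obtain ⟨W, hW, hWc⟩ : ∃ W ∈ xs, Multiset.card W ≠ 2 * p + 5 := by
      by_contra hcon
      push Not at hcon
      have : ∀ L : List (Multiset ((Fin 5 → ZMod 2) × ZMod p)), (∀ A ∈ L, Multiset.card A = 2 * p + 5) →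
          cd L.sum = L.length * (2 * p + 5) := by
        intro L
        induction L with
        | nil => intro _; simp
        | cons A L ih =>
          intro h
          rw [List.sum_cons, map_add, List.length_cons, hcd A, h A List.mem_cons_self,
            ih fun B hB => h B (List.mem_cons_of_mem _ hB)]
          ring
      have := this xs hcon
      omega
    obtain ⟨l1, l2, hl12⟩ := List.append_of_mem hW
    have hperm : xs.Perm (W :: (l1 ++ l2)) := by
      rw [hl12]; exact List.perm_middle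
    have hsum : xs.sum = W + (l1 ++ l2).sum := by
      rw [hperm.sum_eq, List.sum_cons]
    have hlen : xs.length = (l1 ++ l2).length + 1 := by
      rw [hperm.length_eq, List.length_cons]
    have hrest : ∀ A ∈ l1 ++ l2, IsAt A := fun A hA => hxa A (hperm.mem_iff.2 (List.mem_cons_of_mem _ hA))
    have hWat := hxa W hW
    have h3 := sx (l1 ++ l2) hrest
    have h4 := H1 W hWat
    have hcb' := hcb
    rw [hsum, map_add, hcd W, hlen] at hcb'
    have h5 : Multiset.card W = 2 * p + 4 ∧ cd (l1 ++ l2).sum = (l1 ++ l2).length * (2 * p + 5) := by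
      have h6 : Multiset.card W ≤ 2 * p + 4 := by omega
      constructor <;> nlinarith
    obtain ⟨hW4, hc5⟩ := h5
    have hf := full (l1 ++ l2) hrest hc5
    obtain ⟨u0, hu0, hcount⟩ := H3 W hWat hW4
    have hWcard : Multiset.card (W.map Prod.snd) = 2 * p + 4 := by rw [Multiset.card_map, hW4]
    have hsmall : ∀ y, y ≠ u0 → (W.map Prod.snd).count y ≤ 122 := by
      intro y hy
      have := I3_count_two y u0 hy (W.map Prod.snd)
      omega
    have hmem0 : (0 : ZMod p) ∉ ((l1 ++ l2 : List (Multiset ((Fin 5 → ZMod 2) × ZMod p))) : Multiset (Multiset ((Fin 5 → ZMod 2) × ZMod p))).map u := by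
      intro h
      obtain ⟨A, hA, hA0⟩ := Multiset.mem_map.1 h
      have hA' : A ∈ l1 ++ l2 := by simpa using hA
      exact (hu A (hrest A hA') (hf A hA')).1 hA0
    have hneg := I3_neg_ne (p := p) (by omega) hu0
    have hodd := I3_core_b hp (((l1 ++ l2 : List (Multiset ((Fin 5 → ZMod 2) × ZMod p))) : Multiset (Multiset ((Fin 5 → ZMod 2) × ZMod p))).map u) hmem0
      (fun x => I3_bet x W) u0 hu0 (by
        intro x
        rw [← I3_bet_rest hp x u ((l1 ++ l2 : List (Multiset ((Fin 5 → ZMod 2) × ZMod p))) : Multiset (Multiset ((Fin 5 → ZMod 2) × ZMod p))) (by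
          intro A hA
          have hA' : A ∈ l1 ++ l2 := by simpa using hA
          exact (hu A (hrest A hA') (hf A hA')).2)]
        rw [Multiset.sum_coe]
        have h6 : I3_bet x (l1 ++ l2).sum + I3_bet x W = I3_bet x xs.sum := by
          rw [hsum, map_add]; ring
        rw [h6]
        have h7 := by2 x
        have h8 : (cd ys.sum : ℤ) - 2 * ys.length = 0 := by
          rw [← hs]
          have : cd xs.sum = 2 * ys.length := by omega
          rw [this]; push_cast; ring
        rw [h8, mul_zero] at h7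
        rw [hs]
        exact abs_eq_zero.1 (le_antisymm h7 (abs_nonneg _)))
      (by
        intro x h6 h7
        have h8 := hsmall x h6
        have h9 := hsmall (-x) (fun h => h7 (by rw [← h, neg_neg]))
        rw [I3_bet_apply, abs_le]
        constructor <;> omega)
      (by
        intro x
        have := I3_bet_le x W
        rw [hW4] at this
        push_cast at this
        exact this)
      (by
        have h8 := hsmall (-u0) hneg
        rw [I3_bet_apply]
        omega)
    rw [Multiset.card_map, Multiset.coe_card] at hodd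
    have : (l1 ++ l2).length = 2 * k := by omega
    rw [this] at hodd
    exact (Nat.not_odd_iff_even.2 ⟨k, by ring⟩) hodd

end Pool.Agent.H169R3.KR
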